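import Pool.Agent.MP_2da4e2_lc.Red

/-!
# Choice of the parameters; the gap
-/

set_option autoImplicit false

namespace Pool.Agent.MP_2da4e2_lc

open Finset Pool.Agent.Lib.PCP Filter

/-! ### numbers -/

lemma exists_pow_small {q c : ℝ} (hq0 : 0 ≤ q) (hq1 : q < 1) (hc : 0 < c) :
    ∃ k : ℕ, ∀ k' ≥ k, q ^ k' ≤ c := by
  obtain ⟨k, hk⟩ := exists_pow_lt_of_lt_one hc hq1
  exact ⟨k, fun k' hk' => (pow_le_pow_of_le_one hq0 hq1.le hk').trans hk.le⟩

lemma exists_log_bound (r a : ℕ) : ∃ b₀ : ℕ, ∀ b ≥ b₀, r * (a + b) ≤ 2 ^ b := by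
  have h1 := tendsto_pow_const_div_const_pow_of_one_lt 1 (show (1 : ℝ) < 2 by norm_num)
  have h2 := h1.const_mul (r * (a + 1) : ℝ)
  rw [mul_zero] at h2
  have h3 := h2.eventually (gt_mem_nhds (show (0 : ℝ) < 1 by norm_num))
  obtain ⟨b₀, hb₀⟩ := eventually_atTop.1 h3
  refine ⟨b₀ + 1, fun b hb => ?_⟩
  have h4 := hb₀ b (by omega)
  have hb1 : (1 : ℝ) ≤ b := by exact_mod_cast (by omega : 1 ≤ b)
  have h5 : (0 : ℝ) < 2 ^ b := by positivity
  rw [pow_one, mul_div_assoc', div_lt_one h5] at h4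
  have h6 : (r : ℝ) * (a + b) ≤ r * (a + 1) * b := by
    have : (a : ℝ) + b ≤ (a + 1) * b := by nlinarith [Nat.cast_nonneg (α := ℝ) a]
    calc (r : ℝ) * (a + b) ≤ r * ((a + 1) * b) :=
          mul_le_mul_of_nonneg_left this (Nat.cast_nonneg _)
      _ = _ := by ring
  have h7 : ((r * (a + b) : ℕ) : ℝ) ≤ ((2 ^ b : ℕ) : ℝ) := by
    push_cast
    linarith
  exact_mod_cast h7

lemma exists_large (r c : ℕ) : ∃ M₀ : ℕ, ∀ M ≥ M₀, r * (1 + r + Nat.clog 2 (M * c)) ≤ M := by
  obtain ⟨b₀, hb₀⟩ := exists_log_bound r (2 + r + Nat.clog 2 c)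
  refine ⟨2 ^ b₀, fun M hM => ?_⟩
  have hM0 : 0 < M := lt_of_lt_of_le (by positivity) hM
  have h1 : b₀ ≤ Nat.log 2 M := (Nat.le_log_iff_pow_le (by norm_num) hM0.ne').2 hM
  have h2 : 2 ^ Nat.log 2 M ≤ M := Nat.pow_log_le_self 2 hM0.ne'
  have h3 : M < 2 ^ (Nat.log 2 M + 1) := Nat.lt_pow_succ_log_self (by norm_num) M
  have h4 : Nat.clog 2 (M * c) ≤ Nat.log 2 M + 1 + Nat.clog 2 c := by
    apply Nat.clog_le_of_le_pow
    rw [pow_add]
    exact Nat.mul_le_mul h3.le (Nat.le_pow_clog (by norm_num) c)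
  refine le_trans ?_ ((hb₀ _ h1).trans h2)
  apply Nat.mul_le_mul_left
  omega

/-! ### the instance -/

section

variable {k T d r n : ℕ} {A : Type} {x : GData A}

/-- The satisfiable case. -/
theorem yes_case [Finite A] [Nonempty A] {G : RG (Fin n) d A} (hx : Repr x G) (hn : 0 < n)
    (hN : 0 < numP k T d A n) {σ : Fin n → A}
    (hσ : ∀ i v, G.con i v (σ v) (σ (G.nb i v)) = true) :
    ∃ Tr : Tree, IsTree (testL k T d r A n).length (itemsN k T d r A x) Tr ∧
      cost (itemsN k T d r A x) Tr ≤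
        (n ^ k + r * (1 + r + Nat.clog 2 (numP k T d A n))) * numP k T d A n ^ r := by
  classical
  have : NeZero n := ⟨hn.ne'⟩
  set N := numP k T d A n with hNdef
  -- the labels
  let lab : Fin n → Lam d T A := fun v l => σ (G.wend v (G.rev (List.ofFn l)))
  have hlab : ∀ v o, (walkGame G T).check v o ((walkGame G T).lft o (lab ((walkGame G T).L o v)))
      ((walkGame G T).rgt o (lab ((walkGame G T).R o v))) = true := by
    intro v o
    simp only [walkGame, lab]
    rw [G.wend_rev, G.wend_rev]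
    exact hσ _ _
  let C : List ((Fin k → Fin n) × (Fin k → Lam d T A)) :=
    (Finset.univ : Finset (Fin k → Fin n)).toList.map (fun w => (w, fun j => lab (w j)))
  have hClen : C.length = n ^ k := by
    simp [C]
  have hcov : ∀ g : Fin N, ∃ s ∈ C, incB G s g = true := by
    intro g
    obtain ⟨w, hw⟩ := (walkGame G T).cover lab hlab
      ((pt k T d A n g).1, (pt k T d A n g).2.1, (pt k T d A n g).2.2.1)
    refine ⟨(w, fun j => lab (w j)), List.mem_map.2 ⟨w, Finset.mem_toList.2 (Finset.mem_univ _), rfl⟩,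
      ?_⟩
    unfold incB
    exact decide_eq_true hw
  have hcan := can_cover (r := r) (inc := incB G (T := T) (k := k))
    (val := fun i y => bit (rowF x k T d r n y) i) (m := (testL k T d r A n).length)
    (Nat.le_pow_clog (by norm_num : 1 < 2) N) (C₀ := C) (by
      rintro ⟨w, lam⟩ _ J θ hθ
      obtain ⟨i, hi⟩ := List.mem_iff_getElem?.1 (mem_testL (r := r) (n := n) w lam J hθ)
      refine ⟨i, ?_, fun y => bit_row hx y w lam J θ hi⟩
      exact (List.getElem?_eq_some_iff.1 hi).1) C (fun s hs => hs) r Finset.univ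
    (by simp) Set.univ (fun _ => ⟨0, hN⟩) (by simp) (fun y _ j _ => hcov (y j))
  obtain ⟨Tr, hTr, hd⟩ := hcan.tree (row := rowF x k T d r n) (fun _ _ => rfl)
    (itemsN k T d r A x) (by
      intro h0
      have h1 := length_items (k := k) (T := T) (r := r) hx
      rw [h0] at h1
      have h2 : 0 < N ^ r := by positivity
      rw [List.length_nil, ← hNdef] at h1
      omega) (nodup_items hx) (by
      intro v hv
      obtain ⟨y, hy⟩ := (mem_items hx v).1 hv
      exact ⟨y, Set.mem_univ _, hy⟩)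
  refine ⟨Tr, hTr, ?_⟩
  unfold cost
  have h2 := List.sum_le_card_nsmul ((itemsN k T d r A x).map fun y => depth y Tr)
    (C.length + r * (1 + r + Nat.clog 2 N)) (by
      intro m hm
      obtain ⟨v, hv, rfl⟩ := List.mem_map.1 hm
      exact hd v hv)
  rw [List.length_map, length_items hx, hClen, smul_eq_mul, mul_comm] at h2
  exact h2

/-- The unsatisfiable case. -/
theorem no_case [Fintype A] [Nonempty A] {G : RG (Fin n) d A} (hx : Repr x G) (hn : 0 < n)
    (hd : 0 < d) {lam η : ℝ} (h0 : 0 ≤ lam) (hs : G.Spec lam) (hη0 : 0 ≤ η)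
    (hη1 : η ≤ 1) (hG : TwoGap G η) {h : ℕ} (hh : 0 < h) (hA : h < Fintype.card A ^ k)
    (hp : Game.pval A η (4 * lam ^ T) k * (h : ℝ) ^ 2 ≤ 1 / 4)
    {L D z : ℕ} (hL : 4 * L ≤ h * n ^ k) (hD2 : 2 ≤ D)
    (hz : z = Nat.card {z : (Fin k → A) → Bool // z ≠ fun _ => false})
    (hD : 4 * z * D ≤ numP k T d A n + (4 * z - 1))
    (Tr : Tree) (hTr : IsTree (testL k T d r A n).length (itemsN k T d r A x) Tr) :
    L * numP k T d A n ^ r ≤ cost (itemsN k T d r A x) Tr + L * (numP k T d A n - D) ^ r := by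
  classical
  have : NeZero n := ⟨hn.ne'⟩
  have : Nonempty (Fin n) := ⟨0⟩
  set N := numP k T d A n with hNdef
  have hfort := walkGame_fortified hd h0 hs hη0 hη1 hG T
  have hrem : Rem (incB G (T := T) (k := k)) Finset.univ L D := by
    intro F hF
    have hF' : 4 * F.length ≤ h * Fintype.card (Fin n) ^ k := by
      rw [Fintype.card_fin]
      omega
    have h1 := (walkGame G T).uncovered hη1 (by positivity) hfort hh hA hp F hF'
    -- the two counts agree
    have h2 : #{e : (Fin k → Fin n) × (Fin k → Om d T) × {z : (Fin k → A) → Bool //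
          z ≠ fun _ => false} | ∀ s ∈ F, ¬ (walkGame G T).Inc s (e.1, e.2.1, e.2.2.1)} ≤
        #{g ∈ (Finset.univ : Finset (Fin N)) | ∀ s ∈ F, incB G s g = false} := by
      refine Finset.card_le_card_of_injOn (fun e => (pt k T d A n).symm e) ?_
        (fun _ _ _ _ h => (pt k T d A n).symm.injective h)
      intro e he
      have he' : ∀ s ∈ F, ¬ (walkGame G T).Inc s (e.1, e.2.1, e.2.2.1) := by simpa using he
      simp only [Finset.coe_filter, Finset.mem_univ, true_and, Set.mem_ofPred_eq]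
      intro s hs
      unfold incB
      rw [decide_eq_false_iff_not, Equiv.apply_symm_apply]
      exact he' s hs
    have hN2 : N = (n * Fintype.card (Om d T)) ^ k * z := by
      rw [hNdef, numP, hz]
      have : Nat.card (Cst k T d A) = Nat.card (Om d T) ^ k *
          Nat.card {z : (Fin k → A) → Bool // z ≠ fun _ => false} := by
        rw [Nat.card_prod, Nat.card_fun, Nat.card_eq_fintype_card (α := Fin k), Fintype.card_fin]
      rw [this, Nat.card_eq_fintype_card (α := Om d T), mul_pow]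
      ring
    rw [Fintype.card_fin] at h1
    have h3 : N ≤ 4 * z * #{g ∈ (Finset.univ : Finset (Fin N)) | ∀ s ∈ F, incB G s g = false} := by
      calc N = (n * Fintype.card (Om d T)) ^ k * z := hN2
        _ ≤ (4 * #{e : (Fin k → Fin n) × (Fin k → Om d T) × {z : (Fin k → A) → Bool //
          z ≠ fun _ => false} | ∀ s ∈ F, ¬ (walkGame G T).Inc s (e.1, e.2.1, e.2.2.1)}) * z :=
            Nat.mul_le_mul_right _ h1
        _ ≤ (4 * #{g ∈ (Finset.univ : Finset (Fin N)) | ∀ s ∈ F, incB G s g = false}) * z :=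
            Nat.mul_le_mul_right _ (Nat.mul_le_mul_left _ h2)
        _ = _ := by ring
    have hz0 : 0 < z := by
      rw [hz]
      have : Nonempty {z : (Fin k → A) → Bool // z ≠ fun _ => false} :=
        ⟨⟨fun _ => true, fun h => by
          have := congrFun h (fun _ => Classical.arbitrary A)
          simp at this⟩⟩
      exact Nat.card_pos
    by_contra hcon
    push Not at hcon
    have h4 : 4 * z * (#{g ∈ (Finset.univ : Finset (Fin N)) | ∀ s ∈ F, incB G s g = false} + 1) ≤
        4 * z * D := Nat.mul_le_mul_left _ hcon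
    rw [Nat.mul_add, Nat.mul_one] at h4
    omega
  have h5 := cost_ge (rowF_injective (k := k) (T := T) (d := d) (r := r) hx)
    (val := fun i y => bit (rowF x k T d r n y) i) (fun _ _ => rfl) (row_local hx)
    (X := itemsN k T d r A x) (fun v => mem_items hx v) (nodup_items hx) hD2 hrem hTr
  rw [Fintype.card_fin] at h5
  exact h5

end

/-- **The gap**, for suitable constants. -/
theorem gap_exists (A : Type) [Fintype A] [Nontrivial A] {d : ℕ} (hd : 0 < d) {lam η : ℝ}
    (hl0 : 0 ≤ lam) (hl1 : lam < 1) (hη0 : 0 < η) (hη1 : η ≤ 1) (t : ℕ) :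
    ∃ k T r n₀ : ℕ, 0 < r ∧ 0 < n₀ ∧ ∀ (n : ℕ) (x : GData A) (G : RG (Fin n) d A), n₀ ≤ n →
      Repr x G → G.Spec lam →
      0 < numP k T d A n ∧
      ((∃ σ : Fin n → A, ∀ i v, G.con i v (σ v) (σ (G.nb i v)) = true) →
        ∃ Tr : Tree, IsTree (testL k T d r A n).length (itemsN k T d r A x) Tr ∧
          cost (itemsN k T d r A x) Tr ≤ 2 * (n ^ k * numP k T d A n ^ r)) ∧
      (TwoGap G η → ∀ Tr : Tree, IsTree (testL k T d r A n).length (itemsN k T d r A x) Tr →
        t * (2 * (n ^ k * numP k T d A n ^ r)) < cost (itemsN k T d r A x) Tr) := by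
  classical
  set h : ℕ := 16 * (t + 1) with hh
  have hh0 : 0 < h := by omega
  have hhR : (0 : ℝ) < h := by exact_mod_cast hh0
  have hA2 : 2 ≤ Fintype.card A := Fintype.one_lt_card
  -- number of repetitions
  obtain ⟨k₁, hk₁⟩ := exists_pow_small (q := 1 - η) (c := 1 / (8 * (h : ℝ) ^ 2)) (by linarith)
    (by linarith) (by positivity)
  set k : ℕ := k₁ + h + 1 with hk
  have hk0 : 0 < k := by omega
  have hpow1 := hk₁ k (by omega)
  have hAk : h < Fintype.card A ^ k := by
    calc h < 2 ^ h := Nat.lt_two_pow_self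
      _ ≤ 2 ^ k := Nat.pow_le_pow_right (by norm_num) (by omega)
      _ ≤ Fintype.card A ^ k := Nat.pow_le_pow_left hA2 k
  -- length of the walks
  set B : ℝ := k * (Nat.card A : ℝ) ^ (2 * k) * 4 * (h : ℝ) ^ 2 with hB
  have hAc : (0 : ℝ) < Nat.card A := by
    rw [Nat.card_eq_fintype_card]
    exact_mod_cast (by omega : 0 < Fintype.card A)
  have hkR : (0 : ℝ) < k := by exact_mod_cast hk0
  have hB0 : 0 < B := by positivity
  obtain ⟨T, hT⟩ := exists_pow_small hl0 hl1 (show (0 : ℝ) < 1 / (8 * B) by positivity)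
  have hTT := hT T le_rfl
  have hp : Game.pval A η (4 * lam ^ T) k * (h : ℝ) ^ 2 ≤ 1 / 4 := by
    have h1 := Game.pval_le (A := A) hη0.le hη1 (show 0 ≤ 4 * lam ^ T by positivity) k
    have h2 : Game.pval A η (4 * lam ^ T) k * (h : ℝ) ^ 2 ≤
        ((1 - η) ^ k + k * (Nat.card A : ℝ) ^ (2 * k) * (4 * lam ^ T)) * (h : ℝ) ^ 2 :=
      mul_le_mul_of_nonneg_right h1 (by positivity)
    have h3 : (1 - η) ^ k * (h : ℝ) ^ 2 ≤ 1 / 8 := by
      have := mul_le_mul_of_nonneg_right hpow1 (show (0 : ℝ) ≤ (h : ℝ) ^ 2 by positivity)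
      refine this.trans (le_of_eq ?_)
      field_simp
    have h4 : B * lam ^ T ≤ 1 / 8 := by
      have := mul_le_mul_of_nonneg_left hTT hB0.le
      refine this.trans (le_of_eq ?_)
      field_simp
    have h5 : ((1 - η) ^ k + k * (Nat.card A : ℝ) ^ (2 * k) * (4 * lam ^ T)) * (h : ℝ) ^ 2 =
        (1 - η) ^ k * (h : ℝ) ^ 2 + B * lam ^ T := by rw [hB]; ring
    rw [h5] at h2
    linarith
  -- number of coordinates
  set z : ℕ := Nat.card {z : (Fin k → A) → Bool // z ≠ fun _ => false} with hz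
  have hz0 : 0 < z := by
    have : Nonempty {z : (Fin k → A) → Bool // z ≠ fun _ => false} :=
      ⟨⟨fun _ => true, fun h => by
        have := congrFun h (fun _ => Classical.arbitrary A)
        simp at this⟩⟩
    exact Nat.card_pos
  have hzR : (0 : ℝ) < z := by exact_mod_cast hz0
  obtain ⟨r₁, hr₁⟩ := exists_pow_small (q := 1 - 1 / (4 * (z : ℝ))) (c := 1 / 2) (by
      have : 1 / (4 * (z : ℝ)) ≤ 1 := by
        rw [div_le_one (by positivity)]
        have : (1 : ℝ) ≤ z := by exact_mod_cast hz0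
        linarith
      linarith) (by
      have : 0 < 1 / (4 * (z : ℝ)) := by positivity
      linarith) (by norm_num)
  set r : ℕ := r₁ + 1 with hr
  have hrr := hr₁ r (by omega)
  -- size of the graph
  obtain ⟨M₀, hM₀⟩ := exists_large r (Nat.card (Cst k T d A))
  set cC : ℕ := Nat.card (Cst k T d A) with hcC
  have hcC0 : 0 < cC := by
    have : Nonempty {z : (Fin k → A) → Bool // z ≠ fun _ => false} :=
      ⟨⟨fun _ => true, fun h => by
        have := congrFun h (fun _ => Classical.arbitrary A)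
        simp at this⟩⟩
    have : NeZero d := ⟨hd.ne'⟩
    exact Nat.card_pos
  refine ⟨k, T, r, M₀ + 8 * z, by omega, by omega, fun n x G hn hx hs => ?_⟩
  have hn0 : 0 < n := by omega
  have hnk : n ≤ n ^ k := Nat.le_self_pow hk0.ne' n
  set N := numP k T d A n with hN
  have hNdef : N = n ^ k * cC := rfl
  have hN0 : 0 < N := by rw [hNdef]; positivity
  have hlog : r * (1 + r + Nat.clog 2 N) ≤ n ^ k := hM₀ (n ^ k) (by omega)
  refine ⟨hN0, ?_, ?_⟩
  · rintro ⟨σ, hσ⟩
    obtain ⟨Tr, hTr, hc⟩ := yes_case (r := r) hx hn0 hN0 hσ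
    refine ⟨Tr, hTr, hc.trans ?_⟩
    rw [← hN]
    calc (n ^ k + r * (1 + r + Nat.clog 2 N)) * N ^ r ≤ (n ^ k + n ^ k) * N ^ r := by gcongr
      _ = _ := by ring
  · intro hG Tr hTr
    have hNz : 8 * z ≤ N := by
      rw [hNdef]
      calc 8 * z ≤ n ^ k := by omega
        _ ≤ n ^ k * cC := Nat.le_mul_of_pos_right _ hcC0
    -- the number of remaining points
    set D : ℕ := (N + (4 * z - 1)) / (4 * z) with hD
    have h4z : 0 < 4 * z := by omega
    have hDle : 4 * z * D ≤ N + (4 * z - 1) := Nat.mul_div_le _ _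
    have hDge : N ≤ 4 * z * D := by
      have := Nat.lt_mul_div_succ (N + (4 * z - 1)) h4z
      rw [← hD, Nat.mul_add, Nat.mul_one] at this
      omega
    have hD2 : 2 ≤ D := by
      rw [hD, Nat.le_div_iff_mul_le h4z]
      omega
    have h1 := no_case (L := 4 * (t + 1) * n ^ k) hx hn0 hd hl0 hs hη0.le hη1 hG hh0 hAk hp
      (by rw [hh]; ring_nf; exact le_rfl) hD2 hz hDle Tr hTr
    rw [← hN] at h1
    -- the points that are covered early
    have h2 : 2 * (N - D) ^ r ≤ N ^ r := by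
      have hDN : D ≤ N := by
        calc D ≤ 4 * z * D - (4 * z - 1) * 1 := by
              have : 4 * z * D = (4 * z - 1) * D + D := by
                have : 4 * z = (4 * z - 1) + 1 := by omega
                calc 4 * z * D = ((4 * z - 1) + 1) * D := by rw [← this]
                  _ = _ := by ring
              have h3 : (4 * z - 1) * 1 ≤ (4 * z - 1) * D := Nat.mul_le_mul_left _ (by omega)
              omega
          _ ≤ N := by omega
      have hcast : ((N - D : ℕ) : ℝ) ≤ (1 - 1 / (4 * (z : ℝ))) * N := by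
        rw [Nat.cast_sub hDN]
        have h3 : (N : ℝ) ≤ 4 * z * D := by exact_mod_cast hDge
        have h4 : (N : ℝ) / (4 * z) ≤ D := by
          rw [div_le_iff₀ (by positivity)]
          linarith
        have : (1 - 1 / (4 * (z : ℝ))) * N = N - N / (4 * z) := by ring
        rw [this]
        linarith
      have h5 : ((N - D : ℕ) : ℝ) ^ r ≤ 1 / 2 * (N : ℝ) ^ r := by
        calc ((N - D : ℕ) : ℝ) ^ r ≤ ((1 - 1 / (4 * (z : ℝ))) * N) ^ r :=
              pow_le_pow_left₀ (Nat.cast_nonneg _) hcast r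
          _ = (1 - 1 / (4 * (z : ℝ))) ^ r * (N : ℝ) ^ r := mul_pow _ _ _
          _ ≤ _ := mul_le_mul_of_nonneg_right hrr (by positivity)
      have h6 : ((2 * (N - D) ^ r : ℕ) : ℝ) ≤ ((N ^ r : ℕ) : ℝ) := by
        push_cast
        linarith
      exact_mod_cast h6
    have hP : 0 < n ^ k * N ^ r := by positivity
    have h3 : 4 * (t + 1) * n ^ k * (2 * (N - D) ^ r) ≤ 4 * (t + 1) * n ^ k * N ^ r :=
      Nat.mul_le_mul_left _ h2
    have e1 : 4 * (t + 1) * n ^ k * N ^ r = 4 * (t + 1) * (n ^ k * N ^ r) := by ring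
    have e2 : 4 * (t + 1) * n ^ k * (2 * (N - D) ^ r) = 2 * (4 * (t + 1) * n ^ k * (N - D) ^ r) := by
      ring
    rw [e1] at h1 h3
    rw [e2] at h3
    have e3 : 4 * (t + 1) * (n ^ k * N ^ r) = 2 * (t * (2 * (n ^ k * N ^ r))) +
        4 * (n ^ k * N ^ r) := by ring
    omega

end Pool.Agent.MP_2da4e2_lc
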