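import Pool.Agent.Lib.helper66.CookLevin

/-!
# There are only countably many polynomial-time functions
-/

set_option autoImplicit false

namespace Pool.Agent.MP_2da4e2_lc

open Turing Computability Function Pool.Agent.H66

/-- Transport of an action. -/
def mapAct {A B : Type} (g : A → B) : Act A → Act B
  | .keep => .keep
  | .push a => .push (g a)
  | .pop => .pop

theorem mapAct_app {A B : Type} (g : A → B) (x : Act A) (l : List A) :
    (mapAct g x).app (l.map g) = (x.app l).map g := by
  cases x with
  | keep => rfl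
  | push a => rfl
  | pop => simp only [mapAct, Act.app]; exact (List.map_tail ..).symm

section transport

variable {C K A C' K' A' : Type} (eC : C ≃ C') (eK : K ≃ K') (eA : A ≃ A')

/-- Transport of a stack machine. -/
def trSM (M : SM C K A) : SM C' K' A' where
  rd c := eK (M.rd (eC.symm c))
  nx c o := eC (M.nx (eC.symm c) (o.map eA.symm))
  ac c k := mapAct eA (M.ac (eC.symm c) (eK.symm k))

/-- Transport of a configuration. -/
def trC (s : C × (K → List A)) : C' × (K' → List A') :=
  (eC s.1, fun k => (s.2 (eK.symm k)).map eA)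

theorem tr_step (M : SM C K A) (s : C × (K → List A)) :
    (trSM eC eK eA M).step (trC eC eK eA s) = trC eC eK eA (M.step s) := by
  obtain ⟨c, S⟩ := s
  unfold SM.step trSM trC
  simp only [Equiv.symm_apply_apply, List.head?_map, Option.map_map]
  refine Prod.ext ?_ ?_
  · simp only
    congr 2
    cases (S (M.rd c)).head? with
    | none => rfl
    | some a => simp
  · funext k
    exact mapAct_app _ _ _

theorem tr_iter (M : SM C K A) (n : ℕ) (s : C × (K → List A)) :
    ((trSM eC eK eA M).step)^[n] (trC eC eK eA s) = trC eC eK eA ((M.step)^[n] s) := by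
  induction n with
  | zero => rfl
  | succ n ih => rw [iterate_succ_apply', iterate_succ_apply', ih, tr_step]

end transport

instance {A : Type} [Countable A] : Countable (Act A) := by
  let f : Act A → Option (Option A) := fun x => match x with
    | .keep => none
    | .push a => some (some a)
    | .pop => some none
  have hf : Function.Injective f := by
    intro x y h
    cases x <;> cases y <;> simp_all [f]
  exact hf.countable

/-- The codes of the machines. -/
abbrev Code : Type := Σ n : ℕ × ℕ × ℕ,
  ((Fin n.1 → Fin n.2.1) × (Fin n.1 → Option (Fin n.2.2) → Fin n.1) ×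
    (Fin n.1 → Fin n.2.1 → Act (Fin n.2.2))) ×
    (Fin n.1 × Fin n.2.1 × Fin n.2.1 × (Bool → Fin n.2.2) × (Fin n.2.2 → Bool))

/-- The stack machine of a code. -/
def Code.sm (c : Code) : SM (Fin c.1.1) (Fin c.1.2.1) (Fin c.1.2.2) :=
  ⟨c.2.1.1, c.2.1.2.1, c.2.1.2.2⟩

/-- The initial configuration of a code. -/
def Code.ini (c : Code) (w : List Bool) : Fin c.1.1 × (Fin c.1.2.1 → List (Fin c.1.2.2)) :=
  (c.2.2.1, fun k => if k = c.2.2.2.1 then w.map c.2.2.2.2.2.1 else [])

/-- The final output of a code. -/
def Code.Lim (c : Code) (w v : List Bool) : Prop :=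
  ∃ N, ∀ n ≥ N, (((c.sm.step)^[n] (c.ini w)).2 c.2.2.2.2.1).map c.2.2.2.2.2.2 = v

theorem Code.lim_unique (c : Code) (w v v' : List Bool) (h : c.Lim w v) (h' : c.Lim w v') :
    v = v' := by
  obtain ⟨N, hN⟩ := h
  obtain ⟨N', hN'⟩ := h'
  rw [← hN (max N N') (le_max_left _ _), ← hN' (max N N') (le_max_right _ _)]

theorem exists_code {α β : Type} (ea : α → List Bool) (eb : β → List Bool) (f : α → β)
    (hf : Nonempty (TM2ComputableInPolyTime ea eb f)) :
    ∃ c : Code, ∀ x, c.Lim (ea x) (eb (f x)) := by
  classical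
  obtain ⟨cmp⟩ := hf
  let tm := cmp.tm
  let _ : DecidableEq tm.K := tm.kDecidableEq
  let _ : Fintype tm.K := tm.kFin
  let _ : Fintype tm.Λ := tm.ΛFin
  let _ : Fintype tm.σ := tm.σFin
  let _ : Fintype (tm.Γ tm.k₀) := tm.Γk₀Fin
  have _ : Finite (usedS tm.m tm.k₀) := (usedS_finite tm.m tm.k₀).to_subtype
  obtain ⟨D, hD⟩ : ∃ D, ∀ l, msize (tm.m l) ≤ D :=
    ⟨∑ l, msize (tm.m l), fun l => Finset.single_le_sum (f := fun l => msize (tm.m l))
      (fun _ _ => Nat.zero_le _) (Finset.mem_univ l)⟩
  let c₀ : CC tm.m := (⟨some (tm.m tm.main), mem_stmts.2 ⟨_, TM2.stmts₁_self⟩⟩, tm.initialState)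
  let e : Bool → AA tm.m tm.k₀ := fun o => inj tm.m tm.k₀ tm.k₀ (cmp.inputAlphabet.symm o)
  let d : AA tm.m tm.k₀ → Bool := fun a =>
    ((out tm.m tm.k₀ tm.k₁ a).map cmp.outputAlphabet).getD false
  have _ : Finite (CC tm.m) := by
    have : Finite {o : Option (TM2.Stmt tm.Γ tm.Λ tm.σ) // o ∈ TM2.stmts tm.m Finset.univ} :=
      inferInstance
    infer_instance
  obtain ⟨nC, ⟨eC⟩⟩ := Finite.exists_equiv_fin (CC tm.m)
  obtain ⟨nK, ⟨eK⟩⟩ := Finite.exists_equiv_fin tm.K
  obtain ⟨nA, ⟨eA⟩⟩ := Finite.exists_equiv_fin (AA tm.m tm.k₀)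
  let M := toSM tm.m tm.k₀
  let M' := trSM eC eK eA M
  refine ⟨⟨(nC, nK, nA), (M'.rd, M'.nx, M'.ac),
    (eC c₀, eK tm.k₀, eK tm.k₁, fun b => eA (e b), fun a => d (eA.symm a))⟩, fun x => ?_⟩
  obtain ⟨⟨steps, hsteps⟩, hle⟩ := cmp.outputsFun x
  simp only at hle
  obtain ⟨n, hn', hmr⟩ := mstep_run tm.m tm.k₀ D hD steps _ _ hsteps
  refine ⟨n, fun N hN => ?_⟩
  obtain ⟨r, hr⟩ := Nat.exists_eq_add_of_le hN
  have hfinal : (mstep tm.m tm.k₀)^[N] (img tm.m (initList tm
      ((ea x).map cmp.inputAlphabet.invFun))) =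
      img tm.m (haltList tm ((eb (f x)).map cmp.outputAlphabet.invFun)) := by
    rw [hr, Nat.add_comm, iterate_add_apply, hmr]
    exact mstep_halted _ _ _ _ _
  let s₀ : CC tm.m × (tm.K → List (AA tm.m tm.k₀)) :=
    (c₀, fun k => if k = tm.k₀ then (ea x).map e else [])
  have hrel0 : Rel tm.m tm.k₀ (img tm.m (initList tm
      ((ea x).map cmp.inputAlphabet.invFun))) s₀ := by
    refine ⟨rfl, ?_, ?_⟩
    · intro k
      by_cases hk : k = tm.k₀
      · subst hk
        have h1 : (img tm.m (initList tm
            ((ea x).map cmp.inputAlphabet.invFun))).2 tm.k₀ =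
            (ea x).map cmp.inputAlphabet.invFun := by
          show (initList tm _).stk tm.k₀ = _
          unfold initList
          simp
        rw [h1, List.map_map]
        simp only [s₀, if_true]
        rfl
      · have h1 : (img tm.m (initList tm
            ((ea x).map cmp.inputAlphabet.invFun))).2 k = [] := by
          show (initList tm _).stk k = _
          unfold initList
          exact dif_neg hk
        rw [h1]
        simp [s₀, hk]
    · intro k z hz
      by_cases hk : k = tm.k₀
      · exact Or.inl hk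
      · have h1 : (img tm.m (initList tm
            ((ea x).map cmp.inputAlphabet.invFun))).2 k = [] := by
          show (initList tm _).stk k = _
          unfold initList
          exact dif_neg hk
        rw [h1] at hz
        simp at hz
  have hrelN := hrel0.iterate N
  rw [hfinal] at hrelN
  obtain ⟨_, hr2, hr3⟩ := hrelN
  have hstk : (img tm.m (haltList tm ((eb (f x)).map
      cmp.outputAlphabet.invFun))).2 tm.k₁ = (eb (f x)).map cmp.outputAlphabet.invFun := by
    show (haltList tm _).stk tm.k₁ = _
    unfold haltList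
    simp
  have h4 := hr2 tm.k₁
  have h5 := hr3 tm.k₁
  rw [hstk] at h4 h5
  have hini : trC eC eK eA s₀ = (eC c₀, fun k => if k = eK tm.k₀ then
      (ea x).map (fun b => eA (e b)) else []) := by
    unfold trC
    refine Prod.ext rfl ?_
    funext k
    simp only [s₀]
    by_cases hk : k = eK tm.k₀
    · subst hk
      simp
    · have hk' : eK.symm k ≠ tm.k₀ := by
        intro h
        apply hk
        rw [← h]
        simp
      simp [hk, hk']
  show ((((M'.step)^[N] (eC c₀, fun k => if k = eK tm.k₀ then
      (ea x).map (fun b => eA (e b)) else [])).2 (eK tm.k₁)).map fun a => d (eA.symm a)) = _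
  rw [← hini]
  rw [tr_iter]
  show (((((M.step)^[N] s₀).2 (eK.symm (eK tm.k₁))).map eA).map fun a => d (eA.symm a)) = _
  rw [Equiv.symm_apply_apply, h4, List.map_map, List.map_map, List.map_map]
  conv_rhs => rw [← List.map_id (eb (f x))]
  refine List.map_congr_left fun b hb => ?_
  have h6 := h5 (cmp.outputAlphabet.invFun b) (List.mem_map_of_mem hb)
  simp only [Function.comp_apply, Equiv.symm_apply_apply, id, d]
  rw [out_inj tm.m tm.k₀ tm.k₁ _ h6]
  simp

theorem countable_tm2 {α β : Type} (ea : α → List Bool) (eb : β → List Bool)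
    (hb : Function.Injective eb) :
    {f : α → β | Nonempty (TM2ComputableInPolyTime ea eb f)}.Countable := by
  classical
  have h : ∀ f : {f : α → β // Nonempty (TM2ComputableInPolyTime ea eb f)},
      ∃ c : Code, ∀ x, c.Lim (ea x) (eb (f.1 x)) := fun f => exists_code ea eb f.1 f.2
  choose g hg using h
  have hinj : Function.Injective g := by
    intro f f' hff
    apply Subtype.ext
    funext x
    apply hb
    refine Code.lim_unique (g f) (ea x) _ _ (hg f x) ?_
    rw [hff]
    exact hg f' x
  have : Countable {f : α → β // Nonempty (TM2ComputableInPolyTime ea eb f)} := hinj.countable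
  exact Set.countable_coe_iff.1 this

end Pool.Agent.MP_2da4e2_lc
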