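import Mathlib
import Pool.Agent.Lib.helper60.PNP

/-!
# Minimum-cost binary decision trees: definitions
-/

set_option autoImplicit false

namespace Pool.Agent.MP_2da4e2_lc

open Turing Computability Filter

/-- An instance of the decision tree problem: a nonempty list `X` of distinct items, each of them a
0/1-vector with `m` coordinates (a list of `m` bits). -/
structure Inst where
  /-- number of coordinates -/
  m : ℕ
  /-- the items -/
  X : List (List Bool)
  len : ∀ x ∈ X, x.length = m
  nodup : X.Nodup
  ne : X ≠ []

/-- The bit of the item `x` at the coordinate `k`. -/
def bit (x : List Bool) (k : ℕ) : Bool := x.getD k false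

/-- Rooted binary trees whose internal nodes hold a coordinate. -/
inductive Tree : Type
  | leaf : Tree
  | node (k : ℕ) (l r : Tree) : Tree

/-- `T` is a decision tree for the set `S` of items with `m` coordinates: the root holds `S`; a leaf
holds exactly one item; the coordinate `k` at an internal node is one of the `m` coordinates, its
left child holds the items whose `k`-th bit is 0 and its right child the items whose `k`-th bit
is 1. -/
def IsTree (m : ℕ) : List (List Bool) → Tree → Prop
  | S, .leaf => S.length = 1
  | S, .node k l r => k < m ∧ IsTree m (S.filter fun x => !bit x k) l ∧
      IsTree m (S.filter fun x => bit x k) r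

/-- The length of the path of the item `x` in the tree. -/
def depth (x : List Bool) : Tree → ℕ
  | .leaf => 0
  | .node k l r => 1 + if bit x k = true then depth x r else depth x l

/-- The cost of the tree for the items `S`: the sum of the lengths of their paths. -/
def cost (S : List (List Bool)) (T : Tree) : ℕ := (S.map fun x => depth x T).sum

/-! ### Codes, algorithms, approximation -/

/-- The code of an instance: each bit of an item is preceded by `true`, and the end of each item is
marked by `false`. -/
def Inst.encode (I : Inst) : List Bool :=
  I.X.flatMap fun x => (x.flatMap fun b => [true, b]) ++ [false]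

/-- The code of a tree: `false` for a leaf; `true`, the number of the coordinate in unary, and the
codes of both children for an internal node. -/
def Tree.encode : Tree → List Bool
  | .leaf => [false]
  | .node k l r => true :: (List.replicate k true ++ false :: (l.encode ++ r.encode))

/-- `A` is computed by a Turing machine in polynomial time. -/
def PolyTime (A : Inst → Tree) : Prop :=
  Nonempty (TM2ComputableInPolyTime Inst.encode Tree.encode A)

/-- `A` is an `α(n)`-approximation: on every instance with `n` items it outputs a decision tree of
cost at most `α(n)` times the cost of any decision tree (hence of an optimal one). -/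
def Approximates (α : ℕ → ℝ) (A : Inst → Tree) : Prop :=
  ∀ I : Inst, IsTree I.m I.X (A I) ∧
    ∀ T : Tree, IsTree I.m I.X T → (cost I.X (A I) : ℝ) ≤ α I.X.length * cost I.X T

/-- P is different from NP: some language over the alphabet of bits is in NP but not in P. -/
def PNeNP : Prop :=
  ∃ L : Set (List Bool), Lib.helper60.InNP L ∧ ¬ Lib.helper60.InP L

/-- It is NP-hard to approximate the minimum cost within the factor `t`: there is a bound `θ` (a
function of the number of items) such that every language `L` in NP is reduced in polynomial time
to instances which have a decision tree of cost at most `θ` if the word is in `L`, and on which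
every decision tree costs more than `t * θ` if it is not. -/
def NPHardWithin (t : ℕ) : Prop :=
  ∃ θ : ℕ → ℕ, ∀ L : Set (List Bool), Lib.helper60.InNP L → ∃ f : List Bool → Inst,
    Nonempty (TM2ComputableInPolyTime (fun w : List Bool => w) Inst.encode f) ∧
    ∀ w, (w ∈ L → ∃ T, IsTree (f w).m (f w).X T ∧ cost (f w).X T ≤ θ (f w).X.length) ∧
      (w ∉ L → ∀ T, IsTree (f w).m (f w).X T → t * θ (f w).X.length < cost (f w).X T)

end Pool.Agent.MP_2da4e2_lc
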