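import Mathlib

/-!
# Two-player games and their repetition
-/

set_option autoImplicit false

namespace Pool.Agent.MP_2da4e2_lc

open Finset

/-- A game: a base vertex `v` and a random string `o` are chosen; the left player sees `L o v`, the
right player sees `R o v`, both answer with labels, and only the letters `lft o` and `rgt o` of the
labels are checked. -/
structure Game (V Ω Λ A : Type) where
  L : Ω → V → V
  R : Ω → V → V
  lft : Ω → Λ → A
  rgt : Ω → Λ → A
  check : V → Ω → A → A → Bool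
  bijL : ∀ o, Function.Bijective (L o)
  bijR : ∀ o, Function.Bijective (R o)

namespace Game

variable {V Ω Λ A : Type} (g : Game V Ω Λ A)

/-- left questions of the repeated game -/
def LL {k : ℕ} (o : Fin k → Ω) (v : Fin k → V) : Fin k → V := fun j => g.L (o j) (v j)

/-- right questions of the repeated game -/
def RR {k : ℕ} (o : Fin k → Ω) (v : Fin k → V) : Fin k → V := fun j => g.R (o j) (v j)

/-- the repeated game is won -/
def Win {k : ℕ} (f h : (Fin k → V) → Fin k → Λ) (o : Fin k → Ω) (v : Fin k → V) : Prop :=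
  ∀ j, g.check (v j) (o j) (g.lft (o j) (f (g.LL o v) j)) (g.rgt (o j) (h (g.RR o v) j)) = true

/-- The property of fortified games: on each rectangle the game is won with probability at most
`1 - η`, up to the error `ε`. -/
def Fortified [Fintype V] [Fintype Ω] (η ε : ℝ) : Prop :=
  ∀ (S S' : V → Prop) (a b : V → Λ), by
    classical
    exact ((#{p : V × Ω | S (g.L p.2 p.1) ∧ S' (g.R p.2 p.1) ∧
      g.check p.1 p.2 (g.lft p.2 (a (g.L p.2 p.1))) (g.rgt p.2 (b (g.R p.2 p.1))) = true} : ℕ) : ℝ) ≤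
    (1 - η) * ((#{p : V × Ω | S (g.L p.2 p.1) ∧ S' (g.R p.2 p.1)} : ℕ) : ℝ) +
      ε * (Fintype.card V * Fintype.card Ω)

/-- the bound for the value of the repeated game -/
noncomputable def pval (A : Type) (η ε : ℝ) : ℕ → ℝ
  | 0 => 1
  | k + 1 => (1 - η) * pval A η ε k + (Nat.card A : ℝ) ^ (2 * k) * ε

lemma pval_nonneg {η ε : ℝ} (hη : η ≤ 1) (hε : 0 ≤ ε) (k : ℕ) : 0 ≤ pval A η ε k := by
  induction k with
  | zero => simp [pval]
  | succ k ih =>
    have : 0 ≤ 1 - η := by linarith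
    simp only [pval]
    positivity

lemma pval_le [Finite A] [Nonempty A] {η ε : ℝ} (h0 : 0 ≤ η) (hη : η ≤ 1) (hε : 0 ≤ ε) (k : ℕ) :
    pval A η ε k ≤ (1 - η) ^ k + k * (Nat.card A : ℝ) ^ (2 * k) * ε := by
  have hA : (1 : ℝ) ≤ Nat.card A := by exact_mod_cast Nat.card_pos
  induction k with
  | zero => simp [pval]
  | succ k ih =>
    have h1 : 0 ≤ 1 - η := by linarith
    have h2 : (Nat.card A : ℝ) ^ (2 * k) ≤ (Nat.card A : ℝ) ^ (2 * (k + 1)) :=
      pow_le_pow_right₀ hA (by omega)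
    simp only [pval]
    calc (1 - η) * pval A η ε k + (Nat.card A : ℝ) ^ (2 * k) * ε
        ≤ (1 - η) * ((1 - η) ^ k + k * (Nat.card A : ℝ) ^ (2 * k) * ε) +
          (Nat.card A : ℝ) ^ (2 * k) * ε := by gcongr
      _ ≤ (1 - η) ^ (k + 1) + (1 * (k * (Nat.card A : ℝ) ^ (2 * (k + 1)) * ε) +
          (Nat.card A : ℝ) ^ (2 * (k + 1)) * ε) := by
          rw [mul_add, pow_succ' (1 - η), add_assoc]
          gcongr
          linarith
      _ = _ := by push_cast; ring

variable [Fintype V] [Fintype Ω]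

lemma sum_cons {X : Type} [Fintype X] {k : ℕ} (F : (Fin (k + 1) → X) → ℝ) :
    ∑ x, F x = ∑ a : X, ∑ x : Fin k → X, F (Fin.cons a x : Fin (k + 1) → X) := by
  rw [← Fintype.sum_prod_type' (f := fun (a : X) (x : Fin k → X) => F (Fin.cons a x))]
  exact (Equiv.sum_comp (Fin.consEquiv (fun _ : Fin (k + 1) => X)) F).symm

open Classical in
/-- indicator -/
noncomputable def ind (p : Prop) : ℝ := if p then 1 else 0

lemma ind_nonneg (p : Prop) : 0 ≤ ind p := by unfold ind; split_ifs <;> norm_num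

lemma ind_le_one (p : Prop) : ind p ≤ 1 := by unfold ind; split_ifs <;> norm_num

lemma ind_and (p q : Prop) : ind (p ∧ q) = ind p * ind q := by
  unfold ind
  by_cases hp : p <;> by_cases hq : q <;> simp [hp, hq]

lemma ind_le_ind {p q : Prop} (h : p → q) : ind p ≤ ind q := by
  unfold ind
  by_cases hp : p
  · rw [if_pos hp, if_pos (h hp)]
  · rw [if_neg hp]; split_ifs <;> norm_num

lemma card_filter_ind {X : Type} [Fintype X] (p : X → Prop) [DecidablePred p] :
    ((#{x | p x} : ℕ) : ℝ) = ∑ x, ind (p x) := by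
  rw [Finset.card_filter]
  push_cast
  refine Finset.sum_congr rfl fun x _ => ?_
  unfold ind
  split_ifs <;> rfl

lemma Fortified.sum {η ε : ℝ} (hg : g.Fortified η ε) (S S' : V → Prop) (a b : V → Λ) :
    ∑ v : V, ∑ o : Ω, ind (S (g.L o v) ∧ S' (g.R o v) ∧
      g.check v o (g.lft o (a (g.L o v))) (g.rgt o (b (g.R o v))) = true) ≤
    (1 - η) * (∑ v : V, ∑ o : Ω, ind (S (g.L o v) ∧ S' (g.R o v))) +
      ε * (Fintype.card V * Fintype.card Ω) := by
  classical
  have h := hg S S' a b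
  rw [card_filter_ind, card_filter_ind, Fintype.sum_prod_type, Fintype.sum_prod_type] at h
  exact h

/-- **Repetition** of fortified games. -/
theorem repetition [Fintype A] [Nonempty A] {η ε : ℝ} (hη : η ≤ 1) (hε : 0 ≤ ε)
    (hg : g.Fortified η ε) : ∀ (k : ℕ) (f h : (Fin k → V) → Fin k → Λ),
    ∑ v : Fin k → V, ∑ o : Fin k → Ω, ind (g.Win f h o v) ≤
      pval A η ε k * (Fintype.card V * Fintype.card Ω : ℝ) ^ k
  | 0, f, h => by
    simp only [pval, one_mul, pow_zero, Finset.univ_unique, Finset.sum_singleton]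
    exact ind_le_one _
  | k + 1, f, h => by
    classical
    set N : ℝ := (Fintype.card V * Fintype.card Ω : ℝ) with hN
    have hN0 : 0 ≤ N := by positivity
    have hη' : 0 ≤ 1 - η := by linarith
    -- the letters answered in the last `k` coordinates, as functions of the first question
    let α : (Fin k → V) → (Fin k → Ω) → V → Fin k → A := fun v o y j =>
      g.lft (o j) (f (Fin.cons y (g.LL o v) : Fin (k + 1) → V) j.succ)
    let β : (Fin k → V) → (Fin k → Ω) → V → Fin k → A := fun v o y j =>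
      g.rgt (o j) (h (Fin.cons y (g.RR o v) : Fin (k + 1) → V) j.succ)
    let tail : (Fin k → V) → (Fin k → Ω) → (Fin k → A) → (Fin k → A) → Prop := fun v o x y =>
      ∀ j, g.check (v j) (o j) (x j) (y j) = true
    let a : (Fin k → V) → (Fin k → Ω) → V → Λ := fun v o y =>
      f (Fin.cons y (g.LL o v) : Fin (k + 1) → V) 0
    let b : (Fin k → V) → (Fin k → Ω) → V → Λ := fun v o y =>
      h (Fin.cons y (g.RR o v) : Fin (k + 1) → V) 0
    have hwin : ∀ (v₀ : V) (o₀ : Ω) (v : Fin k → V) (o : Fin k → Ω),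
        g.Win f h (Fin.cons o₀ o : Fin (k + 1) → Ω) (Fin.cons v₀ v : Fin (k + 1) → V) ↔
          (g.check v₀ o₀ (g.lft o₀ (a v o (g.L o₀ v₀))) (g.rgt o₀ (b v o (g.R o₀ v₀))) = true ∧
            tail v o (α v o (g.L o₀ v₀)) (β v o (g.R o₀ v₀))) := by
      intro v₀ o₀ v o
      have e1 : g.LL (Fin.cons o₀ o : Fin (k + 1) → Ω) (Fin.cons v₀ v : Fin (k + 1) → V) =
          (Fin.cons (g.L o₀ v₀) (g.LL o v) : Fin (k + 1) → V) := by
        funext j
        refine Fin.cases ?_ (fun j => ?_) j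
        · simp [LL]
        · simp [LL]
      have e2 : g.RR (Fin.cons o₀ o : Fin (k + 1) → Ω) (Fin.cons v₀ v : Fin (k + 1) → V) =
          (Fin.cons (g.R o₀ v₀) (g.RR o v) : Fin (k + 1) → V) := by
        funext j
        refine Fin.cases ?_ (fun j => ?_) j
        · simp [RR]
        · simp [RR]
      unfold Win
      rw [e1, e2, Fin.forall_fin_succ]
      simp only [Fin.cons_zero, Fin.cons_succ]
      exact Iff.rfl
    -- step 1: for a fixed tail
    have step1 : ∀ (v : Fin k → V) (o : Fin k → Ω),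
        ∑ v₀ : V, ∑ o₀ : Ω, ind (g.Win f h (Fin.cons o₀ o : Fin (k + 1) → Ω)
          (Fin.cons v₀ v : Fin (k + 1) → V)) ≤
        (1 - η) * (∑ v₀ : V, ∑ o₀ : Ω, ind (tail v o (α v o (g.L o₀ v₀)) (β v o (g.R o₀ v₀)))) +
          (Nat.card A : ℝ) ^ (2 * k) * (ε * N) := by
      intro v o
      have e1 : ∀ (v₀ : V) (o₀ : Ω), ind (g.Win f h (Fin.cons o₀ o : Fin (k + 1) → Ω)
          (Fin.cons v₀ v : Fin (k + 1) → V)) =
          ∑ p : (Fin k → A) × (Fin k → A), ind (tail v o p.1 p.2) *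
            ind (α v o (g.L o₀ v₀) = p.1 ∧ β v o (g.R o₀ v₀) = p.2 ∧
              g.check v₀ o₀ (g.lft o₀ (a v o (g.L o₀ v₀))) (g.rgt o₀ (b v o (g.R o₀ v₀))) = true) := by
        intro v₀ o₀
        rw [Finset.sum_eq_single (α v o (g.L o₀ v₀), β v o (g.R o₀ v₀))]
        · rw [← ind_and]
          unfold ind
          congr 1
          rw [hwin]
          refine propext ⟨fun h => ⟨h.2, rfl, rfl, h.1⟩, fun h => ⟨h.2.2.2, h.1⟩⟩
        · intro p _ hp
          have : ¬ (α v o (g.L o₀ v₀) = p.1 ∧ β v o (g.R o₀ v₀) = p.2 ∧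
              g.check v₀ o₀ (g.lft o₀ (a v o (g.L o₀ v₀))) (g.rgt o₀ (b v o (g.R o₀ v₀))) = true) := by
            rintro ⟨h1, h2, _⟩
            exact hp (Prod.ext h1.symm h2.symm)
          unfold ind
          rw [if_neg this, mul_zero]
        · intro h
          exact absurd (Finset.mem_univ _) h
      have e2 : ∀ (v₀ : V) (o₀ : Ω), ind (tail v o (α v o (g.L o₀ v₀)) (β v o (g.R o₀ v₀))) =
          ∑ p : (Fin k → A) × (Fin k → A), ind (tail v o p.1 p.2) *
            ind (α v o (g.L o₀ v₀) = p.1 ∧ β v o (g.R o₀ v₀) = p.2) := by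
        intro v₀ o₀
        rw [Finset.sum_eq_single (α v o (g.L o₀ v₀), β v o (g.R o₀ v₀))]
        · have : ind (α v o (g.L o₀ v₀) = α v o (g.L o₀ v₀) ∧
              β v o (g.R o₀ v₀) = β v o (g.R o₀ v₀)) = 1 := by
            unfold ind
            rw [if_pos ⟨rfl, rfl⟩]
          rw [this, mul_one]
        · intro p _ hp
          have : ¬ (α v o (g.L o₀ v₀) = p.1 ∧ β v o (g.R o₀ v₀) = p.2) := by
            rintro ⟨h1, h2⟩
            exact hp (Prod.ext h1.symm h2.symm)
          unfold ind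
          rw [if_neg this, mul_zero]
        · intro h
          exact absurd (Finset.mem_univ _) h
      simp only [e1, e2]
      have swap : ∀ F : (Fin k → A) × (Fin k → A) → V → Ω → ℝ,
          ∑ v₀ : V, ∑ o₀ : Ω, ∑ p : (Fin k → A) × (Fin k → A), F p v₀ o₀ =
            ∑ p : (Fin k → A) × (Fin k → A), ∑ v₀ : V, ∑ o₀ : Ω, F p v₀ o₀ := by
        intro F
        calc ∑ v₀ : V, ∑ o₀ : Ω, ∑ p : (Fin k → A) × (Fin k → A), F p v₀ o₀
            = ∑ v₀ : V, ∑ p : (Fin k → A) × (Fin k → A), ∑ o₀ : Ω, F p v₀ o₀ :=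
              Finset.sum_congr rfl fun _ _ => Finset.sum_comm
          _ = _ := Finset.sum_comm
      rw [swap, swap]
      simp only [← Finset.mul_sum]
      have hp : ∀ p : (Fin k → A) × (Fin k → A), ind (tail v o p.1 p.2) *
          (∑ v₀ : V, ∑ o₀ : Ω, ind (α v o (g.L o₀ v₀) = p.1 ∧ β v o (g.R o₀ v₀) = p.2 ∧
            g.check v₀ o₀ (g.lft o₀ (a v o (g.L o₀ v₀))) (g.rgt o₀ (b v o (g.R o₀ v₀))) = true)) ≤
          (1 - η) * (ind (tail v o p.1 p.2) *
            (∑ v₀ : V, ∑ o₀ : Ω, ind (α v o (g.L o₀ v₀) = p.1 ∧ β v o (g.R o₀ v₀) = p.2))) + ε * N := by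
        intro p
        have h1 := Fortified.sum g hg (fun y => α v o y = p.1) (fun y => β v o y = p.2)
          (a v o) (b v o)
        have h2 := ind_nonneg (tail v o p.1 p.2)
        have h3 := ind_le_one (tail v o p.1 p.2)
        have h4 := mul_le_mul_of_nonneg_left h1 h2
        have h5 : ind (tail v o p.1 p.2) * (ε * N) ≤ ε * N := by
          have : 0 ≤ ε * N := by positivity
          nlinarith
        rw [← hN] at h4
        refine h4.trans ?_
        rw [mul_add]
        refine add_le_add (le_of_eq (by ring)) h5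
      refine (Finset.sum_le_sum fun p _ => hp p).trans (le_of_eq ?_)
      rw [Finset.sum_add_distrib, ← Finset.mul_sum, Finset.sum_const, Finset.card_univ]
      congr 1
      rw [nsmul_eq_mul]
      congr 1
      rw [Fintype.card_prod, Fintype.card_fun, Fintype.card_fin, Nat.card_eq_fintype_card]
      push_cast
      ring
    -- step 2: the tails
    have step2 : ∀ (v₀ : V) (o₀ : Ω), ∑ v : Fin k → V, ∑ o : Fin k → Ω,
        ind (tail v o (α v o (g.L o₀ v₀)) (β v o (g.R o₀ v₀))) ≤ pval A η ε k * N ^ k := by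
      intro v₀ o₀
      exact repetition hη hε hg k
        (fun w j => f (Fin.cons (g.L o₀ v₀) w : Fin (k + 1) → V) j.succ)
        (fun w j => h (Fin.cons (g.R o₀ v₀) w : Fin (k + 1) → V) j.succ)
    -- assembly
    have e1 : ∑ v : Fin (k + 1) → V, ∑ o : Fin (k + 1) → Ω, ind (g.Win f h o v) =
        ∑ v : Fin k → V, ∑ o : Fin k → Ω, ∑ v₀ : V, ∑ o₀ : Ω,
          ind (g.Win f h (Fin.cons o₀ o : Fin (k + 1) → Ω) (Fin.cons v₀ v : Fin (k + 1) → V)) := by
      rw [sum_cons]
      simp only [sum_cons (X := Ω)]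
      rw [Finset.sum_comm]
      refine Finset.sum_congr rfl fun v _ => ?_
      rw [show (∑ x : V, ∑ a : Ω, ∑ x_1 : Fin k → Ω, ind (g.Win f h (Fin.cons a x_1 : Fin (k + 1) → Ω)
        (Fin.cons x v : Fin (k + 1) → V))) = ∑ x : V, ∑ x_1 : Fin k → Ω, ∑ a : Ω,
          ind (g.Win f h (Fin.cons a x_1 : Fin (k + 1) → Ω) (Fin.cons x v : Fin (k + 1) → V)) from
        Finset.sum_congr rfl fun x _ => Finset.sum_comm]
      exact Finset.sum_comm
    rw [e1]
    have e2 : ∑ v : Fin k → V, ∑ o : Fin k → Ω, ∑ v₀ : V, ∑ o₀ : Ω,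
        ind (tail v o (α v o (g.L o₀ v₀)) (β v o (g.R o₀ v₀))) =
        ∑ v₀ : V, ∑ o₀ : Ω, ∑ v : Fin k → V, ∑ o : Fin k → Ω,
          ind (tail v o (α v o (g.L o₀ v₀)) (β v o (g.R o₀ v₀))) := by
      set F : (Fin k → V) → (Fin k → Ω) → V → Ω → ℝ := fun v o v₀ o₀ =>
        ind (tail v o (α v o (g.L o₀ v₀)) (β v o (g.R o₀ v₀)))
      calc ∑ v : Fin k → V, ∑ o : Fin k → Ω, ∑ v₀ : V, ∑ o₀ : Ω, F v o v₀ o₀
          = ∑ v : Fin k → V, ∑ v₀ : V, ∑ o : Fin k → Ω, ∑ o₀ : Ω, F v o v₀ o₀ :=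
            Finset.sum_congr rfl fun _ _ => Finset.sum_comm
        _ = ∑ v₀ : V, ∑ v : Fin k → V, ∑ o : Fin k → Ω, ∑ o₀ : Ω, F v o v₀ o₀ := Finset.sum_comm
        _ = ∑ v₀ : V, ∑ v : Fin k → V, ∑ o₀ : Ω, ∑ o : Fin k → Ω, F v o v₀ o₀ :=
            Finset.sum_congr rfl fun _ _ => Finset.sum_congr rfl fun _ _ => Finset.sum_comm
        _ = _ := Finset.sum_congr rfl fun _ _ => Finset.sum_comm
    calc ∑ v : Fin k → V, ∑ o : Fin k → Ω, ∑ v₀ : V, ∑ o₀ : Ω,
          ind (g.Win f h (Fin.cons o₀ o : Fin (k + 1) → Ω) (Fin.cons v₀ v : Fin (k + 1) → V))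
        ≤ ∑ v : Fin k → V, ∑ o : Fin k → Ω, ((1 - η) * (∑ v₀ : V, ∑ o₀ : Ω,
            ind (tail v o (α v o (g.L o₀ v₀)) (β v o (g.R o₀ v₀)))) +
              (Nat.card A : ℝ) ^ (2 * k) * (ε * N)) :=
          Finset.sum_le_sum fun v _ => Finset.sum_le_sum fun o _ => step1 v o
      _ = (1 - η) * (∑ v₀ : V, ∑ o₀ : Ω, ∑ v : Fin k → V, ∑ o : Fin k → Ω,
            ind (tail v o (α v o (g.L o₀ v₀)) (β v o (g.R o₀ v₀)))) +
              N ^ k * ((Nat.card A : ℝ) ^ (2 * k) * (ε * N)) := by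
          rw [← e2]
          simp only [Finset.sum_add_distrib, ← Finset.mul_sum, Finset.sum_const, Finset.card_univ,
            nsmul_eq_mul]
          congr 1
          rw [Fintype.card_fun, Fintype.card_fun, Fintype.card_fin, hN, mul_pow]
          push_cast
          ring
      _ ≤ (1 - η) * (∑ v₀ : V, ∑ o₀ : Ω, pval A η ε k * N ^ k) +
              N ^ k * ((Nat.card A : ℝ) ^ (2 * k) * (ε * N)) := by
          gcongr with v₀ _ o₀ _
          exact step2 v₀ o₀
      _ = pval A η ε (k + 1) * N ^ (k + 1) := by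
          simp only [Finset.sum_const, Finset.card_univ, nsmul_eq_mul, pval]
          rw [← mul_assoc (Fintype.card V : ℝ), ← hN]
          ring

end Game

end Pool.Agent.MP_2da4e2_lc
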