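import Pool.Agent.MP_2da4e2_lc.Red
import Pool.Agent.Lib.PCP.PTPow

/-!
# The construction is polynomial-time
-/

set_option autoImplicit false

namespace Pool.Agent.MP_2da4e2_lc

open Pool.Agent.Lib.PCP Pool.Agent.Lib.helper60

section

variable {ι : Type} [DEnc ι]

lemma PT_allConst {κ : Type} (L : List κ) {g : κ → ι → Bool} (hg : ∀ l ∈ L, PT (g l)) :
    PT (fun x => L.all (fun l => g l x)) := by
  induction L with
  | nil => exact PT.const true
  | cons l L ih =>
    simp only [List.all_cons]
    exact PT.band (hg l List.mem_cons_self) (ih fun l' hl' => hg l' (List.mem_cons_of_mem _ hl'))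

lemma PT_anyConst {κ : Type} (L : List κ) {g : κ → ι → Bool} (hg : ∀ l ∈ L, PT (g l)) :
    PT (fun x => L.any (fun l => g l x)) := by
  induction L with
  | nil => exact PT.const false
  | cons l L ih =>
    simp only [List.any_cons]
    exact PT.bor (hg l List.mem_cons_self) (ih fun l' hl' => hg l' (List.mem_cons_of_mem _ hl'))

lemma PT_pow {f : ι → ℕ} (hf : PT f) : ∀ k : ℕ, PT (fun x => f x ^ k)
  | 0 => by
    simp only [pow_zero]
    exact PT.const 1
  | k + 1 => by
    simp only [pow_succ]
    exact PT.nmul (PT_pow hf k) hf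

variable {k T d r : ℕ} {A : Type} [Finite A]

lemma PT_incC {tab : ι → List (ℕ × Con A)} (ht : PT tab) {w v : Fin k → ι → ℕ}
    (hw : ∀ j, PT (w j)) (hv : ∀ j, PT (v j)) (lam : Fin k → Lam d T A) (c : Cst k T d A) :
    PT (fun x => incC (tab x) (fun j => w j x) lam c (fun j => v j x)) := by
  unfold incC
  refine PT.bor (PT.band ?_ ?_) (PT.band ?_ (PT.const _))
  · exact PT_allConst (List.finRange k)
      (g := fun j x => decide (wendL (tab x) (v j x) (List.ofFn (c.1 j).1) = w j x))
      (fun j _ => PT.neq (PTPow_wend ht _ (hv j)) (hw j))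
  · refine PT_anyConst (allOf (Fin k → A)) (g := fun b x => (!(c.2.1 b)) &&
      (List.finRange k).all (fun j =>
        (ent d (tab x) (v j x) (c.1 j).2.1).2 (lam j (c.1 j).1) (b j))) (fun b _ => ?_)
    refine PT.band (PT.const _) (PT_allConst (List.finRange k)
      (g := fun j x => (ent d (tab x) (v j x) (c.1 j).2.1).2 (lam j (c.1 j).1) (b j))
      (fun j _ => ?_))
    exact (PT.fin1 (fun C : Con A => C (lam j (c.1 j).1) (b j))).comp
      (PT.p2 (PTPow_ent ht (hv j) (c.1 j).2.1))
  · exact PT_allConst (List.finRange k)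
      (g := fun j x => decide (wendL (tab x) (ent d (tab x) (v j x) (c.1 j).2.1).1
        (List.ofFn (c.1 j).2.2) = w j x))
      (fun j _ => PT.neq (PTPow_wend ht _ (PT.p1 (PTPow_ent ht (hv j) _))) (hw j))

lemma PT_numP {n : ι → ℕ} (hn : PT n) : PT (fun x => numP k T d A (n x)) := by
  unfold numP
  exact PT.nmul (PT_pow hn k) (PT.const _)

lemma PT_incN {n : ι → ℕ} (hn : PT n) {tab : ι → List (ℕ × Con A)} (ht : PT tab) {W g : ι → ℕ}
    (hW : PT W) (hg : PT g) (lam : Fin k → Lam d T A) :
    PT (fun x => incN (n x) (tab x) (W x) lam (g x)) := by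
  unfold incN
  refine PT.getD ?_ (PT.nmod hg (PT.const _)) (PT.const _)
  refine PT.mapConst (allOf (Cst k T d A)) (g := fun c x => incC (tab x)
    (fun j => W x / n x ^ j.val % n x) lam c
    (fun j => g x / Nat.card (Cst k T d A) / n x ^ j.val % n x)) (fun c _ => ?_)
  exact PT_incC ht (fun j => PT.nmod (PT.ndiv hW (PT_pow hn j.val)) hn)
    (fun j => PT.nmod (PT.ndiv (PT.ndiv hg (PT.const _)) (PT_pow hn j.val)) hn) lam c

lemma PT_valN {n : ι → ℕ} (hn : PT n) {tab : ι → List (ℕ × Con A)} (ht : PT tab) {W θ : ι → ℕ}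
    (hW : PT W) (hθ : PT θ) {g : Fin r → ι → ℕ} (hg : ∀ j, PT (g j)) (lam : Fin k → Lam d T A)
    (J : Finset (Fin r)) :
    PT (fun x => valN (n x) (tab x) (W x, lam, J, θ x) (fun j => g j x)) := by
  unfold valN
  exact PT_anyConst (List.finRange r) (g := fun j x => decide (j ∈ J) &&
    (incN (n x) (tab x) (W x) lam (g j x) && decide (g j x < θ x)))
    (fun j _ => PT.band (PT.const _) (PT.band (PT_incN hn ht hW (hg j) lam) (PT.nlt (hg j) hθ)))

lemma rowN_eq (n : ℕ) (tab : List (ℕ × Con A)) (X : ℕ) : rowN k T d r A n tab X =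
    (List.range (n ^ k)).flatMap (fun W => (allOf (Fin k → Lam d T A)).flatMap (fun lam =>
      (allOf (Finset (Fin r))).flatMap (fun J => (List.range (numP k T d A n + 1)).map (fun θ =>
        valN n tab (W, lam, J, θ)
          (fun j => X / numP k T d A n ^ j.val % numP k T d A n))))) := by
  unfold rowN testL
  simp only [List.map_flatMap, List.map_map]
  rfl

lemma PT_rowN {n : ι → ℕ} (hn : PT n) {tab : ι → List (ℕ × Con A)} (ht : PT tab) {X : ι → ℕ}
    (hX : PT X) : PT (fun x => rowN k T d r A (n x) (tab x) (X x)) := by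
  simp only [rowN_eq]
  have hN : PT (fun x => numP k T d A (n x)) := PT_numP hn
  refine PT.flatMap (l := fun x => List.range (n x ^ k)) (g := fun y : ι × ℕ =>
    (allOf (Fin k → Lam d T A)).flatMap (fun lam =>
      (allOf (Finset (Fin r))).flatMap (fun J => (List.range (numP k T d A (n y.1) + 1)).map (fun θ =>
        valN (n y.1) (tab y.1) (y.2, lam, J, θ)
          (fun j => X y.1 / numP k T d A (n y.1) ^ j.val % numP k T d A (n y.1))))))
    (PT.range (PT_pow hn k)) ?_
  refine PT.flatMapConst (allOf (Fin k → Lam d T A)) (g := fun lam (y : ι × ℕ) =>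
      (allOf (Finset (Fin r))).flatMap (fun J => (List.range (numP k T d A (n y.1) + 1)).map (fun θ =>
        valN (n y.1) (tab y.1) (y.2, lam, J, θ)
          (fun j => X y.1 / numP k T d A (n y.1) ^ j.val % numP k T d A (n y.1))))) (fun lam _ => ?_)
  refine PT.flatMapConst (allOf (Finset (Fin r))) (g := fun J (y : ι × ℕ) =>
      (List.range (numP k T d A (n y.1) + 1)).map (fun θ =>
        valN (n y.1) (tab y.1) (y.2, lam, J, θ)
          (fun j => X y.1 / numP k T d A (n y.1) ^ j.val % numP k T d A (n y.1)))) (fun J _ => ?_)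
  refine PT.map (l := fun y : ι × ℕ => List.range (numP k T d A (n y.1) + 1))
    (g := fun y : (ι × ℕ) × ℕ => valN (n y.1.1) (tab y.1.1) (y.1.2, lam, J, y.2)
          (fun j => X y.1.1 / numP k T d A (n y.1.1) ^ j.val % numP k T d A (n y.1.1)))
    (PT.range (PT.nsucc (hN.comp PT.fst))) ?_
  have f1 : PT (fun y : (ι × ℕ) × ℕ => y.1.1) := PT.fst.comp PT.fst
  exact PT_valN (hn.comp f1) (ht.comp f1) (PT.snd.comp PT.fst) PT.snd
    (g := fun j (y : (ι × ℕ) × ℕ) => X y.1.1 / numP k T d A (n y.1.1) ^ j.val %
      numP k T d A (n y.1.1))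
    (fun j => PT.nmod (PT.ndiv (hX.comp f1) (PT_pow (hN.comp f1) j.val)) (hN.comp f1)) lam J

/-- **The items are computed in polynomial time.** -/
theorem PT_itemsN (k T d r : ℕ) : PT (itemsN k T d r A : GData A → List (List Bool)) := by
  unfold itemsN
  have h1 : PT (fun x : GData A => x.1) := PT.fst
  refine PT.map (l := fun x : GData A => List.range (numP k T d A x.1 ^ r))
    (g := fun y : GData A × ℕ => rowN k T d r A y.1.1 y.1.2 y.2)
    (PT.range (PT_pow (PT_numP h1) r)) ?_
  exact PT_rowN (PT.p1 PT.fst) (PT.p2 PT.fst) PT.snd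

/-- the code of a list of items -/
def encItems (X : List (List Bool)) : List Bool :=
  X.flatMap fun x => (x.flatMap fun b => [true, b]) ++ [false]

lemma PT_encItems : PT encItems := by
  unfold encItems
  refine PT.flatMap (l := fun X : List (List Bool) => X)
    (g := fun y : List (List Bool) × List Bool => (y.2.flatMap fun b => [true, b]) ++ [false])
    PT.id ?_
  refine PT.append ?_ (PT.const _)
  refine PT.flatMap (l := fun y : List (List Bool) × List Bool => y.2)
    (g := fun y : (List (List Bool) × List Bool) × Bool => [true, y.2]) PT.snd ?_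
  exact PT.cons (PT.const _) (PT.cons PT.snd (PT.const _))

end

/-! ### the lazy graph -/

/-- the data of the lazy graph -/
noncomputable def lazyData {A : Type} [DecidableEq A] (d : ℕ) (x : GData A) : GData A :=
  (x.1, (List.range x.1).flatMap (fun v =>
    (v, fun a b => decide (a = b)) :: (List.finRange d).map (fun i => ent d x.2 v i)))

lemma PT_lazyData {A : Type} [Finite A] [DecidableEq A] (d : ℕ) :
    PT (lazyData d : GData A → GData A) := by
  unfold lazyData
  have h1 : PT (fun x : GData A => x.1) := PT.fst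
  refine PT.pair h1 ?_
  refine PT.flatMap (l := fun x : GData A => List.range x.1) (g := fun y : GData A × ℕ =>
    ((y.2, fun a b => decide (a = b)) : ℕ × Con A) ::
      (List.finRange d).map (fun i => ent d y.1.2 y.2 i)) (PT.range h1) ?_
  refine PT.cons (PT.pair PT.snd (PT.const _)) ?_
  exact PT.mapConst (List.finRange d) (g := fun i (y : GData A × ℕ) => ent d y.1.2 y.2 i)
    (fun i _ => PTPow_ent (PT.p2 PT.fst) PT.snd i)

lemma getElem?_flatMap_const {α β : Type} {m : ℕ} {f : α → List β} : ∀ (L : List α),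
    (∀ a ∈ L, (f a).length = m) → ∀ (i j : ℕ), j < m →
      (L.flatMap f)[i * m + j]? = (L[i]?).bind (fun a => (f a)[j]?)
  | [], _, i, j, _ => by simp
  | a :: L, h, 0, j, hj => by
    have h1 : (f a).length = m := h a List.mem_cons_self
    rw [List.flatMap_cons, Nat.zero_mul, Nat.zero_add, List.getElem?_append_left (by omega)]
    rfl
  | a :: L, h, i + 1, j, hj => by
    have h1 : (f a).length = m := h a List.mem_cons_self
    have e : (i + 1) * m + j = m + (i * m + j) := by ring
    rw [List.flatMap_cons, e, List.getElem?_append_right (by omega), h1, Nat.add_sub_cancel_left,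
      getElem?_flatMap_const L (fun a ha => h a (List.mem_cons_of_mem _ ha)) i j hj]
    rfl

lemma repr_lazy {A : Type} [DecidableEq A] {n d : ℕ} {x : GData A} {G : RG (Fin n) d A}
    (hx : Repr x G) : Repr (lazyData d x) (lazyG G) := by
  refine ⟨hx.1, ?_⟩
  intro v i
  unfold lazyData
  simp only
  rw [getElem?_flatMap_const (m := d + 1) (List.range x.1) (fun a _ => by simp) v.val i.val i.isLt]
  rw [hx.1, List.getElem?_range v.isLt]
  simp only [Option.bind_some]
  refine Fin.cases ?_ (fun i => ?_) i
  · simp [lazyG]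
  · simp only [Fin.val_succ, List.getElem?_cons_succ, List.getElem?_map]
    rw [List.getElem?_eq_getElem (by simp), List.getElem_finRange]
    simp only [Option.map_some]
    congr 1
    have := powI_ent G x hx v i
    simpa [lazyG] using this

end Pool.Agent.MP_2da4e2_lc
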