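import Pool.Agent.Lib.PCP.Final
import Pool.Agent.MP_2da4e2_lc.RedPT

/-!
# The PCP theorem, for binary constraints; large instances
-/

set_option autoImplicit false

namespace Pool.Agent.MP_2da4e2_lc

open Pool.Agent.Lib.helper60 Pool.Agent.Lib.PCP
open Pool.Agent.H66 (Cl Sat3)

/-- The PCP theorem, as a statement about binary constraints over the alphabet `A0`. -/
theorem pcp_inst : ∃ e : ℝ, 0 < e ∧ e ≤ 1 ∧ ∃ F : List Cl → Lib.PCP.Inst A0, PT F ∧
    (∀ φ, Bdd (F φ) ∧ (F φ).2 ≠ []) ∧ (∀ φ, Sat3 φ → Sat (F φ)) ∧ ∀ φ, ¬ Sat3 φ → Gap e (F φ) := by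
  have hc0 := c0_pos
  obtain ⟨h, hh⟩ : ∃ h : ℕ, 2 ≤ c0 * (((h : ℝ) + 1) * (7 / 10880)) := by
    obtain ⟨h, hh⟩ := exists_nat_ge (2 / (c0 * (7 / 10880)))
    refine ⟨h, ?_⟩
    rw [div_le_iff₀ (by positivity)] at hh
    nlinarith
  refine ⟨c0, hc0, c0_le_one, fun φ => (round h)^[rounds (startInst (pad φ)).2.length]
      (startInst (pad φ)), PT_iter h hh, ?_, ?_, ?_⟩
  · intro φ
    obtain ⟨b, ne, -⟩ := iter_spec h hh (startInst (pad φ)) (startInst_spec _).1 (start_ne φ)
      (rounds (startInst (pad φ)).2.length)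
    exact ⟨b, ne⟩
  · intro φ hs
    obtain ⟨b, ne, -, -, st, -⟩ := iter_spec h hh (startInst (pad φ)) (startInst_spec _).1
      (start_ne φ) (rounds (startInst (pad φ)).2.length)
    exact st ((startInst_spec _).2.2.1 ((sat_pad φ).2 hs))
  · intro φ hs
    obtain ⟨b, ne, -, -, -, gp⟩ := iter_spec h hh (startInst (pad φ)) (startInst_spec _).1
      (start_ne φ) (rounds (startInst (pad φ)).2.length)
    have hv := (startInst_spec (pad φ)).2.2.2 (fun h => hs ((sat_pad φ).1 h))
    have g1 := gp hv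
    have hm : c0 ≤ min (2 ^ rounds (startInst (pad φ)).2.length /
        ((startInst (pad φ)).2.length : ℝ)) c0 := by
      refine le_min ?_ le_rfl
      have hpos : (0 : ℝ) < (startInst (pad φ)).2.length := by
        have := List.length_pos_iff.2 (start_ne φ)
        exact_mod_cast this
      have h3 : (1 : ℝ) ≤ 2 ^ rounds (startInst (pad φ)).2.length /
          ((startInst (pad φ)).2.length : ℝ) := by
        rw [one_le_div hpos]
        exact_mod_cast (rounds_spec _).1
      exact c0_le_one.trans h3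
    exact gap_mono hm g1

/-- repeat all constraints `m` times -/
def rep {A : Type} (m : ℕ) (I : Lib.PCP.Inst A) : Lib.PCP.Inst A :=
  (I.1, (List.range m).flatMap (fun _ => I.2))

section rep

variable {A : Type} {m : ℕ} {I : Lib.PCP.Inst A}

lemma rep_bdd (h : Bdd I) : Bdd (rep m I) := by
  intro c hc
  obtain ⟨_, _, hc⟩ := List.mem_flatMap.1 hc
  exact h c hc

lemma rep_length : (rep m I).2.length = m * I.2.length := by
  simp [rep, List.length_flatMap]

lemma rep_sat (h : Sat I) : Sat (rep m I) := by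
  obtain ⟨s, hs⟩ := h
  refine ⟨s, fun c hc => ?_⟩
  obtain ⟨_, _, hc⟩ := List.mem_flatMap.1 hc
  exact hs c hc

lemma rep_viol (s : ℕ → A) : viol (rep m I) s = m * viol I s := by
  unfold viol rep
  rw [List.countP_flatMap]
  simp [Function.comp_def]

lemma rep_gap {e : ℝ} (h : Gap e I) : Gap e (rep m I) := by
  intro s
  rw [rep_viol, rep_length]
  have h1 := h s
  push_cast
  have h2 := mul_le_mul_of_nonneg_left h1 (Nat.cast_nonneg (α := ℝ) m)
  linarith

lemma PT_rep [Finite A] (m : ℕ) : PT (rep m : Lib.PCP.Inst A → Lib.PCP.Inst A) := by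
  unfold rep
  refine PT.pair PT.fst ?_
  exact PT.flatMapConst (List.range m) (g := fun _ (I : Lib.PCP.Inst A) => I.2)
    (fun _ _ => PT.snd)

end rep

/-- The graph: preparation, after repeating the constraints, and loops. -/
noncomputable def graphOf (m : ℕ) (I : Lib.PCP.Inst A0) : GData A0 :=
  lazyData 17 (prep (rep m I))

lemma PT_graphOf (m : ℕ) : PT (graphOf m) :=
  (PT_lazyData 17).comp (PT_prep.comp (PT_rep m))

/-- properties of the graph -/
theorem graphOf_spec {m : ℕ} (hm : 0 < m) (I : Lib.PCP.Inst A0) (hb : Bdd I) (hne : I.2 ≠ []) :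
    ∃ (n : ℕ) (G : RG (Fin n) 18 A0), Repr (graphOf m I) G ∧ m ≤ n ∧ G.Spec (97 / 100) ∧
      (Sat I → ∃ σ : Fin n → A0, ∀ i v, G.con i v (σ v) (σ (G.nb i v)) = true) ∧
      ∀ e : ℝ, 0 ≤ e → Gap e I → TwoGap G (7 / 195840 * e) := by
  have hlen : 0 < I.2.length := List.length_pos_iff.2 hne
  have hne' : (rep m I).2 ≠ [] := by
    intro h0
    have h1 := rep_length (m := m) (I := I)
    rw [h0, List.length_nil] at h1
    have : 0 < m * I.2.length := Nat.mul_pos hm hlen
    omega
  obtain ⟨n, G, hR, hbk, hn0, hnle, hspec, hsat, hgap⟩ := prep_spec (rep m I) (rep_bdd hb) hne'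
  refine ⟨n, lazyG G, repr_lazy hR, ?_, ?_, ?_, ?_⟩
  · -- size
    have h1 : n = side (rep m I) * side (rep m I) := hR.1.symm
    have h2 := prepA_base_ge (I := rep m I) (rep_bdd hb)
    have h3 := prepA_side_ge (I := rep m I)
    rw [rep_length] at h2
    rw [h1]
    have h4 : m ≤ m * I.2.length := Nat.le_mul_of_pos_right m hlen
    omega
  · exact lazyG_spec G (by norm_num) hspec (by norm_num)
  · intro hs
    obtain ⟨σ, hσ⟩ := hsat (rep_sat hs)
    exact ⟨σ, lazyG_sat G σ hσ⟩
  · intro e he hg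
    have h1 := hgap e he (rep_gap hg)
    have h2 := lazyG_twoGap G h1 (by norm_num)
    have e1 : 7 / 10880 * e / (((17 : ℕ) : ℝ) + 1) = 7 / 195840 * e := by
      push_cast
      ring
    rw [← e1]
    exact h2

end Pool.Agent.MP_2da4e2_lc
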