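import Pool.Agent.MP_2da4e2_lc.Defs
import Pool.Agent.Lib.helper60.PTLib

/-!
# Codes of trees: injectivity, polynomial-time parser, number of leaves and external path length
-/

set_option autoImplicit false

namespace Pool.Agent.MP_2da4e2_lc

open Turing Computability
open Pool.Agent.Lib.helper60

/-- number of leaves -/
def leaves : Tree → ℕ
  | .leaf => 1
  | .node _ l r => leaves l + leaves r

/-- sum over the leaves of (depth of the leaf + d) -/
def epl : Tree → ℕ → ℕ
  | .leaf, d => d
  | .node _ l r, d => epl l (d + 1) + epl r (d + 1)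

/-! ### injectivity -/

theorem unary_inj : ∀ (k k' : ℕ) (w w' : List Bool),
    List.replicate k true ++ false :: w = List.replicate k' true ++ false :: w' → k = k' ∧ w = w'
  | 0, 0, w, w', h => by simpa using h
  | 0, k' + 1, w, w', h => by simp [List.replicate_succ] at h
  | k + 1, 0, w, w', h => by simp [List.replicate_succ] at h
  | k + 1, k' + 1, w, w', h => by
    have := unary_inj k k' w w' (by simpa [List.replicate_succ] using h)
    exact ⟨by rw [this.1], this.2⟩

theorem encode_append_inj : ∀ (T T' : Tree) (u u' : List Bool),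
    T.encode ++ u = T'.encode ++ u' → T = T' ∧ u = u'
  | .leaf, .leaf, u, u', h => by simpa [Tree.encode] using h
  | .leaf, .node k l r, u, u', h => by simp [Tree.encode] at h
  | .node k l r, .leaf, u, u', h => by simp [Tree.encode] at h
  | .node k l r, .node k' l' r', u, u', h => by
    simp only [Tree.encode, List.cons_append, List.append_assoc, List.cons.injEq, true_and] at h
    obtain ⟨rfl, h1⟩ := unary_inj _ _ _ _ h
    obtain ⟨rfl, h2⟩ := encode_append_inj l l' _ _ h1
    obtain ⟨rfl, h3⟩ := encode_append_inj r r' _ _ h2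
    exact ⟨rfl, h3⟩

theorem encode_injective : Function.Injective Tree.encode := by
  intro T T' h
  exact (encode_append_inj T T' [] [] (by rw [h])).1

/-! ### the parser -/

/-- one step of the parser; state: (reading a unary number?, stack of depths, number of leaves,
sum of their depths) -/
def pstep (s : Bool × List ℕ × ℕ × ℕ) (b : Bool) : Bool × List ℕ × ℕ × ℕ :=
  bif s.1 then
    (bif b then s else (false, (s.2.1.headD 0 + 1) :: (s.2.1.headD 0 + 1) :: s.2.1.tail, s.2.2))
  else
    (bif b then (true, s.2) else
      (false, s.2.1.tail, s.2.2.1 + 1, s.2.2.2 + s.2.1.headD 0))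

/-- The parser. -/
def parse (w : List Bool) : ℕ × ℕ := (w.foldl pstep (false, [0], 0, 0)).2.2

theorem foldl_unary (k : ℕ) (s : List ℕ × ℕ × ℕ) :
    (List.replicate k true).foldl pstep (true, s) = (true, s) := by
  induction k with
  | zero => rfl
  | succ k ih => simpa [List.replicate_succ, pstep] using ih

theorem foldl_encode : ∀ (T : Tree) (d n e : ℕ) (st : List ℕ),
    T.encode.foldl pstep (false, d :: st, n, e) = (false, st, n + leaves T, e + epl T d)
  | .leaf, d, n, e, st => by simp [Tree.encode, pstep, leaves, epl]
  | .node k l r, d, n, e, st => by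
    simp only [Tree.encode, List.foldl_cons, List.foldl_append]
    have h1 : pstep (false, d :: st, n, e) true = (true, d :: st, n, e) := rfl
    rw [h1, foldl_unary]
    have h2 : pstep (true, d :: st, n, e) false = (false, (d + 1) :: (d + 1) :: st, n, e) := rfl
    rw [h2, foldl_encode l, foldl_encode r]
    simp [leaves, epl, add_assoc]

theorem parse_encode (T : Tree) : parse T.encode = (leaves T, epl T 0) := by
  unfold parse
  rw [foldl_encode]
  simp

theorem pstep_pt : PT (fun x : Unit × (Bool × List ℕ × ℕ × ℕ) × Bool => pstep x.2.1 x.2.2) := by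
  have hs : PT (fun x : Unit × (Bool × List ℕ × ℕ × ℕ) × Bool => x.2.1) := PT.fst.comp PT.snd
  have hb : PT (fun x : Unit × (Bool × List ℕ × ℕ × ℕ) × Bool => x.2.2) := PT.snd.comp PT.snd
  have hst := PT.p1 (PT.p2 hs)
  have hhd := PT.headD hst (PT.const 0)
  have htl := PT.tail hst
  refine PT.cond (PT.p1 hs) (PT.cond hb hs ?_) (PT.cond hb ?_ ?_)
  · exact PT.pair (PT.const false) (PT.pair (PT.cons (PT.nsucc hhd) (PT.cons (PT.nsucc hhd) htl))
      (PT.p2 (PT.p2 hs)))
  · exact PT.pair (PT.const true) (PT.p2 hs)
  · exact PT.pair (PT.const false) (PT.pair htl (PT.pair (PT.nsucc (PT.p1 (PT.p2 (PT.p2 hs))))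
      (PT.nadd (PT.p2 (PT.p2 (PT.p2 hs))) hhd)))

/-- the invariant of the parser after `j` bits -/
theorem foldl_bound : ∀ (w : List Bool) (j : ℕ) (s : Bool × List ℕ × ℕ × ℕ),
    (∀ y ∈ s.2.1, y ≤ j) → s.2.1.length ≤ j + 1 → s.2.2.1 ≤ j → s.2.2.2 ≤ j * j →
    (∀ y ∈ (w.foldl pstep s).2.1, y ≤ j + w.length) ∧
    (w.foldl pstep s).2.1.length ≤ j + w.length + 1 ∧
    (w.foldl pstep s).2.2.1 ≤ j + w.length ∧
    (w.foldl pstep s).2.2.2 ≤ (j + w.length) * (j + w.length)
  | [], j, s, h1, h2, h3, h4 => by simpa using ⟨h1, h2, h3, h4⟩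
  | b :: w, j, s, h1, h2, h3, h4 => by
    have key : (∀ y ∈ (pstep s b).2.1, y ≤ j + 1) ∧ (pstep s b).2.1.length ≤ (j + 1) + 1 ∧
        (pstep s b).2.2.1 ≤ j + 1 ∧ (pstep s b).2.2.2 ≤ (j + 1) * (j + 1) := by
      obtain ⟨m, st, n, e⟩ := s
      have hd : st.headD 0 ≤ j := by
        cases st with
        | nil => simp
        | cons a st => exact h1 a (by simp)
      have htl : ∀ y ∈ st.tail, y ≤ j := fun y hy => h1 y (List.mem_of_mem_tail hy)
      have hlen : st.tail.length ≤ j := by
        rw [List.length_tail]
        simp only at h2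
        omega
      simp only at h1 h2 h3 h4
      have h5 : (j + 1) * (j + 1) = j * j + 2 * j + 1 := by ring
      cases m <;> cases b
      · refine ⟨fun y hy => ?_, ?_, ?_, ?_⟩
        · exact (htl y hy).trans (Nat.le_succ j)
        · show st.tail.length ≤ _
          omega
        · show n + 1 ≤ _
          omega
        · show e + st.headD 0 ≤ _
          omega
      · refine ⟨fun y hy => ?_, ?_, ?_, ?_⟩
        · exact (h1 y hy).trans (Nat.le_succ j)
        · show st.length ≤ _
          omega
        · show n ≤ _
          omega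
        · show e ≤ _
          omega
      · refine ⟨fun y hy => ?_, ?_, ?_, ?_⟩
        · have hy' : y = st.headD 0 + 1 ∨ y = st.headD 0 + 1 ∨ y ∈ st.tail := by
            simpa [pstep] using hy
          rcases hy' with rfl | rfl | hy'
          · omega
          · omega
          · exact (htl y hy').trans (Nat.le_succ j)
        · show st.tail.length + 1 + 1 ≤ _
          omega
        · show n ≤ _
          omega
        · show e ≤ _
          omega
      · refine ⟨fun y hy => ?_, ?_, ?_, ?_⟩
        · exact (h1 y hy).trans (Nat.le_succ j)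
        · show st.length ≤ _
          omega
        · show n ≤ _
          omega
        · show e ≤ _
          omega
    obtain ⟨k1, k2, k3, k4⟩ := key
    have := foldl_bound w (j + 1) (pstep s b) k1 k2 k3 k4
    have e1 : j + 1 + w.length = j + (b :: w).length := by simp; omega
    rw [e1] at this
    exact this

theorem parse_pt : PT parse := by
  have h := PT.foldl (l := fun w : List Bool => w) (init := fun _ => (false, [0], 0, 0))
    (g := fun x : List Bool × (Bool × List ℕ × ℕ × ℕ) × Bool => pstep x.2.1 x.2.2)
    PT.id (PT.const _) ?_ ⟨fun w => 3 + ((tsize w + 1) * (2 * tsize w + 1 + 1) + 1 +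
      (2 * tsize w + 1 + (2 * (tsize w * tsize w) + 1) + 1) + 1) + 1, ?_, ?_⟩
  · exact (PT.snd.comp PT.snd).comp h
  · exact (pstep_pt.comp (PT.pair (PT.const ()) PT.snd))
  · exact ((PB.const 3).add (((((PB.tsize.add (PB.const 1)).mul ((((PB.const 2).mul
      PB.tsize).add (PB.const 1)).add (PB.const 1))).add (PB.const 1)).add
      (((((PB.const 2).mul PB.tsize).add (PB.const 1)).add (((PB.const 2).mul
      (PB.tsize.mul PB.tsize)).add (PB.const 1))).add (PB.const 1))).add (PB.const 1))).add
      (PB.const 1)
  · intro w l₁ l₂ hw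
    have h1 := foldl_bound l₁ 0 (false, [0], 0, 0) (by simp) (by simp) (by simp) (by simp)
    have hl : l₁.length ≤ tsize w := by
      have h2 := length_lt_tsize w
      have h3 : l₁.length ≤ w.length := by rw [← hw]; simp
      omega
    show tsize (l₁.foldl pstep (false, [0], 0, 0)) ≤ _
    rcases hS : l₁.foldl pstep (false, [0], 0, 0) with ⟨m, st, n, e⟩
    rw [hS] at h1
    simp only [zero_add] at h1
    obtain ⟨k1, k2, k3, k4⟩ := h1
    have k1' : ∀ y ∈ st, tsize y ≤ 2 * tsize w + 1 := by
      intro y hy
      have := k1 y hy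
      rw [tsize_nat]
      omega
    have k5 := tsize_le_of_forall k1'
    have k6 : st.length * (2 * tsize w + 1 + 1) ≤ (tsize w + 1) * (2 * tsize w + 1 + 1) :=
      Nat.mul_le_mul_right _ (by omega)
    have k7 : e ≤ tsize w * tsize w := k4.trans (Nat.mul_le_mul hl hl)
    have k8 := tsize_bool_le m
    simp only [tsize_pair, tsize_nat]
    omega

/-- A polynomial-time function (helper60's PT) that reads the code of a tree. -/
theorem exists_decode : ∃ F : List Bool → ℕ × ℕ, Lib.helper60.PT F ∧
    ∀ T : Tree, F T.encode = (leaves T, epl T 0) :=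
  ⟨parse, parse_pt, parse_encode⟩

/-! ### leaves and external path length of decision trees -/

theorem filter_length (S : List (List Bool)) (k : ℕ) :
    (S.filter fun x => !bit x k).length + (S.filter fun x => bit x k).length = S.length := by
  induction S with
  | nil => rfl
  | cons a S ih =>
    cases h : bit a k <;> simp [h] <;> omega

theorem leaves_eq (m : ℕ) (S : List (List Bool)) (T : Tree) (h : IsTree m S T) :
    leaves T = S.length := by
  induction T generalizing S with
  | leaf => exact h.symm
  | node k l r ihl ihr =>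
    obtain ⟨_, h1, h2⟩ := h
    rw [leaves, ihl _ h1, ihr _ h2, filter_length]

theorem cost_node (S : List (List Bool)) (k : ℕ) (l r : Tree) :
    cost S (.node k l r) = S.length + (cost (S.filter fun x => !bit x k) l +
      cost (S.filter fun x => bit x k) r) := by
  induction S with
  | nil => rfl
  | cons a S ih =>
    unfold cost at ih ⊢
    cases h : bit a k <;> simp [h, depth] at ih ⊢ <;> omega

theorem epl_eq_add (m : ℕ) (S : List (List Bool)) (T : Tree) (h : IsTree m S T) (d : ℕ) :
    epl T d = cost S T + d * S.length := by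
  induction T generalizing S d with
  | leaf =>
    have h1 : S.length = 1 := h
    obtain ⟨a, rfl⟩ := List.length_eq_one_iff.1 h1
    simp [epl, cost, depth]
  | node k l r ihl ihr =>
    obtain ⟨_, h1, h2⟩ := h
    rw [epl, ihl _ h1, ihr _ h2, cost_node, ← filter_length S k]
    ring

theorem epl_eq (m : ℕ) (S : List (List Bool)) (T : Tree) (h : IsTree m S T) :
    epl T 0 = cost S T := by
  rw [epl_eq_add m S T h]
  simp

end Pool.Agent.MP_2da4e2_lc
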