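import Pool.Agent.MP_2da4e2_lc.Bounds
import Pool.Agent.MP_2da4e2_lc.PcpInst
import Pool.Agent.MP_2da4e2_lc.TreeCode
import Pool.Agent.MP_2da4e2_lc.Countable
import Pool.Agent.Lib.helper60.Bridge

/-!
# Hardness of approximation of minimum-cost decision trees
-/

set_option autoImplicit false

namespace Pool.Agent.MP_2da4e2_lc

open Turing Computability Filter
open Pool.Agent.Lib.PCP Pool.Agent.Lib.helper60
open Pool.Agent.H66 (Cl Sat3)

/-! ### the instance -/

/-- the instance made from the data of a graph -/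
noncomputable def mkInst (k T r : ℕ) (x : GData A0)
    (h : ∃ (n : ℕ) (G : RG (Fin n) 18 A0), Repr x G ∧ 0 < numP k T 18 A0 n) : Inst where
  m := (testL k T 18 r A0 x.1).length
  X := itemsN k T 18 r A0 x
  len := by
    intro v hv
    unfold itemsN at hv
    obtain ⟨X, _, rfl⟩ := List.mem_map.1 hv
    unfold rowN
    rw [List.length_map]
  nodup := by
    obtain ⟨n, G, hx, _⟩ := h
    exact nodup_items hx
  ne := by
    obtain ⟨n, G, hx, hN⟩ := h
    intro h0
    have h1 := length_items (k := k) (T := T) (r := r) hx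
    rw [h0, List.length_nil] at h1
    have h2 : 0 < numP k T 18 A0 n ^ r := Nat.pow_pos hN
    omega

/-- The reduction from satisfiability: for every `t` there are a polynomial-time function `R` and
numbers such that the optimal cost of `R φ` is at most `B` or more than `t * B`. -/
theorem reduction (t : ℕ) : ∃ (k r c : ℕ) (R : List Cl → Inst), 0 < r ∧ 0 < c ∧
    PT (fun φ => (R φ).encode) ∧ ∀ φ, ∃ n : ℕ, 0 < n ∧ (R φ).X.length = (n ^ k * c) ^ r ∧
      (Sat3 φ → ∃ Tr, IsTree (R φ).m (R φ).X Tr ∧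
        cost (R φ).X Tr ≤ 2 * (n ^ k * (n ^ k * c) ^ r)) ∧
      (¬ Sat3 φ → ∀ Tr, IsTree (R φ).m (R φ).X Tr →
        t * (2 * (n ^ k * (n ^ k * c) ^ r)) < cost (R φ).X Tr) := by
  classical
  obtain ⟨e, he0, he1, F, hF, hFb, hFs, hFg⟩ := pcp_inst
  obtain ⟨k, T, r, n₀, hr, hn₀, hgap⟩ := gap_exists A0 (d := 18) (by norm_num) (lam := 97 / 100)
    (η := 7 / 195840 * e) (by norm_num) (by norm_num) (by positivity) (by linarith) t
  have hgr : ∀ φ, ∃ (n : ℕ) (G : RG (Fin n) 18 A0), Repr (graphOf n₀ (F φ)) G ∧ n₀ ≤ n ∧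
      G.Spec (97 / 100) ∧
      (Sat (F φ) → ∃ σ : Fin n → A0, ∀ i v, G.con i v (σ v) (σ (G.nb i v)) = true) ∧
      ∀ e : ℝ, 0 ≤ e → Gap e (F φ) → TwoGap G (7 / 195840 * e) := fun φ =>
    graphOf_spec hn₀ (F φ) (hFb φ).1 (hFb φ).2
  have hex : ∀ φ, ∃ (n : ℕ) (G : RG (Fin n) 18 A0), Repr (graphOf n₀ (F φ)) G ∧
      0 < numP k T 18 A0 n := by
    intro φ
    obtain ⟨n, G, hx, hn, hs, _, _⟩ := hgr φ
    exact ⟨n, G, hx, (hgap n _ G hn hx hs).1⟩
  have hc : 0 < Nat.card (Cst k T 18 A0) := by
    obtain ⟨n, G, _, hN⟩ := hex []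
    exact Nat.pos_of_mul_pos_left hN
  refine ⟨k, r, Nat.card (Cst k T 18 A0), fun φ => mkInst k T r (graphOf n₀ (F φ)) (hex φ), hr, hc,
    ?_, ?_⟩
  · have h1 : PT (fun φ => graphOf n₀ (F φ)) := (PT_graphOf n₀).comp hF
    have h2 : PT (fun φ => itemsN k T 18 r A0 (graphOf n₀ (F φ))) := (PT_itemsN k T 18 r).comp h1
    exact PT_encItems.comp h2
  · intro φ
    obtain ⟨n, G, hx, hn, hs, hsat, htg⟩ := hgr φ
    obtain ⟨hN, hyes, hno⟩ := hgap n _ G hn hx hs
    have hm : (mkInst k T r (graphOf n₀ (F φ)) (hex φ)).m = (testL k T 18 r A0 n).length := by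
      show (testL k T 18 r A0 (graphOf n₀ (F φ)).1).length = _
      rw [hx.1]
    refine ⟨n, by omega, length_items hx, ?_, ?_⟩
    · intro hφ
      obtain ⟨Tr, hTr, hcost⟩ := hyes (hsat (hFs φ hφ))
      refine ⟨Tr, ?_, hcost⟩
      rw [hm]
      exact hTr
    · intro hφ Tr hTr
      rw [hm] at hTr
      exact hno (htg e he0.le (hFg φ hφ)) Tr hTr

/-- composition with the theorem of Cook and Levin -/
lemma from_np {L : Set (List Bool)} (hL : InNP L) {R : List Cl → Inst}
    (hR : PT (fun φ => (R φ).encode)) : ∃ f : List Bool → List Cl,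
      Nonempty (TM2ComputableInPolyTime (fun w : List Bool => w) Inst.encode (R ∘ f)) ∧
      ∀ w, w ∈ L ↔ Sat3 (f w) := by
  obtain ⟨f, hf, hfL⟩ := H66.cook_levin hL.toH66
  obtain ⟨h1⟩ := hf.tm2_raw
  have h2 : Nonempty (TM2ComputableInPolyTime (fun φ : List Cl => (toD φ).enc) Inst.encode R) :=
    PT.toTM2_code hR (fun _ => rfl)
  have e : (H66.enc : List H66.Cl → List Bool) = (fun φ : List H66.Cl => (toD φ).enc) := by
    funext φ
    exact ((Same.bool.prod Same.nat).prod ((Same.bool.prod Same.nat).prod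
      (Same.bool.prod Same.nat))).list φ
  rw [← e] at h2
  obtain ⟨h2⟩ := h2
  exact ⟨f, TM2_comp h1 h2, hfL⟩

/-! ### the bound as a function of the number of items -/

/-- the threshold for the cost: `2 * q * s` if `s = (q * c) ^ r` -/
noncomputable def thr (r c s : ℕ) : ℕ := by
  classical
  exact if h : ∃ q, (q * c) ^ r = s then 2 * (h.choose * s) else 0

lemma thr_eq {r c : ℕ} (hr : 0 < r) (hc : 0 < c) (q : ℕ) :
    thr r c ((q * c) ^ r) = 2 * (q * (q * c) ^ r) := by
  classical
  have h : ∃ q', (q' * c) ^ r = (q * c) ^ r := ⟨q, rfl⟩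
  unfold thr
  rw [dif_pos h]
  have h1 := h.choose_spec
  have h2 : h.choose * c = q * c := Nat.pow_left_injective hr.ne' h1
  rw [Nat.eq_of_mul_eq_mul_right hc h2]

/-- **NP-hardness of a gap.** -/
theorem np_hard (t : ℕ) : ∃ θ : ℕ → ℕ, ∀ L : Set (List Bool), InNP L →
    ∃ f : List Bool → Inst,
      Nonempty (TM2ComputableInPolyTime (fun w : List Bool => w) Inst.encode f) ∧
      ∀ w, (w ∈ L → ∃ Tr, IsTree (f w).m (f w).X Tr ∧ cost (f w).X Tr ≤ θ (f w).X.length) ∧
        (w ∉ L → ∀ Tr, IsTree (f w).m (f w).X Tr → t * θ (f w).X.length < cost (f w).X Tr) := by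
  obtain ⟨k, r, c, R, hr, hc, hPT, hR⟩ := reduction t
  refine ⟨thr r c, fun L hL => ?_⟩
  obtain ⟨f, hf, hfL⟩ := from_np hL hPT
  refine ⟨R ∘ f, hf, fun w => ?_⟩
  obtain ⟨n, hn, hlen, hyes, hno⟩ := hR (f w)
  have hθ : thr r c (R (f w)).X.length = 2 * (n ^ k * (n ^ k * c) ^ r) := by
    rw [hlen, thr_eq hr hc]
  constructor
  · intro hw
    obtain ⟨Tr, hTr, hcost⟩ := hyes ((hfL w).1 hw)
    refine ⟨Tr, hTr, ?_⟩
    show cost (R (f w)).X Tr ≤ thr r c (R (f w)).X.length
    rw [hθ]
    exact hcost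
  · intro hw Tr hTr
    show t * thr r c (R (f w)).X.length < cost (R (f w)).X Tr
    rw [hθ]
    exact hno (fun h => hw ((hfL w).2 h)) Tr hTr

/-! ### no constant factor -/

/-- the test for the output of the algorithm -/
def accept (t r c : ℕ) (p : ℕ × ℕ) : Bool :=
  decide ((p.2 * c) ^ r ≤ (2 * t) ^ r * p.1 ^ (r + 1))

lemma PT_accept (t r c : ℕ) : PT (accept t r c) := by
  unfold accept
  exact PT.nle (PT_pow (PT.nmul PT.snd (PT.const c)) r)
    (PT.nmul (PT.const _) (PT_pow PT.fst (r + 1)))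

lemma accept_iff {t r c : ℕ} (hr : 0 < r) (hc : 0 < c) (q a : ℕ) :
    accept t r c ((q * c) ^ r, a) = true ↔ a ≤ t * (2 * (q * (q * c) ^ r)) := by
  unfold accept
  rw [decide_eq_true_eq]
  have e1 : (2 * t) ^ r * ((q * c) ^ r) ^ (r + 1) = (t * (2 * (q * (q * c) ^ r)) * c) ^ r := by
    have : t * (2 * (q * (q * c) ^ r)) * c = (2 * t) * ((q * c) * (q * c) ^ r) := by ring
    rw [this, mul_pow (2 * t), mul_pow (q * c), pow_succ]
    ring
  simp only
  rw [e1, Nat.pow_le_pow_iff_left hr.ne', Nat.mul_le_mul_right_iff hc]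

/-- **If P ≠ NP, no polynomial-time algorithm has a constant approximation ratio.** -/
theorem no_constant (hPNP : ∃ L : Set (List Bool), InNP L ∧ ¬ InP L) (c : ℝ) (A : Inst → Tree)
    (hA : PolyTime A) : ¬ Approximates (fun _ => c) A := by
  intro happ
  obtain ⟨L, hL, hLP⟩ := hPNP
  apply hLP
  obtain ⟨t, ht⟩ := exists_nat_ge c
  obtain ⟨k, r, c', R, hr, hc, hPT, hR⟩ := reduction t
  obtain ⟨f, ⟨hf⟩, hfL⟩ := from_np hL hPT
  obtain ⟨dec, hdec, hdecT⟩ := exists_decode
  obtain ⟨hA⟩ := hA
  obtain ⟨m1⟩ := TM2_comp hf hA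
  have h4 : Nonempty (TM2ComputableInPolyTime Tree.encode encodeBool
      (fun Tr : Tree => accept t r c' (leaves Tr, epl Tr 0))) :=
    PT.decider (F := fun w => accept t r c' (dec w)) ((PT_accept t r c').comp hdec)
      (fun Tr => by rw [hdecT])
  obtain ⟨m2⟩ := h4
  refine ⟨_, TM2_comp m1 m2, fun w => ?_⟩
  obtain ⟨n, hn, hlen, hyes, hno⟩ := hR (f w)
  obtain ⟨hv, hopt⟩ := happ (R (f w))
  show w ∈ L ↔ accept t r c' (leaves (A (R (f w))), epl (A (R (f w))) 0) = true
  rw [leaves_eq _ _ _ hv, epl_eq _ _ _ hv, hlen, accept_iff hr hc, hfL w]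
  constructor
  · intro hs
    obtain ⟨Tr, hTr, hcost⟩ := hyes hs
    have h1 := hopt Tr hTr
    have h2 : (cost (R (f w)).X (A (R (f w))) : ℝ) ≤
        ((t * (2 * (n ^ k * (n ^ k * c') ^ r)) : ℕ) : ℝ) := by
      refine h1.trans ?_
      rw [Nat.cast_mul]
      have h3 : (cost (R (f w)).X Tr : ℝ) ≤ ((2 * (n ^ k * (n ^ k * c') ^ r) : ℕ) : ℝ) := by
        exact_mod_cast hcost
      calc c * (cost (R (f w)).X Tr : ℝ) ≤ t * (cost (R (f w)).X Tr : ℝ) :=
            mul_le_mul_of_nonneg_right ht (Nat.cast_nonneg _)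
        _ ≤ _ := mul_le_mul_of_nonneg_left h3 (Nat.cast_nonneg _)
    exact_mod_cast h2
  · intro hle
    by_contra hs
    have := hno hs _ hv
    omega

/-! ### no ratio in some unbounded function -/

lemma IsTree.pos {m : ℕ} {S : List (List Bool)} {T : Tree} (h : IsTree m S T) : 0 < S.length := by
  induction T generalizing S with
  | leaf =>
    have h1 : S.length = 1 := h
    omega
  | node k l r ihl ihr =>
    obtain ⟨_, h1, h2⟩ := h
    have := ihl h1
    have := filter_length S k
    omega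

lemma IsTree.depth_lt {m : ℕ} {S : List (List Bool)} {T : Tree} (h : IsTree m S T) :
    ∀ x ∈ S, depth x T + 1 ≤ S.length := by
  induction T generalizing S with
  | leaf =>
    intro x _
    have h1 : S.length = 1 := h
    simp [depth, h1]
  | node k l r ihl ihr =>
    intro x hx
    obtain ⟨_, h1, h2⟩ := h
    have p1 := h1.pos
    have p2 := h2.pos
    have p3 := filter_length S k
    unfold depth
    by_cases hb : bit x k = true
    · rw [if_pos hb]
      have := ihr h2 x (List.mem_filter.2 ⟨hx, hb⟩)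
      omega
    · rw [if_neg hb]
      have := ihl h1 x (List.mem_filter.2 ⟨hx, by simpa using hb⟩)
      omega

/-- any two trees: the costs differ at most by the factor `n` -/
lemma cost_le_mul {m : ℕ} {S : List (List Bool)} {T T' : Tree} (h : IsTree m S T)
    (h' : IsTree m S T') : cost S T ≤ S.length * cost S T' := by
  have h1 : cost S T ≤ S.length * (S.length - 1) := by
    unfold cost
    have := List.sum_le_card_nsmul (S.map fun x => depth x T) (S.length - 1) (by
      intro a ha
      obtain ⟨x, hx, rfl⟩ := List.mem_map.1 ha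
      have := h.depth_lt x hx
      omega)
    simpa using this
  have h2 : S.length - 1 ≤ cost S T' := by
    cases T' with
    | leaf =>
      have h3 : S.length = 1 := h'
      omega
    | node k l r =>
      rw [cost_node]
      omega
  exact h1.trans (Nat.mul_le_mul_left _ h2)

/-- **If P ≠ NP, some ratio that tends to infinity is not achieved.** -/
theorem no_slow (hPNP : ∃ L : Set (List Bool), InNP L ∧ ¬ InP L) :
    ∃ α : ℕ → ℝ, Tendsto α atTop atTop ∧ ∀ A : Inst → Tree, PolyTime A → ¬ Approximates α A := by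
  classical
  have hcount : {A : Inst → Tree | PolyTime A}.Countable :=
    countable_tm2 Inst.encode Tree.encode encode_injective
  rcases Set.eq_empty_or_nonempty {A : Inst → Tree | PolyTime A} with hemp | hne
  · refine ⟨fun n => n, tendsto_natCast_atTop_atTop, fun A hA => ?_⟩
    have : A ∈ {A : Inst → Tree | PolyTime A} := hA
    rw [hemp] at this
    exact absurd this (Set.notMem_empty _)
  obtain ⟨e, he⟩ := hcount.exists_eq_range hne
  -- long bad instances
  let P : ℕ → ℕ → Prop := fun i n => (∀ I : Inst, IsTree I.m I.X (e i I)) →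
    ∃ I : Inst, I.X.length = n ∧ ∃ T, IsTree I.m I.X T ∧
      (i : ℝ) * cost I.X T < cost I.X (e i I)
  have hP : ∀ i N, ∃ n, N ≤ n ∧ P i n := by
    intro i N
    by_cases hv : ∀ I : Inst, IsTree I.m I.X (e i I)
    · have hA : PolyTime (e i) := by
        have : e i ∈ {A : Inst → Tree | PolyTime A} := by
          rw [he]
          exact ⟨i, rfl⟩
        exact this
      have h1 := no_constant hPNP ((max i N : ℕ) : ℝ) (e i) hA
      unfold Approximates at h1
      push Not at h1
      obtain ⟨I, hI⟩ := h1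
      obtain ⟨T, hT, hlt⟩ := hI (hv I)
      refine ⟨I.X.length, ?_, fun _ => ⟨I, rfl, T, hT, ?_⟩⟩
      · by_contra hcon
        push Not at hcon
        have h2 := cost_le_mul (hv I) hT
        have h3 : (cost I.X (e i I) : ℝ) ≤ I.X.length * cost I.X T := by exact_mod_cast h2
        have h4 : (I.X.length : ℝ) ≤ ((max i N : ℕ) : ℝ) := by
          exact_mod_cast hcon.le.trans (le_max_right _ _)
        have h5 := mul_le_mul_of_nonneg_right h4 (Nat.cast_nonneg (α := ℝ) (cost I.X T))
        linarith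
      · have h4 : (i : ℝ) ≤ ((max i N : ℕ) : ℝ) := by exact_mod_cast le_max_left _ _
        have h5 := mul_le_mul_of_nonneg_right h4 (Nat.cast_nonneg (α := ℝ) (cost I.X T))
        linarith
    · exact ⟨N, le_rfl, fun h => absurd h hv⟩
  choose g hgN hgP using hP
  obtain ⟨s, hmono, hsP⟩ : ∃ s : ℕ → ℕ, StrictMono s ∧ ∀ i, P i (s i) := by
    let s : ℕ → ℕ := fun i => Nat.rec (g 0 0) (fun j prev => g (j + 1) (prev + 1)) i
    have hs0 : s 0 = g 0 0 := rfl
    have hs1 : ∀ i, s (i + 1) = g (i + 1) (s i + 1) := fun i => rfl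
    refine ⟨s, strictMono_nat_of_lt_succ fun i => ?_, fun i => ?_⟩
    · rw [hs1]
      exact lt_of_lt_of_le (Nat.lt_succ_self _) (hgN _ _)
    · cases i with
      | zero => rw [hs0]; exact hgP 0 0
      | succ i => rw [hs1]; exact hgP _ _
  let α : ℕ → ℕ := fun n => Finset.card (Finset.filter (fun j : ℕ => s j < n) (Finset.range n))
  have hα : ∀ i, α (s i) = i := by
    intro i
    show Finset.card (Finset.filter (fun j : ℕ => s j < s i) (Finset.range (s i))) = i
    have : Finset.filter (fun j : ℕ => s j < s i) (Finset.range (s i)) = Finset.range i := by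
      ext j
      simp only [Finset.mem_filter, Finset.mem_range, hmono.lt_iff_lt]
      constructor
      · exact fun h => h.2
      · exact fun h => ⟨lt_of_lt_of_le h (hmono.id_le i), h⟩
    rw [this, Finset.card_range]
  have hαmono : Monotone α := by
    intro a b hab
    refine Finset.card_le_card ?_
    intro j hj
    simp only [Finset.mem_filter, Finset.mem_range] at hj ⊢
    omega
  refine ⟨fun n => (α n : ℝ), ?_, ?_⟩
  · refine tendsto_natCast_atTop_atTop.comp (tendsto_atTop_atTop.2 fun b => ⟨s b, fun n hn => ?_⟩)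
    calc b = α (s b) := (hα b).symm
      _ ≤ α n := hαmono hn
  · intro A hA happ
    have : A ∈ Set.range e := by
      rw [← he]
      exact hA
    obtain ⟨i, rfl⟩ := this
    obtain ⟨I, hI, T, hT, hlt⟩ := hsP i (fun I => (happ I).1)
    have h1 := (happ I).2 T hT
    rw [hI] at h1
    simp only at h1
    rw [hα i] at h1
    linarith

/-- If P is different from NP, there is a monotone function `α ≥ 1` tending to infinity such that
every polynomial-time algorithm that outputs decision trees has a ratio larger than `α(n)` on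
instances with arbitrarily many items `n`. -/
theorem no_slow2 (hPNP : ∃ L : Set (List Bool), InNP L ∧ ¬ InP L) :
    ∃ α : ℕ → ℝ, Monotone α ∧ (∀ n, 1 ≤ α n) ∧ Tendsto α atTop atTop ∧
      ∀ A : Inst → Tree, PolyTime A → (∀ I : Inst, IsTree I.m I.X (A I)) → ∀ N : ℕ,
        ∃ I : Inst, N ≤ I.X.length ∧ ∃ T, IsTree I.m I.X T ∧
          α I.X.length * cost I.X T < cost I.X (A I) := by
  classical
  have hcount : {A : Inst → Tree | PolyTime A}.Countable :=
    countable_tm2 Inst.encode Tree.encode encode_injective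
  rcases Set.eq_empty_or_nonempty {A : Inst → Tree | PolyTime A} with hemp | hne
  · refine ⟨fun n => (n : ℝ) + 1, fun a b h => ?_, fun n => ?_, ?_, fun A hA => ?_⟩
    · have : (a : ℝ) ≤ b := by exact_mod_cast h
      simpa using this
    · have : (0 : ℝ) ≤ n := Nat.cast_nonneg n
      linarith
    · exact tendsto_atTop_add_const_right _ _ tendsto_natCast_atTop_atTop
    · have : A ∈ {A : Inst → Tree | PolyTime A} := hA
      rw [hemp] at this
      exact absurd this (Set.notMem_empty _)
  obtain ⟨e, he⟩ := hcount.exists_eq_range hne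
  have hPT : ∀ i, PolyTime (e i) := by
    intro i
    have : e i ∈ {A : Inst → Tree | PolyTime A} := by
      rw [he]
      exact ⟨i, rfl⟩
    exact this
  -- a bad instance with `n` items of the algorithm number `k.unpair.1`
  let P : ℕ → ℕ → Prop := fun k n => (∀ I : Inst, IsTree I.m I.X (e k.unpair.1 I)) →
    ∃ I : Inst, I.X.length = n ∧ ∃ T, IsTree I.m I.X T ∧
      ((k : ℝ) + 1) * cost I.X T < cost I.X (e k.unpair.1 I)
  have hP : ∀ k N, ∃ n, N ≤ n ∧ P k n := by
    intro k N
    by_cases hv : ∀ I : Inst, IsTree I.m I.X (e k.unpair.1 I)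
    · have h1 := no_constant hPNP ((max (k + 1) N : ℕ) : ℝ) (e k.unpair.1) (hPT _)
      unfold Approximates at h1
      push Not at h1
      obtain ⟨I, hI⟩ := h1
      obtain ⟨T, hT, hlt⟩ := hI (hv I)
      refine ⟨I.X.length, ?_, fun _ => ⟨I, rfl, T, hT, ?_⟩⟩
      · by_contra hcon
        push Not at hcon
        have h2 := cost_le_mul (hv I) hT
        have h3 : (cost I.X (e k.unpair.1 I) : ℝ) ≤ I.X.length * cost I.X T := by
          exact_mod_cast h2
        have h4 : (I.X.length : ℝ) ≤ ((max (k + 1) N : ℕ) : ℝ) := by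
          exact_mod_cast hcon.le.trans (le_max_right _ _)
        have h5 := mul_le_mul_of_nonneg_right h4 (Nat.cast_nonneg (α := ℝ) (cost I.X T))
        linarith
      · have h4 : ((k + 1 : ℕ) : ℝ) ≤ ((max (k + 1) N : ℕ) : ℝ) := by
          exact_mod_cast le_max_left _ _
        have h5 := mul_le_mul_of_nonneg_right h4 (Nat.cast_nonneg (α := ℝ) (cost I.X T))
        rw [Nat.cast_add, Nat.cast_one] at h5
        linarith
    · exact ⟨N, le_rfl, fun h => absurd h hv⟩
  choose g hgN hgP using hP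
  obtain ⟨s, hmono, hsP⟩ : ∃ s : ℕ → ℕ, StrictMono s ∧ ∀ i, P i (s i) := by
    let s : ℕ → ℕ := fun i => Nat.rec (g 0 0) (fun j prev => g (j + 1) (prev + 1)) i
    have hs0 : s 0 = g 0 0 := rfl
    have hs1 : ∀ i, s (i + 1) = g (i + 1) (s i + 1) := fun i => rfl
    refine ⟨s, strictMono_nat_of_lt_succ fun i => ?_, fun i => ?_⟩
    · rw [hs1]
      exact lt_of_lt_of_le (Nat.lt_succ_self _) (hgN _ _)
    · cases i with
      | zero => rw [hs0]; exact hgP 0 0
      | succ i => rw [hs1]; exact hgP _ _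
  let α : ℕ → ℕ := fun n => Finset.card (Finset.filter (fun j : ℕ => s j < n) (Finset.range n))
  have hα : ∀ i, α (s i) = i := by
    intro i
    show Finset.card (Finset.filter (fun j : ℕ => s j < s i) (Finset.range (s i))) = i
    have : Finset.filter (fun j : ℕ => s j < s i) (Finset.range (s i)) = Finset.range i := by
      ext j
      simp only [Finset.mem_filter, Finset.mem_range, hmono.lt_iff_lt]
      constructor
      · exact fun h => h.2
      · exact fun h => ⟨lt_of_lt_of_le h (hmono.id_le i), h⟩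
    rw [this, Finset.card_range]
  have hαmono : Monotone α := by
    intro a b hab
    refine Finset.card_le_card ?_
    intro j hj
    simp only [Finset.mem_filter, Finset.mem_range] at hj ⊢
    omega
  refine ⟨fun n => (α n : ℝ) + 1, fun a b hab => ?_, fun n => ?_, ?_, ?_⟩
  · have : (α a : ℝ) ≤ α b := by exact_mod_cast hαmono hab
    simpa using this
  · have : (0 : ℝ) ≤ (α n : ℝ) := Nat.cast_nonneg _
    linarith
  · refine tendsto_atTop_add_const_right _ _ (tendsto_natCast_atTop_atTop.comp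
      (tendsto_atTop_atTop.2 fun b => ⟨s b, fun n hn => ?_⟩))
    calc b = α (s b) := (hα b).symm
      _ ≤ α n := hαmono hn
  · intro A hA hv N
    have : A ∈ Set.range e := by
      rw [← he]
      exact hA
    obtain ⟨i, rfl⟩ := this
    have hk : (Nat.pair i N).unpair.1 = i := by rw [Nat.unpair_pair]
    have h0 := hsP (Nat.pair i N)
    simp only [P] at h0
    rw [hk] at h0
    obtain ⟨I, hI, T, hT, hlt⟩ := h0 hv
    refine ⟨I, ?_, T, hT, ?_⟩
    · rw [hI]
      exact (Nat.right_le_pair i N).trans (hmono.id_le _)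
    · show ((α I.X.length : ℝ) + 1) * _ < _
      rw [hI, hα]
      exact hlt

end Pool.Agent.MP_2da4e2_lc
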