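import Pool.Agent.MP_2da4e2_lc.Spectral

/-!
# Adding a loop with the equality constraint
-/

set_option autoImplicit false

namespace Pool.Agent.MP_2da4e2_lc

open Finset Pool.Agent.Lib.PCP

variable {V : Type} {d : ℕ} {A : Type} [DecidableEq A] (G : RG V d A)

/-- The graph with one more port `0`, a loop with the equality constraint. -/
def lazyG : RG V (d + 1) A where
  nb := Fin.cons (fun v => v) G.nb
  bk := Fin.cons 0 (fun i => (G.bk i).succ)
  con := Fin.cons (fun _ a b => decide (a = b)) G.con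
  bk_bk := by
    intro i
    refine Fin.cases ?_ (fun i => ?_) i
    · simp
    · simp [G.bk_bk]
  nb_bk := by
    intro i v
    refine Fin.cases ?_ (fun i => ?_) i
    · simp
    · simp [G.nb_bk]
  con_bk := by
    intro i v a b
    refine Fin.cases ?_ (fun i => ?_) i
    · simp [eq_comm]
    · simp [G.con_bk]

lemma lazyG_sat (σ : V → A) (h : ∀ i v, G.con i v (σ v) (σ (G.nb i v)) = true) :
    ∀ i v, (lazyG G).con i v (σ v) (σ ((lazyG G).nb i v)) = true := by
  intro i v
  refine Fin.cases ?_ (fun i => ?_) i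
  · simp [lazyG]
  · simpa [lazyG] using h i v

variable [Fintype V]

lemma lazyG_spec {lam lam' : ℝ} (hlam : 0 ≤ lam) (hs : G.Spec lam)
    (h : 1 + lam * d ≤ lam' * (d + 1)) : (lazyG G).Spec lam' := by
  intro f hf
  have h1 := hs f hf
  have e : ∀ v, ∑ i, f ((lazyG G).nb i v) = f v + ∑ i, f (G.nb i v) := by
    intro v
    rw [Fin.sum_univ_succ]
    simp [lazyG]
  simp only [e]
  push_cast
  have h2 : ∑ v, (f v + ∑ i, f (G.nb i v)) ^ 2 ≤ ((1 + lam * d) ^ 2) * ∑ v, f v ^ 2 := by
    set x : ℝ := ∑ v, f v ^ 2 with hx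
    set y : ℝ := ∑ v, (∑ i, f (G.nb i v)) ^ 2 with hy
    have hx0 : 0 ≤ x := Finset.sum_nonneg fun _ _ => sq_nonneg _
    have hy0 : 0 ≤ y := Finset.sum_nonneg fun _ _ => sq_nonneg _
    have hcs := Finset.sum_mul_sq_le_sq_mul_sq Finset.univ f (fun v => ∑ i, f (G.nb i v))
    rw [← hx, ← hy] at hcs
    have hxy : ∑ v, f v * ∑ i, f (G.nb i v) ≤ lam * d * x := by
      refine abs_le_of_sq_le_sq' ?_ (by positivity) |>.2
      calc (∑ v, f v * ∑ i, f (G.nb i v)) ^ 2 ≤ x * y := hcs
        _ ≤ x * ((lam * d) ^ 2 * x) := mul_le_mul_of_nonneg_left h1 hx0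
        _ = _ := by ring
    calc ∑ v, (f v + ∑ i, f (G.nb i v)) ^ 2
        = x + 2 * ∑ v, f v * ∑ i, f (G.nb i v) + y := by
          rw [hx, hy, Finset.mul_sum, ← Finset.sum_add_distrib, ← Finset.sum_add_distrib]
          exact Finset.sum_congr rfl fun v _ => by ring
      _ ≤ x + 2 * (lam * d * x) + (lam * d) ^ 2 * x := by linarith
      _ = _ := by ring
  refine h2.trans (mul_le_mul_of_nonneg_right ?_ (Finset.sum_nonneg fun _ _ => sq_nonneg _))
  have h3 : 0 ≤ 1 + lam * d := by positivity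
  exact pow_le_pow_left₀ h3 h 2

variable [Fintype A]

lemma lazyG_twoGap {e : ℝ} (he : G.Gap e) (hd : 0 < d) : TwoGap (lazyG G) (e / (d + 1)) := by
  classical
  intro f h
  have hd' : (0 : ℝ) < d := by exact_mod_cast hd
  set n : ℝ := (Fintype.card V : ℝ) with hn
  -- number of vertices with two letters
  set D : ℝ := ∑ v, (if f v = h v then 0 else 1 : ℝ) with hD
  -- violated edges for the pair
  set E : ℝ := ∑ v, ∑ i, (1 - c01 G i v (f v) (h (G.nb i v))) with hE
  have hD0 : 0 ≤ D := Finset.sum_nonneg fun v _ => by split_ifs <;> norm_num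
  have h1 : e * (n * d) ≤ E + d * D := by
    refine (he f).trans ?_
    have e1 : ((G.viol f : ℕ) : ℝ) = ∑ v, ∑ i, (1 - c01 G i v (f v) (f (G.nb i v))) := by
      unfold RG.viol
      rw [Finset.card_filter]
      push_cast
      rw [Fintype.sum_prod_type]
      refine Finset.sum_congr rfl fun v _ => Finset.sum_congr rfl fun i _ => ?_
      unfold c01
      by_cases hc : G.con i v (f v) (f (G.nb i v)) = true <;> simp [hc]
    rw [e1]
    have e2 : (d : ℝ) * D = ∑ v, ∑ i : Fin d, (if f (G.nb i v) = h (G.nb i v) then 0 else 1 : ℝ) := by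
      rw [G.sum_nb_bk (fun v _ => (if f v = h v then 0 else 1 : ℝ)), hD, Finset.mul_sum]
      refine Finset.sum_congr rfl fun v _ => ?_
      rw [Finset.sum_const, Finset.card_univ, Fintype.card_fin, nsmul_eq_mul]
    rw [e2, hE, ← Finset.sum_add_distrib]
    refine Finset.sum_le_sum fun v _ => ?_
    rw [← Finset.sum_add_distrib]
    refine Finset.sum_le_sum fun i _ => ?_
    by_cases hc : f (G.nb i v) = h (G.nb i v)
    · rw [hc, if_pos rfl, add_zero]
    · rw [if_neg hc]
      have h2 := c01_nonneg G i v (f v) (f (G.nb i v))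
      have h3 := c01_le_one G i v (f v) (h (G.nb i v))
      linarith
  have e3 : ∑ v, ∑ i, c01 (lazyG G) i v (f v) (h ((lazyG G).nb i v)) = (n - D) + (n * d - E) := by
    have e4 : ∀ v, ∑ i, c01 (lazyG G) i v (f v) (h ((lazyG G).nb i v)) =
        (1 - (if f v = h v then 0 else 1 : ℝ)) + ∑ i, c01 G i v (f v) (h (G.nb i v)) := by
      intro v
      rw [Fin.sum_univ_succ]
      congr 1
      · unfold c01
        by_cases hc : f v = h v <;> simp [lazyG, hc]
    simp only [e4, Finset.sum_add_distrib, Finset.sum_sub_distrib, Finset.sum_const,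
      Finset.card_univ, nsmul_eq_mul, mul_one]
    rw [hE, hD, hn]
    simp only [Finset.sum_sub_distrib, Finset.sum_const, Finset.card_univ, Fintype.card_fin,
      nsmul_eq_mul, mul_one]
    ring
  rw [e3]
  push_cast
  have e5 : (1 - e / (d + 1)) * (n * (d + 1)) = n * (d + 1) - e * n := by
    field_simp
  rw [e5]
  have h4 : e * n ≤ E / d + D := by
    rw [← sub_nonneg] at h1 ⊢
    have : E / d + D - e * n = (E + d * D - e * (n * d)) / d := by field_simp
    rw [this]
    exact div_nonneg h1 hd'.le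
  have hE0 : 0 ≤ E := Finset.sum_nonneg fun v _ => Finset.sum_nonneg fun i _ => by
    have := c01_le_one G i v (f v) (h (G.nb i v))
    linarith
  have hd1 : (1 : ℝ) ≤ d := by exact_mod_cast hd
  have h5 : E / d ≤ E := div_le_self hE0 hd1
  nlinarith

end Pool.Agent.MP_2da4e2_lc
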