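import Pool.Agent.MP_2da4e2_lc.Defs

/-!
# Products of covering instances
-/

set_option autoImplicit false

namespace Pool.Agent.MP_2da4e2_lc

open Finset

/-! ### upper bound: trees of small depth -/

/-- The items in `A` can be separated with trees of depth `D` (with possibly useless tests). -/
inductive Can {Y : Type} (val : ℕ → Y → Bool) (m : ℕ) : ℕ → Set Y → Prop
  | base {D : ℕ} {A : Set Y} (h : A.Subsingleton) : Can val m D A
  | step {D : ℕ} {A : Set Y} (k : ℕ) (hk : k < m) (h0 : Can val m D {y ∈ A | val k y = false})
      (h1 : Can val m D {y ∈ A | val k y = true}) : Can val m (D + 1) A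

section can

variable {Y : Type} {val : ℕ → Y → Bool} {m : ℕ}

lemma Can.mono {D : ℕ} {A : Set Y} (h : Can val m D A) :
    ∀ {D' : ℕ} {B : Set Y}, D ≤ D' → B ⊆ A → Can val m D' B := by
  induction h with
  | base h =>
    intro D' B _ hB
    exact .base (h.anti hB)
  | step k hk _ _ ih0 ih1 =>
    intro D' B hD hB
    obtain ⟨D'', rfl⟩ : ∃ D'', D' = D'' + 1 := ⟨D' - 1, by omega⟩
    refine .step k hk (ih0 (by omega) ?_) (ih1 (by omega) ?_)
    · rintro y ⟨hy, h⟩
      exact ⟨hB hy, h⟩
    · rintro y ⟨hy, h⟩
      exact ⟨hB hy, h⟩

/-- a tree without useless tests -/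
lemma Can.tree {row : Y → List Bool} (hrow : ∀ y k, bit (row y) k = val k y) {D : ℕ} {A : Set Y}
    (h : Can val m D A) : ∀ S : List (List Bool), S ≠ [] → S.Nodup → (∀ v ∈ S, ∃ y ∈ A, row y = v) →
      ∃ T, IsTree m S T ∧ ∀ v ∈ S, depth v T ≤ D := by
  induction h with
  | base h =>
    intro S hne hnd hS
    refine ⟨.leaf, ?_, fun v _ => Nat.zero_le _⟩
    show S.length = 1
    match S, hne with
    | a :: t, _ =>
      have ht : t = [] := by
        rw [List.eq_nil_iff_forall_not_mem]
        intro b hb
        obtain ⟨y, hy, rfl⟩ := hS a List.mem_cons_self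
        obtain ⟨z, hz, rfl⟩ := hS b (List.mem_cons_of_mem _ hb)
        rw [h hy hz] at hnd
        exact (List.nodup_cons.1 hnd).1 hb
      rw [ht]
      rfl
  | step k hk _ _ ih0 ih1 =>
    intro S hne hnd hS
    rename_i D A _ _
    have e0 : ∀ v ∈ S.filter (fun x => !bit x k), ∃ y ∈ {y ∈ A | val k y = false}, row y = v := by
      intro v hv
      obtain ⟨hv1, hv2⟩ := List.mem_filter.1 hv
      obtain ⟨y, hy, rfl⟩ := hS v hv1
      rw [hrow] at hv2
      exact ⟨y, ⟨hy, by simpa using hv2⟩, rfl⟩
    have e1 : ∀ v ∈ S.filter (fun x => bit x k), ∃ y ∈ {y ∈ A | val k y = true}, row y = v := by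
      intro v hv
      obtain ⟨hv1, hv2⟩ := List.mem_filter.1 hv
      obtain ⟨y, hy, rfl⟩ := hS v hv1
      rw [hrow] at hv2
      exact ⟨y, ⟨hy, by simpa using hv2⟩, rfl⟩
    by_cases n0 : S.filter (fun x => !bit x k) = []
    · have hall : ∀ v ∈ S, bit v k = true := by
        intro v hv
        have := (List.filter_eq_nil_iff.1 n0) v hv
        simpa using this
      have e : S.filter (fun x => bit x k) = S := List.filter_eq_self.2 hall
      rw [e] at e1
      obtain ⟨T, hT, hd⟩ := ih1 S hne hnd e1
      exact ⟨T, hT, fun v hv => (hd v hv).trans (Nat.le_succ _)⟩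
    by_cases n1 : S.filter (fun x => bit x k) = []
    · have hall : ∀ v ∈ S, (!bit v k) = true := by
        intro v hv
        have := (List.filter_eq_nil_iff.1 n1) v hv
        simpa using this
      have e : S.filter (fun x => !bit x k) = S := List.filter_eq_self.2 hall
      rw [e] at e0
      obtain ⟨T, hT, hd⟩ := ih0 S hne hnd e0
      exact ⟨T, hT, fun v hv => (hd v hv).trans (Nat.le_succ _)⟩
    obtain ⟨T0, hT0, hd0⟩ := ih0 _ n0 (hnd.filter _) e0
    obtain ⟨T1, hT1, hd1⟩ := ih1 _ n1 (hnd.filter _) e1
    refine ⟨.node k T0 T1, ⟨hk, hT0, hT1⟩, fun v hv => ?_⟩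
    show 1 + (if bit v k = true then depth v T1 else depth v T0) ≤ D + 1
    split_ifs with hb
    · have := hd1 v (List.mem_filter.2 ⟨hv, hb⟩)
      omega
    · have := hd0 v (List.mem_filter.2 ⟨hv, by simpa using hb⟩)
      omega

end can

/-! ### the covering game -/

section yes

variable {S : Type} {N r m : ℕ} {inc : S → Fin N → Bool} {val : ℕ → (Fin r → Fin N) → Bool}

/-- binary search for the coordinate `j` -/
lemma can_bin {s : S} {j : Fin r} {E : ℕ} {A : Set (Fin r → Fin N)}
    (ht : ∀ θ ≤ N, ∃ k < m, ∀ x, val k x = decide (inc s (x j) = true ∧ (x j : ℕ) < θ))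
    (hA : ∀ x ∈ A, inc s (x j) = true) (hE : ∀ g : Fin N, Can val m E {x ∈ A | x j = g}) :
    ∀ (K a : ℕ) (B : Set (Fin r → Fin N)), B ⊆ A →
      (∀ x ∈ B, a ≤ (x j : ℕ) ∧ (x j : ℕ) < a + 2 ^ K) → Can val m (E + K) B
  | 0, a, B, hB, h => by
    by_cases ha : a < N
    · refine (hE ⟨a, ha⟩).mono le_rfl ?_
      intro x hx
      refine ⟨hB hx, Fin.ext ?_⟩
      have := h x hx
      simp only [pow_zero] at this
      show (x j : ℕ) = a
      omega
    · refine .base ?_
      intro x hx
      have := h x hx
      have := (x j).isLt
      omega
  | K + 1, a, B, hB, h => by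
    obtain ⟨k, hk, hv⟩ := ht (min (a + 2 ^ K) N) (min_le_right _ _)
    rw [← Nat.add_assoc]
    refine .step k hk ?_ ?_
    · refine can_bin ht hA hE K (a + 2 ^ K) _ (fun x hx => hB hx.1) ?_
      rintro x ⟨hx, hval⟩
      rw [hv x] at hval
      have h1 := h x hx
      have h2 := hA x (hB hx)
      have h3 := (x j).isLt
      have h4 : ¬ ((x j : ℕ) < min (a + 2 ^ K) N) := by
        intro h5
        simp [h2, h5] at hval
      have h6 : 2 ^ (K + 1) = 2 ^ K + 2 ^ K := by ring
      rw [h6] at h1
      rw [lt_min_iff] at h4
      omega
    · refine can_bin ht hA hE K a _ (fun x hx => hB hx.1) ?_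
      rintro x ⟨hx, hval⟩
      rw [hv x] at hval
      have h1 := h x hx
      have h4 := (of_decide_eq_true hval).2
      rw [lt_min_iff] at h4
      omega

/-- search for a covered coordinate -/
lemma can_scan {s : S} {E : ℕ}
    (ht : ∀ j : Fin r, ∃ k < m, ∀ x, val k x = inc s (x j)) :
    ∀ (J : Finset (Fin r)) (A : Set (Fin r → Fin N)),
      (∀ x ∈ A, ∃ j ∈ J, inc s (x j) = true) →
      (∀ j ∈ J, Can val m E {x ∈ A | inc s (x j) = true}) → Can val m (E + #J) A := by
  classical
  intro J
  induction J using Finset.induction_on with
  | empty =>
    intro A hA _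
    refine .base ?_
    intro x hx
    obtain ⟨j, hj, _⟩ := hA x hx
    simp at hj
  | insert j J hj ih =>
    intro A hA hE
    obtain ⟨k, hk, hv⟩ := ht j
    rw [Finset.card_insert_of_notMem hj, ← Nat.add_assoc]
    refine .step k hk ?_ ?_
    · refine ih _ ?_ ?_
      · rintro x ⟨hx, hval⟩
        rw [hv x] at hval
        obtain ⟨j', hj', h'⟩ := hA x hx
        rcases Finset.mem_insert.1 hj' with rfl | hj'
        · rw [hval] at h'
          exact absurd h' (by simp)
        · exact ⟨j', hj', h'⟩
      · intro j' hj'
        refine (hE j' (Finset.mem_insert_of_mem hj')).mono le_rfl ?_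
        rintro x ⟨⟨hx, _⟩, h2⟩
        exact ⟨hx, h2⟩
    · refine (hE j (Finset.mem_insert_self _ _)).mono (Nat.le_add_right _ _) ?_
      rintro x ⟨hx, hval⟩
      rw [hv x] at hval
      exact ⟨hx, hval⟩

/-- If the sets in the list `C` cover everything, the product instance has a tree of small depth. -/
theorem can_cover {K : ℕ} (hK : N ≤ 2 ^ K) {C₀ : List S}
    (ht : ∀ s ∈ C₀, ∀ J : Finset (Fin r), ∀ θ ≤ N, ∃ k < m,
      ∀ x, val k x = decide (∃ j ∈ J, inc s (x j) = true ∧ (x j : ℕ) < θ)) :
    ∀ (C : List S), (∀ s ∈ C, s ∈ C₀) → ∀ (n : ℕ) (J : Finset (Fin r)), #J = n →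
      ∀ (A : Set (Fin r → Fin N)) (y : Fin r → Fin N),
      (∀ x ∈ A, ∀ j ∉ J, x j = y j) → (∀ x ∈ A, ∀ j ∈ J, ∃ s ∈ C, inc s (x j) = true) →
      Can val m (C.length + n * (1 + r + K)) A := by
  classical
  intro C
  induction C with
  | nil =>
    intro _ n J hJ A y h1 h2
    refine .base ?_
    intro x hx x' hx'
    funext j
    by_cases hj : j ∈ J
    · obtain ⟨s, hs, _⟩ := h2 x hx j hj
      simp at hs
    · rw [h1 x hx j hj, h1 x' hx' j hj]
  | cons s C ih =>
    intro hC n
    have hs : s ∈ C₀ := hC s List.mem_cons_self
    induction n with
    | zero =>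
      intro J hJ A y h1 h2
      refine .base ?_
      intro x hx x' hx'
      funext j
      have hj : j ∉ J := by
        rw [Finset.card_eq_zero.1 hJ]
        simp
      rw [h1 x hx j hj, h1 x' hx' j hj]
    | succ n ihn =>
      intro J hJ A y h1 h2
      obtain ⟨k, hk, hv⟩ := ht s hs J N le_rfl
      have hv' : ∀ x, val k x = decide (∃ j ∈ J, inc s (x j) = true) := by
        intro x
        rw [hv x]
        congr 1
        refine propext (exists_congr fun j => and_congr_right fun _ => ?_)
        exact ⟨fun h => h.1, fun h => ⟨h, (x j).isLt⟩⟩
      have hlen : (s :: C).length + (n + 1) * (1 + r + K) =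
          (C.length + (n + 1) * (1 + r + K)) + 1 := by
        rw [List.length_cons]
        ring
      rw [hlen]
      refine .step k hk ?_ ?_
      · refine ih (fun s' hs' => hC s' (List.mem_cons_of_mem _ hs')) (n + 1) J hJ _ y
          (fun x hx => h1 x hx.1) ?_
        rintro x ⟨hx, hval⟩ j hj
        rw [hv' x] at hval
        obtain ⟨s', hs', h'⟩ := h2 x hx j hj
        rcases List.mem_cons.1 hs' with rfl | hs'
        · exact absurd ⟨j, hj, h'⟩ (of_decide_eq_false hval)
        · exact ⟨s', hs', h'⟩
      · have hJr : #J ≤ r := by
          simpa using Finset.card_le_univ J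
        have key : Can val m ((((s :: C).length + n * (1 + r + K)) + K) + #J)
            {x ∈ A | val k x = true} := by
          refine can_scan (inc := inc) (s := s) ?_ J _ ?_ ?_
          · intro j
            obtain ⟨k', hk', hv2⟩ := ht s hs {j} N le_rfl
            refine ⟨k', hk', fun x => ?_⟩
            rw [hv2 x]
            simp
          · rintro x ⟨hx, hval⟩
            rw [hv' x] at hval
            exact of_decide_eq_true hval
          · intro j hj
            refine can_bin (inc := inc) (s := s) (j := j) (E := (s :: C).length + n * (1 + r + K)) ?_ ?_ ?_ K 0 _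
              (le_refl _) ?_
            · intro θ hθ
              obtain ⟨k', hk', hv2⟩ := ht s hs {j} θ hθ
              refine ⟨k', hk', fun x => ?_⟩
              rw [hv2 x]
              simp
            · rintro x ⟨_, h⟩
              exact h
            · intro g
              refine ihn (J.erase j) ?_ _ (Function.update y j g) ?_ ?_
              · rw [Finset.card_erase_of_mem hj, hJ]
                rfl
              · rintro x ⟨⟨⟨hx, _⟩, _⟩, hg⟩ j' hj'
                by_cases hjj : j' = j
                · subst hjj
                  rw [Function.update_self]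
                  exact hg
                · rw [Function.update_of_ne hjj]
                  refine h1 x hx j' ?_
                  intro hmem
                  exact hj' (Finset.mem_erase.2 ⟨hjj, hmem⟩)
              · rintro x ⟨⟨⟨hx, _⟩, _⟩, _⟩ j' hj'
                exact h2 x hx j' (Finset.mem_of_mem_erase hj')
            · intro x _
              refine ⟨Nat.zero_le _, ?_⟩
              rw [Nat.zero_add]
              exact lt_of_lt_of_le (x j).isLt hK
        refine key.mono ?_ (le_refl _)
        rw [List.length_cons]
        have : (n + 1) * (1 + r + K) = n * (1 + r + K) + (1 + r + K) := by ring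
        omega

end yes

/-! ### lower bound -/

section no

variable {G S : Type} [Fintype G] [DecidableEq G] {r : ℕ} (inc : S → G → Bool) (σ : ℕ → S)
  (val : ℕ → (Fin r → G) → Bool)

/-- The coordinate `j` of `x` is covered by the sets of the first `L` tests on the path of `x`. -/
def Cov : Tree → ℕ → (Fin r → G) → Fin r → Prop
  | .leaf, _, _, _ => False
  | .node _ _ _, 0, _, _ => False
  | .node k l t, L + 1, x, j => inc (σ k) (x j) = true ∨
      (if val k x = true then Cov t L x j else Cov l L x j)

/-- The test `k` sees only coordinates covered by its set. -/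
def Local : Prop := ∀ k (x x' : Fin r → G),
  (∀ j, (inc (σ k) (x j) = true ∨ inc (σ k) (x' j) = true) → x j = x' j) → val k x = val k x'

/-- At least `d` elements of `U` remain after any `L` sets. -/
def Rem (U : Finset G) (L d : ℕ) : Prop :=
  ∀ F : List S, F.length ≤ L → d ≤ #{g ∈ U | ∀ s ∈ F, inc s g = false}

variable {inc σ val}

omit [Fintype G] [DecidableEq G] in
lemma Rem.le {U : Finset G} {L d : ℕ} (h : Rem inc U L d) : d ≤ #U := by
  have := h [] (Nat.zero_le _)
  simpa using this

omit [Fintype G] [DecidableEq G] in
lemma Rem.step {U : Finset G} {L d : ℕ} (h : Rem inc U (L + 1) d) (s : S) :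
    Rem inc {g ∈ U | inc s g = false} L d := by
  intro F hF
  have := h (s :: F) (by simpa using hF)
  refine this.trans (le_of_eq ?_)
  congr 1
  ext g
  simp [and_assoc]

open Classical in
/-- The number of points all of whose coordinates get covered early is small. -/
theorem count_cov (hloc : Local inc σ val) : ∀ (T : Tree) (L d : ℕ) (U : Finset G)
    (p : Fin r → Option G), Rem inc U L d →
    #{x : Fin r → G | (∀ j g, p j = some g → x j = g) ∧
      (∀ j, p j = none → x j ∈ U ∧ Cov inc σ val T L x j)} ≤
    ∏ j, (if p j = none then #U - d else 1) := by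
  have hbase : ∀ (T : Tree) (L d : ℕ) (U : Finset G) (p : Fin r → Option G),
      (∀ x j, ¬ Cov inc σ val T L x j) →
      #{x : Fin r → G | (∀ j g, p j = some g → x j = g) ∧
        (∀ j, p j = none → x j ∈ U ∧ Cov inc σ val T L x j)} ≤
      ∏ j, (if p j = none then #U - d else 1) := by
    intro T L d U p hno
    by_cases hp : ∃ j, p j = none
    · obtain ⟨j, hj⟩ := hp
      refine le_trans (le_of_eq ?_) (Nat.zero_le _)
      rw [Finset.card_eq_zero, Finset.filter_eq_empty_iff]
      intro x _ hx
      exact hno x j (hx.2 j hj).2
    · push Not at hp
      have h1 : ∏ j, (if p j = none then #U - d else 1) = 1 := by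
        refine Finset.prod_eq_one fun j _ => ?_
        rw [if_neg (hp j)]
      rw [h1, Finset.card_le_one]
      intro x hx x' hx'
      simp only [Finset.mem_filter, Finset.mem_univ, true_and] at hx hx'
      funext j
      obtain ⟨g, hg⟩ := Option.ne_none_iff_exists'.1 (hp j)
      rw [hx.1 j g hg, hx'.1 j g hg]
  intro T
  induction T with
  | leaf =>
    intro L d U p _
    exact hbase _ _ _ _ _ (fun x j h => h)
  | node k l t ihl iht =>
    intro L d U p hrem
    cases L with
    | zero => exact hbase _ _ _ _ _ (fun x j h => h)
    | succ L =>
      set U' : Finset G := {g ∈ U | inc (σ k) g = false} with hU'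
      set UB : Finset G := {g ∈ U | inc (σ k) g = true} with hUB
      have hrem' : Rem inc U' L d := hrem.step (σ k)
      have hcard : #U' + #UB = #U := by
        rw [hU', hUB]
        have := Finset.card_filter_add_card_filter_not (s := U) (fun g => inc (σ k) g = false)
        rw [← this]
        congr 2
        ext g
        simp
      -- refinements of the partial assignment
      let ref : (Fin r → G) → Fin r → Option G := fun x j =>
        match p j with
        | some g => some g
        | none => if inc (σ k) (x j) = true then some (x j) else none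
      let O : Fin r → Finset (Option G) := fun j =>
        match p j with
        | some g => {some g}
        | none => insert none (UB.image some)
      set E : Finset (Fin r → G) := {x : Fin r → G | (∀ j g, p j = some g → x j = g) ∧
        (∀ j, p j = none → x j ∈ U ∧ Cov inc σ val (.node k l t) (L + 1) x j)} with hE
      have hmaps : ∀ x ∈ E, ref x ∈ Fintype.piFinset O := by
        intro x hx
        rw [hE] at hx
        simp only [Finset.mem_filter, Finset.mem_univ, true_and] at hx
        rw [Fintype.mem_piFinset]
        intro j
        cases hp : p j with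
        | some g => simp [ref, O, hp]
        | none =>
          have h1 := (hx.2 j hp).1
          simp only [ref, O, hp]
          by_cases hi : inc (σ k) (x j) = true
          · rw [if_pos hi]
            refine Finset.mem_insert_of_mem (Finset.mem_image_of_mem _ ?_)
            rw [hUB]
            exact Finset.mem_filter.2 ⟨h1, hi⟩
          · rw [if_neg hi]
            exact Finset.mem_insert_self _ _
      rw [Finset.card_eq_sum_card_fiberwise hmaps]
      -- each fibre
      have hfib : ∀ p' ∈ Fintype.piFinset O, #{x ∈ E | ref x = p'} ≤
          ∏ j, (if p' j = none then #U' - d else 1) := by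
        intro p' _
        by_cases hne : ∃ x₀ ∈ E, ref x₀ = p'
        · obtain ⟨x₀, hx₀, hr₀⟩ := hne
          -- the child is the same for the whole fibre
          have hchild : ∀ x ∈ E, ref x = p' → val k x = val k x₀ := by
            intro x hx hr
            apply hloc
            intro j hj
            have h1 : ref x j = ref x₀ j := by rw [hr, hr₀]
            rw [hE] at hx hx₀
            simp only [Finset.mem_filter, Finset.mem_univ, true_and] at hx hx₀
            cases hp : p j with
            | some g => rw [hx.1 j g hp, hx₀.1 j g hp]
            | none =>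
              simp only [ref, hp] at h1
              by_cases hi : inc (σ k) (x j) = true
              · rw [if_pos hi] at h1
                by_cases hi₀ : inc (σ k) (x₀ j) = true
                · rw [if_pos hi₀] at h1
                  exact Option.some.inj h1
                · rw [if_neg hi₀] at h1
                  exact absurd h1 (by simp)
              · rw [if_neg hi] at h1
                by_cases hi₀ : inc (σ k) (x₀ j) = true
                · rw [if_pos hi₀] at h1
                  exact absurd h1 (by simp)
                · exact absurd hj (by simp [hi, hi₀])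
          have hsub : ∀ (T' : Tree), (∀ x ∈ E, ref x = p' → ∀ j, Cov inc σ val (.node k l t) (L + 1) x j →
              inc (σ k) (x j) = true ∨ Cov inc σ val T' L x j) →
              ({x ∈ E | ref x = p'} : Finset (Fin r → G)) ⊆
                ({x : Fin r → G | (∀ j g, p' j = some g → x j = g) ∧
                  (∀ j, p' j = none → x j ∈ U' ∧ Cov inc σ val T' L x j)} :
                    Finset (Fin r → G)) := by
            intro T' hT' x hx
            obtain ⟨hxE, hr⟩ := Finset.mem_filter.1 hx
            have hxE' := hxE
            rw [hE] at hxE'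
            simp only [Finset.mem_filter, Finset.mem_univ, true_and] at hxE' ⊢
            constructor
            · intro j g hg
              rw [← hr] at hg
              cases hp : p j with
              | some g' =>
                simp only [ref, hp, Option.some.injEq] at hg
                rw [← hg]
                exact hxE'.1 j g' hp
              | none =>
                simp only [ref, hp] at hg
                split_ifs at hg
                exact Option.some.inj hg
            · intro j hj
              rw [← hr] at hj
              cases hp : p j with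
              | some g' => simp [ref, hp] at hj
              | none =>
                simp only [ref, hp] at hj
                have hi : ¬ inc (σ k) (x j) = true := by
                  intro hi
                  rw [if_pos hi] at hj
                  exact absurd hj (by simp)
                obtain ⟨h1, h2⟩ := hxE'.2 j hp
                refine ⟨?_, ?_⟩
                · rw [hU']
                  exact Finset.mem_filter.2 ⟨h1, by simpa using hi⟩
                · rcases hT' x hxE hr j h2 with h3 | h3
                  · exact absurd h3 hi
                  · exact h3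
          by_cases hb : val k x₀ = true
          · refine (Finset.card_le_card (hsub t ?_)).trans (iht L d U' p' hrem')
            intro x hx hr j hc
            rcases hc with hc | hc
            · exact Or.inl hc
            · rw [if_pos ((hchild x hx hr).trans hb)] at hc
              exact Or.inr hc
          · refine (Finset.card_le_card (hsub l ?_)).trans (ihl L d U' p' hrem')
            intro x hx hr j hc
            rcases hc with hc | hc
            · exact Or.inl hc
            · rw [if_neg (by rw [hchild x hx hr]; exact hb)] at hc
              exact Or.inr hc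
        · refine le_trans (le_of_eq ?_) (Nat.zero_le _)
          rw [Finset.card_eq_zero, Finset.filter_eq_empty_iff]
          intro x hx hr
          exact hne ⟨x, hx, hr⟩
      refine (Finset.sum_le_sum hfib).trans ?_
      have hprod : ∑ p' ∈ Fintype.piFinset O, ∏ j, (if p' j = none then #U' - d else 1) =
          ∏ j, ∑ o ∈ O j, (if o = none then #U' - d else 1) :=
        (Finset.prod_univ_sum O (fun _ o => if o = none then #U' - d else 1)).symm
      rw [hprod]
      refine Finset.prod_le_prod' fun j _ => ?_
      cases hp : p j with
      | some g => simp [O, hp]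
      | none =>
        simp only [O, hp, if_true]
        rw [Finset.sum_insert (by simp), if_pos rfl, Finset.sum_image (by simp)]
        simp only [reduceCtorEq, if_false, Finset.sum_const, smul_eq_mul, mul_one]
        have := hrem'.le
        omega

/-- An item whose path is short has all its coordinates covered. -/
theorem cov_of_depth {m : ℕ} {row : (Fin r → G) → List Bool} (hinj : Function.Injective row)
    (hrow : ∀ x k, bit (row x) k = val k x) (hloc : Local inc σ val) (x : Fin r → G) (j : Fin r) :
    ∀ (T : Tree) (L : ℕ) (S : List (List Bool)) (U : Finset G), IsTree m S T → Rem inc U L 2 →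
      depth (row x) T ≤ L → x j ∈ U → (∀ g ∈ U, row (Function.update x j g) ∈ S) →
      Cov inc σ val T L x j := by
  intro T
  induction T with
  | leaf =>
    intro L S U hT hrem _ hxU hS
    exfalso
    have h1 : 2 ≤ #U := hrem.le
    obtain ⟨g, hg, hne⟩ := Finset.exists_mem_ne (s := U) (by omega) (x j)
    have hlen : S.length = 1 := hT
    obtain ⟨a, rfl⟩ := List.length_eq_one_iff.1 hlen
    have h2 := hS g hg
    have h3 := hS (x j) hxU
    simp only [List.mem_singleton] at h2 h3
    have h4 := hinj (h2.trans h3.symm)
    have h5 := congrFun h4 j
    simp only [Function.update_self] at h5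
    exact hne h5
  | node k l t ihl iht =>
    intro L S U hT hrem hd hxU hS
    obtain ⟨hk, hTl, hTt⟩ := hT
    cases L with
    | zero =>
      exfalso
      simp [depth] at hd
    | succ L =>
      by_cases hi : inc (σ k) (x j) = true
      · exact Or.inl hi
      · refine Or.inr ?_
        have hval : ∀ g ∈ ({g ∈ U | inc (σ k) g = false} : Finset G),
            val k (Function.update x j g) = val k x := by
          intro g hg
          apply hloc
          intro j' hj'
          by_cases hjj : j' = j
          · subst hjj
            rw [Function.update_self] at hj'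
            have := (Finset.mem_filter.1 hg).2
            rcases hj' with h | h
            · rw [this] at h
              exact absurd h (by simp)
            · exact absurd h hi
          · rw [Function.update_of_ne hjj]
        have hxU' : x j ∈ ({g ∈ U | inc (σ k) g = false} : Finset G) :=
          Finset.mem_filter.2 ⟨hxU, by simpa using hi⟩
        simp only [depth, hrow] at hd
        by_cases hb : val k x = true
        · rw [if_pos hb] at hd ⊢
          refine iht L _ _ hTt (hrem.step (σ k)) (by omega) hxU' ?_
          intro g hg
          rw [List.mem_filter, hrow, hval g hg]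
          exact ⟨hS g (Finset.mem_filter.1 hg).1, hb⟩
        · rw [if_neg hb] at hd ⊢
          refine ihl L _ _ hTl (hrem.step (σ k)) (by omega) hxU' ?_
          intro g hg
          rw [List.mem_filter, hrow, hval g hg]
          exact ⟨hS g (Finset.mem_filter.1 hg).1, by simpa using hb⟩

open Classical in
/-- The lower bound for the cost. -/
theorem cost_ge {m : ℕ} {row : (Fin r → G) → List Bool} (hinj : Function.Injective row)
    (hrow : ∀ x k, bit (row x) k = val k x) (hloc : Local inc σ val) {X : List (List Bool)}
    (hX : ∀ v, v ∈ X ↔ ∃ x, row x = v) (hnd : X.Nodup) {L d : ℕ} (hd2 : 2 ≤ d)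
    (hrem : Rem inc Finset.univ L d) {T : Tree} (hT : IsTree m X T) :
    L * (Fintype.card G ^ r) ≤ cost X T + L * (Fintype.card G - d) ^ r := by
  have hrem2 : Rem inc Finset.univ L 2 := fun F hF => hd2.trans (hrem F hF)
  -- cost as a sum over all points
  have hcost : cost X T = ∑ x : Fin r → G, depth (row x) T := by
    unfold cost
    rw [← List.sum_toFinset _ hnd]
    have : X.toFinset = Finset.univ.image row := by
      ext v
      simp [hX]
    rw [this, Finset.sum_image (fun a _ b _ h => hinj h)]
  have hshort : #{x : Fin r → G | depth (row x) T ≤ L} ≤ (Fintype.card G - d) ^ r := by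
    have h1 := count_cov hloc T L d Finset.univ (fun _ => none) hrem
    simp only [if_true, Finset.prod_const, Finset.card_univ, Fintype.card_fin] at h1
    refine le_trans (Finset.card_le_card ?_) h1
    intro x hx
    simp only [Finset.mem_filter, Finset.mem_univ, true_and] at hx ⊢
    refine ⟨fun j g h => absurd h (by simp), fun j _ => ?_⟩
    exact cov_of_depth hinj hrow hloc x j T L X Finset.univ hT hrem2 hx (Finset.mem_univ _)
      (fun g _ => (hX _).2 ⟨_, rfl⟩)
  have hsplit : #{x : Fin r → G | depth (row x) T ≤ L} + #{x : Fin r → G | ¬ depth (row x) T ≤ L} =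
      Fintype.card G ^ r := by
    rw [Finset.card_filter_add_card_filter_not]
    simp
  have hlong : L * #{x : Fin r → G | ¬ depth (row x) T ≤ L} ≤ ∑ x : Fin r → G, depth (row x) T := by
    calc L * #{x : Fin r → G | ¬ depth (row x) T ≤ L}
        = ∑ x : Fin r → G with ¬ depth (row x) T ≤ L, L := by
          rw [Finset.sum_const, smul_eq_mul, mul_comm]
      _ ≤ ∑ x : Fin r → G with ¬ depth (row x) T ≤ L, depth (row x) T := by
          refine Finset.sum_le_sum fun x hx => ?_
          have := (Finset.mem_filter.1 hx).2
          omega
      _ ≤ ∑ x : Fin r → G, depth (row x) T :=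
          Finset.sum_le_sum_of_subset (Finset.filter_subset _ _)
  rw [hcost, ← hsplit, Nat.mul_add]
  have := Nat.mul_le_mul_left L hshort
  omega

end no

end Pool.Agent.MP_2da4e2_lc
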