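import Pool.Agent.MP_2da4e2_lc.Game

/-!
# Covering instances from games
-/

set_option autoImplicit false

namespace Pool.Agent.MP_2da4e2_lc

open Finset

namespace Game

variable {V Ω Λ A : Type} (g : Game V Ω Λ A) {k : ℕ}

/-- The set given by a question `s.1` with the answer `s.2` contains the point `e = (v, o, z)` if
the question is the left question of `(o, v)` and `z` vanishes at some tuple of letters with which
the answer wins, or if it is the right question and `z` is 1 at the letters answered. -/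
def Inc (s : (Fin k → V) × (Fin k → Λ)) (e : (Fin k → V) × (Fin k → Ω) × ((Fin k → A) → Bool)) :
    Prop :=
  (g.LL e.2.1 e.1 = s.1 ∧ ∃ b : Fin k → A,
    (∀ j, g.check (e.1 j) (e.2.1 j) (g.lft (e.2.1 j) (s.2 j)) (b j) = true) ∧ e.2.2 b = false) ∨
  (g.RR e.2.1 e.1 = s.1 ∧ e.2.2 (fun j => g.rgt (e.2.1 j) (s.2 j)) = true)

/-- labels that win everywhere give a cover -/
theorem cover (σ : V → Λ)
    (hσ : ∀ v o, g.check v o (g.lft o (σ (g.L o v))) (g.rgt o (σ (g.R o v))) = true)
    (e : (Fin k → V) × (Fin k → Ω) × ((Fin k → A) → Bool)) :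
    ∃ w : Fin k → V, g.Inc (w, fun j => σ (w j)) e := by
  obtain ⟨v, o, z⟩ := e
  by_cases h : z (fun j => g.rgt (o j) (σ (g.RR o v j))) = true
  · exact ⟨g.RR o v, Or.inr ⟨rfl, h⟩⟩
  · refine ⟨g.LL o v, Or.inl ⟨rfl, fun j => g.rgt (o j) (σ (g.RR o v j)), fun j => hσ _ _, ?_⟩⟩
    simpa using h

lemma LL_bij (o : Fin k → Ω) : Function.Bijective (g.LL o) :=
  (Equiv.piCongrRight (fun j => Equiv.ofBijective _ (g.bijL (o j)))).bijective

lemma RR_bij (o : Fin k → Ω) : Function.Bijective (g.RR o) :=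
  (Equiv.piCongrRight (fun j => Equiv.ofBijective _ (g.bijR (o j)))).bijective

variable [Fintype V] [Fintype Ω]

/-- the labels of the question `w` in the list of sets `F` -/
noncomputable def labs (F : List ((Fin k → V) × (Fin k → Λ))) (w : Fin k → V) :
    List (Fin k → Λ) := by
  classical
  exact (F.filter (fun s => decide (s.1 = w))).map (fun s => s.2)

omit [Fintype Ω] in
lemma sum_labs (F : List ((Fin k → V) × (Fin k → Λ))) :
    ∑ w, (labs F w).length = F.length := by
  classical
  induction F with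
  | nil => simp [labs]
  | cons s F ih =>
    have h : ∀ w, (labs (s :: F) w).length = (if s.1 = w then 1 else 0) + (labs F w).length := by
      intro w
      unfold labs
      rw [List.filter_cons]
      by_cases hs : s.1 = w
      · simp [hs, Nat.add_comm]
      · simp [hs]
    simp only [h, Finset.sum_add_distrib, ih, Finset.sum_ite_eq, Finset.mem_univ, if_true,
      List.length_cons]
    ring

omit [Fintype V] [Fintype Ω] in
lemma mem_labs (F : List ((Fin k → V) × (Fin k → Λ))) (w : Fin k → V) (l : Fin k → Λ) :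
    l ∈ labs F w ↔ (w, l) ∈ F := by
  classical
  unfold labs
  simp only [List.mem_map, List.mem_filter, decide_eq_true_eq, Prod.exists]
  constructor
  · rintro ⟨w', l', ⟨h1, rfl⟩, rfl⟩
    exact h1
  · intro h
    exact ⟨w, l, ⟨h, rfl⟩, rfl⟩

open Classical in
/-- **Few sets leave many points uncovered.** -/
theorem uncovered [Fintype A] [Nonempty A] [Nonempty Λ] {η ε : ℝ} (hη : η ≤ 1) (hε : 0 ≤ ε)
    (hg : g.Fortified η ε) {h : ℕ} (hh : 0 < h) (hA : h < Fintype.card A ^ k)
    (hp : pval A η ε k * (h : ℝ) ^ 2 ≤ 1 / 4)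
    (F : List ((Fin k → V) × (Fin k → Λ))) (hF : 4 * F.length ≤ h * Fintype.card V ^ k) :
    (Fintype.card V * Fintype.card Ω) ^ k ≤
      4 * #{e : (Fin k → V) × (Fin k → Ω) × {z : (Fin k → A) → Bool // z ≠ fun _ => false} |
        ∀ s ∈ F, ¬ g.Inc s (e.1, e.2.1, e.2.2.1)} := by
  have hV0 : (0 : ℝ) ≤ Fintype.card V := Nat.cast_nonneg _
  have hO0 : (0 : ℝ) ≤ Fintype.card Ω := Nat.cast_nonneg _
  -- heavy questions
  let heavy : (Fin k → V) → Prop := fun w => h < (labs F w).length
  have hheavy : 4 * #{w | heavy w} ≤ Fintype.card V ^ k := by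
    have h1 : #{w | heavy w} * h ≤ F.length := by
      rw [← sum_labs F]
      calc #{w | heavy w} * h = ∑ w with heavy w, h := by rw [Finset.sum_const, smul_eq_mul]
        _ ≤ ∑ w with heavy w, (labs F w).length := by
            refine Finset.sum_le_sum fun w hw => ?_
            exact (Finset.mem_filter.1 hw).2.le
        _ ≤ _ := Finset.sum_le_sum_of_subset (Finset.filter_subset _ _)
    have h2 : h * (4 * #{w | heavy w}) ≤ h * Fintype.card V ^ k := by
      calc h * (4 * #{w | heavy w}) = 4 * (#{w | heavy w} * h) := by ring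
        _ ≤ 4 * F.length := by omega
        _ ≤ _ := hF
    exact Nat.le_of_mul_le_mul_left h2 hh
  -- selections of labels
  let sel : Fin h → (Fin k → V) → Fin k → Λ := fun p w =>
    (labs F w).getD p.val (fun _ => Classical.arbitrary Λ)
  have hsel : ∀ w, ¬ heavy w → ∀ l ∈ labs F w, ∃ p : Fin h, sel p w = l := by
    intro w hw l hl
    obtain ⟨i, hi, rfl⟩ := List.mem_iff_getElem.1 hl
    refine ⟨⟨i, lt_of_lt_of_le hi (not_lt.1 hw)⟩, ?_⟩
    show (labs F w).getD i _ = _
    rw [List.getD_eq_getElem _ _ hi]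
  -- good pairs
  let good : (Fin k → V) → (Fin k → Ω) → Prop := fun v o =>
    ¬ heavy (g.LL o v) ∧ ¬ heavy (g.RR o v) ∧ ∀ p q : Fin h, ¬ g.Win (sel p) (sel q) o v
  -- the point of a good pair
  have hpoint : ∀ v o, good v o → ∃ z : {z : (Fin k → A) → Bool // z ≠ fun _ => false},
      ∀ s ∈ F, ¬ g.Inc s (v, o, z.1) := by
    intro v o hgood
    obtain ⟨g1, g2, g3⟩ := hgood
    -- a tuple of letters that is not answered by the right player
    obtain ⟨b₀, hb₀⟩ : ∃ b₀ : Fin k → A, ∀ l ∈ labs F (g.RR o v), (fun j => g.rgt (o j) (l j)) ≠ b₀ := by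
      by_contra hcon
      push Not at hcon
      have h1 : (Finset.univ : Finset (Fin k → A)) ⊆
          ((labs F (g.RR o v)).map (fun l j => g.rgt (o j) (l j))).toFinset := by
        intro b _
        obtain ⟨l, hl, hb⟩ := hcon b
        rw [List.mem_toFinset, List.mem_map]
        exact ⟨l, hl, hb⟩
      have h2 := Finset.card_le_card h1
      have h3 := List.toFinset_card_le ((labs F (g.RR o v)).map (fun l j => g.rgt (o j) (l j)))
      rw [List.length_map] at h3
      rw [Finset.card_univ, Fintype.card_fun, Fintype.card_fin] at h2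
      have h4 : (labs F (g.RR o v)).length ≤ h := not_lt.1 g2
      omega
    let z : (Fin k → A) → Bool := fun b => decide (b = b₀ ∨ ∃ l ∈ labs F (g.LL o v),
      ∀ j, g.check (v j) (o j) (g.lft (o j) (l j)) (b j) = true)
    have hz : z ≠ fun _ => false := by
      intro h
      have h1 := congrFun h b₀
      simp [z] at h1
    refine ⟨⟨z, hz⟩, ?_⟩
    rintro ⟨w, l⟩ hs hinc
    rcases hinc with ⟨hw, b, hb1, hb2⟩ | ⟨hw, hb⟩
    · simp only at hw hb1 hb2
      subst hw
      have : z b = true := by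
        simp only [z, decide_eq_true_eq]
        exact Or.inr ⟨l, (mem_labs F _ l).2 hs, hb1⟩
      rw [this] at hb2
      exact absurd hb2 (by simp)
    · simp only at hw hb
      subst hw
      have hl := (mem_labs F _ l).2 hs
      have h1 : (fun j => g.rgt (o j) (l j)) = b₀ ∨ ∃ l' ∈ labs F (g.LL o v),
          ∀ j, g.check (v j) (o j) (g.lft (o j) (l' j)) ((fun j => g.rgt (o j) (l j)) j) = true := by
        simpa [z] using hb
      rcases h1 with h1 | ⟨l', hl', h1⟩
      · exact hb₀ l hl h1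
      · obtain ⟨p, hp⟩ := hsel _ g1 l' hl'
        obtain ⟨q, hq⟩ := hsel _ g2 l hl
        refine g3 p q fun j => ?_
        rw [hp, hq]
        exact h1 j
  -- counting
  have hcount : (#{p : (Fin k → V) × (Fin k → Ω) | good p.1 p.2} : ℕ) ≤
      #{e : (Fin k → V) × (Fin k → Ω) × {z : (Fin k → A) → Bool // z ≠ fun _ => false} |
        ∀ s ∈ F, ¬ g.Inc s (e.1, e.2.1, e.2.2.1)} := by
    refine Finset.card_le_card_of_injOn
      (fun p => if hgd : good p.1 p.2 then (p.1, p.2, Classical.choose (hpoint p.1 p.2 hgd)) else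
        (p.1, p.2, ⟨fun _ => true, fun h => by
          have := congrFun h (fun _ => Classical.arbitrary A)
          simp at this⟩)) ?_ ?_
    · intro p hp
      have hgd : good p.1 p.2 := by simpa using hp
      simp only [dif_pos hgd, Finset.coe_filter, Finset.mem_univ, true_and, Set.mem_ofPred_eq]
      exact Classical.choose_spec (hpoint p.1 p.2 hgd)
    · intro p hp p' hp' heq
      have hgd : good p.1 p.2 := by simpa using hp
      have hgd' : good p'.1 p'.2 := by simpa using hp'
      simp only [dif_pos hgd, dif_pos hgd', Prod.mk.injEq] at heq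
      exact Prod.ext heq.1 heq.2.1
  -- the bad pairs
  have hL : ∑ v : Fin k → V, ∑ o : Fin k → Ω, ind (heavy (g.LL o v)) =
      (Fintype.card Ω : ℝ) ^ k * (#{w | heavy w} : ℕ) := by
    rw [Finset.sum_comm]
    have : ∀ o : Fin k → Ω, ∑ v : Fin k → V, ind (heavy (g.LL o v)) = (#{w | heavy w} : ℕ) := by
      intro o
      rw [card_filter_ind]
      exact (Equiv.ofBijective _ (g.LL_bij o)).sum_comp (fun w => ind (heavy w))
    simp only [this, Finset.sum_const, Finset.card_univ, Fintype.card_fun, Fintype.card_fin,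
      nsmul_eq_mul]
    push_cast
    ring
  have hR : ∑ v : Fin k → V, ∑ o : Fin k → Ω, ind (heavy (g.RR o v)) =
      (Fintype.card Ω : ℝ) ^ k * (#{w | heavy w} : ℕ) := by
    rw [Finset.sum_comm]
    have : ∀ o : Fin k → Ω, ∑ v : Fin k → V, ind (heavy (g.RR o v)) = (#{w | heavy w} : ℕ) := by
      intro o
      rw [card_filter_ind]
      exact (Equiv.ofBijective _ (g.RR_bij o)).sum_comp (fun w => ind (heavy w))
    simp only [this, Finset.sum_const, Finset.card_univ, Fintype.card_fun, Fintype.card_fin,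
      nsmul_eq_mul]
    push_cast
    ring
  have hW : ∑ v : Fin k → V, ∑ o : Fin k → Ω, ∑ p : Fin h, ∑ q : Fin h,
      ind (g.Win (sel p) (sel q) o v) ≤ (1 / 4) * (Fintype.card V * Fintype.card Ω : ℝ) ^ k := by
    have e1 : ∑ v : Fin k → V, ∑ o : Fin k → Ω, ∑ p : Fin h, ∑ q : Fin h,
        ind (g.Win (sel p) (sel q) o v) = ∑ p : Fin h, ∑ q : Fin h,
          ∑ v : Fin k → V, ∑ o : Fin k → Ω, ind (g.Win (sel p) (sel q) o v) := by
      calc ∑ v : Fin k → V, ∑ o : Fin k → Ω, ∑ p : Fin h, ∑ q : Fin h,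
            ind (g.Win (sel p) (sel q) o v)
          = ∑ v : Fin k → V, ∑ p : Fin h, ∑ o : Fin k → Ω, ∑ q : Fin h,
            ind (g.Win (sel p) (sel q) o v) := Finset.sum_congr rfl fun _ _ => Finset.sum_comm
        _ = ∑ p : Fin h, ∑ v : Fin k → V, ∑ o : Fin k → Ω, ∑ q : Fin h,
            ind (g.Win (sel p) (sel q) o v) := Finset.sum_comm
        _ = ∑ p : Fin h, ∑ v : Fin k → V, ∑ q : Fin h, ∑ o : Fin k → Ω,
            ind (g.Win (sel p) (sel q) o v) :=
            Finset.sum_congr rfl fun _ _ => Finset.sum_congr rfl fun _ _ => Finset.sum_comm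
        _ = _ := Finset.sum_congr rfl fun _ _ => Finset.sum_comm
    rw [e1]
    calc ∑ p : Fin h, ∑ q : Fin h, ∑ v : Fin k → V, ∑ o : Fin k → Ω,
          ind (g.Win (sel p) (sel q) o v)
        ≤ ∑ _p : Fin h, ∑ _q : Fin h,
            pval A η ε k * (Fintype.card V * Fintype.card Ω : ℝ) ^ k :=
          Finset.sum_le_sum fun p _ => Finset.sum_le_sum fun q _ =>
            g.repetition hη hε hg k (sel p) (sel q)
      _ = (pval A η ε k * (h : ℝ) ^ 2) * (Fintype.card V * Fintype.card Ω : ℝ) ^ k := by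
          simp only [Finset.sum_const, Finset.card_univ, Fintype.card_fin, nsmul_eq_mul]
          ring
      _ ≤ _ := mul_le_mul_of_nonneg_right hp (by positivity)
  have htotal : (Fintype.card V * Fintype.card Ω : ℝ) ^ k =
      ∑ _v : Fin k → V, ∑ _o : Fin k → Ω, (1 : ℝ) := by
    simp only [Finset.sum_const, Finset.card_univ, Fintype.card_fun, Fintype.card_fin,
      nsmul_eq_mul]
    push_cast
    ring
  have hone : ∀ (v : Fin k → V) (o : Fin k → Ω), (1 : ℝ) ≤ ind (good v o) +
      (ind (heavy (g.LL o v)) + ind (heavy (g.RR o v))) +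
        ∑ p : Fin h, ∑ q : Fin h, ind (g.Win (sel p) (sel q) o v) := by
    intro v o
    have n1 := ind_nonneg (heavy (g.LL o v))
    have n2 := ind_nonneg (heavy (g.RR o v))
    have n3 := ind_nonneg (good v o)
    have n4 : 0 ≤ ∑ p : Fin h, ∑ q : Fin h, ind (g.Win (sel p) (sel q) o v) :=
      Finset.sum_nonneg fun p _ => Finset.sum_nonneg fun q _ => ind_nonneg _
    by_cases h1 : heavy (g.LL o v)
    · have : ind (heavy (g.LL o v)) = 1 := by unfold ind; rw [if_pos h1]
      linarith
    by_cases h2 : heavy (g.RR o v)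
    · have : ind (heavy (g.RR o v)) = 1 := by unfold ind; rw [if_pos h2]
      linarith
    by_cases h3 : ∃ p q : Fin h, g.Win (sel p) (sel q) o v
    · obtain ⟨p, q, h3⟩ := h3
      have e1 : ind (g.Win (sel p) (sel q) o v) = 1 := by unfold ind; rw [if_pos h3]
      have e2 : ind (g.Win (sel p) (sel q) o v) ≤ ∑ q : Fin h, ind (g.Win (sel p) (sel q) o v) :=
        Finset.single_le_sum (f := fun q => ind (g.Win (sel p) (sel q) o v))
          (fun q _ => ind_nonneg _) (Finset.mem_univ q)
      have e3 : ∑ q : Fin h, ind (g.Win (sel p) (sel q) o v) ≤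
          ∑ p : Fin h, ∑ q : Fin h, ind (g.Win (sel p) (sel q) o v) :=
        Finset.single_le_sum (f := fun p => ∑ q : Fin h, ind (g.Win (sel p) (sel q) o v))
          (fun p _ => Finset.sum_nonneg fun q _ => ind_nonneg _) (Finset.mem_univ p)
      linarith
    · push Not at h3
      have : ind (good v o) = 1 := by
        unfold ind
        rw [if_pos ⟨h1, h2, h3⟩]
      linarith
  have hsum : (Fintype.card V * Fintype.card Ω : ℝ) ^ k ≤
      (#{p : (Fin k → V) × (Fin k → Ω) | good p.1 p.2} : ℕ) +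
      ((Fintype.card Ω : ℝ) ^ k * (#{w | heavy w} : ℕ) +
        (Fintype.card Ω : ℝ) ^ k * (#{w | heavy w} : ℕ)) +
      (1 / 4) * (Fintype.card V * Fintype.card Ω : ℝ) ^ k := by
    calc (Fintype.card V * Fintype.card Ω : ℝ) ^ k
        = ∑ _v : Fin k → V, ∑ _o : Fin k → Ω, (1 : ℝ) := htotal
      _ ≤ ∑ v : Fin k → V, ∑ o : Fin k → Ω, (ind (good v o) +
            (ind (heavy (g.LL o v)) + ind (heavy (g.RR o v))) +
              ∑ p : Fin h, ∑ q : Fin h, ind (g.Win (sel p) (sel q) o v)) :=
          Finset.sum_le_sum fun v _ => Finset.sum_le_sum fun o _ => hone v o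
      _ = ∑ v : Fin k → V, ∑ o : Fin k → Ω, ind (good v o) +
            (∑ v : Fin k → V, ∑ o : Fin k → Ω, ind (heavy (g.LL o v)) +
              ∑ v : Fin k → V, ∑ o : Fin k → Ω, ind (heavy (g.RR o v))) +
            ∑ v : Fin k → V, ∑ o : Fin k → Ω, ∑ p : Fin h, ∑ q : Fin h,
              ind (g.Win (sel p) (sel q) o v) := by
          simp only [Finset.sum_add_distrib]
      _ ≤ _ := by
          rw [hL, hR]
          refine add_le_add (add_le_add (le_of_eq ?_) le_rfl) hW
          rw [card_filter_ind, Fintype.sum_prod_type]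
  -- conclusion
  have hH : (4 : ℝ) * (#{w | heavy w} : ℕ) ≤ (Fintype.card V : ℝ) ^ k := by exact_mod_cast hheavy
  have hH' := mul_le_mul_of_nonneg_left hH (pow_nonneg hO0 k)
  have hfin : (Fintype.card V * Fintype.card Ω : ℝ) ^ k ≤
      4 * (#{p : (Fin k → V) × (Fin k → Ω) | good p.1 p.2} : ℕ) := by
    rw [mul_pow] at hsum ⊢
    linarith
  have hfin' : (Fintype.card V * Fintype.card Ω) ^ k ≤
      4 * #{p : (Fin k → V) × (Fin k → Ω) | good p.1 p.2} := by exact_mod_cast hfin
  omega

end Game

end Pool.Agent.MP_2da4e2_lc
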