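import Pool.Agent.MP_2da4e2_lc.Product
import Pool.Agent.MP_2da4e2_lc.SetSystem
import Pool.Agent.MP_2da4e2_lc.Lazy
import Pool.Agent.Lib.PCP.PowInst

/-!
# The instance of the decision tree problem made from a constraint graph
-/

set_option autoImplicit false

namespace Pool.Agent.MP_2da4e2_lc

open Finset Pool.Agent.Lib.PCP

/-! ### enumeration of finite types -/

/-- the list of all elements of a finite type -/
noncomputable def allOf (X : Type) [Finite X] : List X :=
  (List.finRange (Nat.card X)).map (Finite.equivFin X).symm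

lemma mem_allOf {X : Type} [Finite X] (x : X) : x ∈ allOf X := by
  unfold allOf
  rw [List.mem_map]
  exact ⟨Finite.equivFin X x, List.mem_finRange _, Equiv.symm_apply_apply _ _⟩

lemma getD_allOf_map {X Y : Type} [Finite X] (f : X → Y) (y : Y) (i : Fin (Nat.card X)) :
    ((allOf X).map f).getD i.val y = f ((Finite.equivFin X).symm i) := by
  unfold allOf
  rw [List.map_map, List.getD_eq_getElem _ _ (by simp)]
  simp

/-! ### the constants of the construction -/

/-- random strings of the game -/
abbrev Om (d T : ℕ) : Type := (Fin T → Fin d) × Fin d × (Fin T → Fin d)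

/-- labels of the game -/
abbrev Lam (d T : ℕ) (A : Type) : Type := (Fin T → Fin d) → A

/-- the part of a point that does not depend on the graph -/
abbrev Cst (k T d : ℕ) (A : Type) : Type :=
  (Fin k → Om d T) × {z : (Fin k → A) → Bool // z ≠ fun _ => false}

section data

variable {k T d r : ℕ} {A : Type}

/-- The set given by the question with the vertices `w` and the label `lam` contains the point with
the vertices `v` and the constant part `c`; computed from the table `tab` of the graph. -/
noncomputable def incC [Finite A] (tab : List (ℕ × Con A)) (w : Fin k → ℕ) (lam : Fin k → Lam d T A)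
    (c : Cst k T d A) (v : Fin k → ℕ) : Bool :=
  ((List.finRange k).all (fun j => decide (wendL tab (v j) (List.ofFn (c.1 j).1) = w j)) &&
    (allOf (Fin k → A)).any (fun b => (!(c.2.1 b)) && (List.finRange k).all (fun j =>
      (ent d tab (v j) (c.1 j).2.1).2 (lam j (c.1 j).1) (b j)))) ||
  ((List.finRange k).all (fun j => decide
      (wendL tab (ent d tab (v j) (c.1 j).2.1).1 (List.ofFn (c.1 j).2.2) = w j)) &&
    c.2.1 (fun j => lam j (c.1 j).2.2))

/-- number of points -/
noncomputable def numP (k T d : ℕ) (A : Type) (n : ℕ) : ℕ := n ^ k * Nat.card (Cst k T d A)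

/-- The set with the number `W` of the question and the label `lam` contains the point number
`g`. -/
noncomputable def incN [Finite A] (n : ℕ) (tab : List (ℕ × Con A)) (W : ℕ)
    (lam : Fin k → Lam d T A) (g : ℕ) : Bool :=
  ((allOf (Cst k T d A)).map (fun c => incC tab (fun j => W / n ^ j.val % n) lam c
    (fun j => g / Nat.card (Cst k T d A) / n ^ j.val % n))).getD
      (g % Nat.card (Cst k T d A)) false

/-- The value of the test `t = (W, lam, J, θ)` on the item with the coordinates `g`: some coordinate
in `J` is smaller than `θ` and lies in the set `(W, lam)`. -/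
noncomputable def valN [Finite A] (n : ℕ) (tab : List (ℕ × Con A))
    (t : ℕ × (Fin k → Lam d T A) × Finset (Fin r) × ℕ) (g : Fin r → ℕ) : Bool :=
  (List.finRange r).any (fun j => decide (j ∈ t.2.2.1) &&
    (incN n tab t.1 t.2.1 (g j) && decide (g j < t.2.2.2)))

/-- all tests -/
noncomputable def testL (k T d r : ℕ) (A : Type) [Finite A] (n : ℕ) :
    List (ℕ × (Fin k → Lam d T A) × Finset (Fin r) × ℕ) :=
  (List.range (n ^ k)).flatMap (fun W => (allOf (Fin k → Lam d T A)).flatMap (fun lam =>
    (allOf (Finset (Fin r))).flatMap (fun J =>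
      (List.range (numP k T d A n + 1)).map (fun θ => (W, lam, J, θ)))))

/-- the item number `X` -/
noncomputable def rowN (k T d r : ℕ) (A : Type) [Finite A] (n : ℕ) (tab : List (ℕ × Con A))
    (X : ℕ) : List Bool :=
  (testL k T d r A n).map (fun t => valN n tab t
    (fun j => X / numP k T d A n ^ j.val % numP k T d A n))

/-- all items -/
noncomputable def itemsN (k T d r : ℕ) (A : Type) [Finite A] (x : GData A) : List (List Bool) :=
  (List.range (numP k T d A x.1 ^ r)).map (rowN k T d r A x.1 x.2)

end data

/-! ### the meaning of the construction -/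

section sem

variable {k T d r n : ℕ} {A : Type} [Finite A] {G : RG (Fin n) d A} {x : GData A}

lemma incC_iff (hx : Repr x G) (w : Fin k → Fin n) (lam : Fin k → Lam d T A) (c : Cst k T d A)
    (v : Fin k → Fin n) :
    incC x.2 (fun j => (w j).val) lam c (fun j => (v j).val) = true ↔
      (walkGame G T).Inc (w, lam) (v, c.1, c.2.1) := by
  have e1 : ∀ j, wendL x.2 (v j).val (List.ofFn (c.1 j).1) =
      (G.wend (v j) (List.ofFn (c.1 j).1)).val := fun j => powI_wend G x hx _ _
  have e2 : ∀ j, ent d x.2 (v j).val (c.1 j).2.1 =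
      ((G.nb (c.1 j).2.1 (v j)).val, G.con (c.1 j).2.1 (v j)) := fun j => powI_ent G x hx _ _
  have e3 : ∀ j, wendL x.2 (G.nb (c.1 j).2.1 (v j)).val (List.ofFn (c.1 j).2.2) =
      (G.wend (G.nb (c.1 j).2.1 (v j)) (List.ofFn (c.1 j).2.2)).val := fun j =>
    powI_wend G x hx _ _
  unfold incC Game.Inc
  simp only [e1, e2, e3, Bool.or_eq_true, Bool.and_eq_true, List.all_eq_true, List.any_eq_true,
    decide_eq_true_eq, List.mem_finRange, forall_true_left, Bool.not_eq_true']
  refine or_congr (and_congr ?_ ?_) (and_congr ?_ Iff.rfl)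
  · rw [funext_iff]
    exact forall_congr' fun j => Fin.ext_iff.symm
  · constructor
    · rintro ⟨b, _, h1, h2⟩
      exact ⟨b, h2, h1⟩
    · rintro ⟨b, h1, h2⟩
      exact ⟨b, mem_allOf b, h2, h1⟩
  · rw [funext_iff]
    exact forall_congr' fun j => Fin.ext_iff.symm

/-- the point with a given number -/
noncomputable def pt (k T d : ℕ) (A : Type) [Finite A] (n : ℕ) :
    Fin (numP k T d A n) ≃ (Fin k → Fin n) × Cst k T d A :=
  finProdFinEquiv.symm.trans
    (Equiv.prodCongr finFunctionFinEquiv.symm (Finite.equivFin (Cst k T d A)).symm)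

open Classical in
/-- incidence of sets and points -/
noncomputable def incB (G : RG (Fin n) d A) (s : (Fin k → Fin n) × (Fin k → Lam d T A))
    (g : Fin (numP k T d A n)) : Bool :=
  decide ((walkGame G T).Inc s ((pt k T d A n g).1, (pt k T d A n g).2.1, (pt k T d A n g).2.2.1))

lemma incN_eq (hx : Repr x G) (w : Fin k → Fin n) (lam : Fin k → Lam d T A)
    (g : Fin (numP k T d A n)) :
    incN n x.2 (finFunctionFinEquiv w).val lam g.val = incB G (w, lam) g := by
  have e1 : ∀ j : Fin k, (finFunctionFinEquiv w).val / n ^ j.val % n = (w j).val := by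
    intro j
    have : (finFunctionFinEquiv.symm (finFunctionFinEquiv w) j).val =
        (finFunctionFinEquiv w).val / n ^ j.val % n := rfl
    rw [← this, Equiv.symm_apply_apply]
  have hg : g.val % Nat.card (Cst k T d A) = (Fin.modNat (m := n ^ k) g).val := rfl
  unfold incN
  rw [hg, getD_allOf_map]
  simp only [e1]
  have e2 : ∀ j : Fin k, g.val / Nat.card (Cst k T d A) / n ^ j.val % n =
      ((pt k T d A n g).1 j).val := fun j => rfl
  simp only [e2]
  have e3 : (Finite.equivFin (Cst k T d A)).symm (Fin.modNat (m := n ^ k) g) =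
      (pt k T d A n g).2 := rfl
  rw [e3]
  rw [Bool.eq_iff_iff, incC_iff hx]
  classical
  unfold incB
  rw [decide_eq_true_eq]

/-- the item with given coordinates -/
noncomputable def rowF (x : GData A) (k T d r n : ℕ) (y : Fin r → Fin (numP k T d A n)) :
    List Bool :=
  rowN k T d r A n x.2 (finFunctionFinEquiv y).val

omit [Finite A] in
lemma digits (y : Fin r → Fin (numP k T d A n)) (j : Fin r) :
    (finFunctionFinEquiv y).val / numP k T d A n ^ j.val % numP k T d A n = (y j).val := by
  have : (finFunctionFinEquiv.symm (finFunctionFinEquiv y) j).val =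
      (finFunctionFinEquiv y).val / numP k T d A n ^ j.val % numP k T d A n := rfl
  rw [← this, Equiv.symm_apply_apply]

/-- the value of a test -/
lemma bit_row (hx : Repr x G) (y : Fin r → Fin (numP k T d A n)) (w : Fin k → Fin n)
    (lam : Fin k → Lam d T A) (J : Finset (Fin r)) (θ : ℕ) {i : ℕ}
    (hi : (testL k T d r A n)[i]? = some ((finFunctionFinEquiv w).val, lam, J, θ)) :
    bit (rowF x k T d r n y) i =
      decide (∃ j ∈ J, incB G (w, lam) (y j) = true ∧ (y j : ℕ) < θ) := by
  unfold bit rowF rowN
  rw [List.getD_eq_getElem?_getD, List.getElem?_map, hi]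
  simp only [Option.map_some, Option.getD_some, valN, digits, incN_eq hx]
  rw [Bool.eq_iff_iff]
  simp only [List.any_eq_true, List.mem_finRange, true_and, Bool.and_eq_true, decide_eq_true_eq]

lemma bit_row_none (y : Fin r → Fin (numP k T d A n)) {i : ℕ}
    (hi : (testL k T d r A n)[i]? = none) : bit (rowF x k T d r n y) i = false := by
  unfold bit rowF rowN
  rw [List.getD_eq_getElem?_getD, List.getElem?_map, hi]
  rfl

lemma mem_testL (w : Fin k → Fin n) (lam : Fin k → Lam d T A) (J : Finset (Fin r)) {θ : ℕ}
    (hθ : θ ≤ numP k T d A n) :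
    ((finFunctionFinEquiv w).val, lam, J, θ) ∈ testL k T d r A n := by
  unfold testL
  simp only [List.mem_flatMap, List.mem_map, List.mem_range]
  exact ⟨_, (finFunctionFinEquiv w).isLt, lam, mem_allOf _, J, mem_allOf _, θ, by omega, rfl⟩

lemma testL_form {t : ℕ × (Fin k → Lam d T A) × Finset (Fin r) × ℕ}
    (ht : t ∈ testL k T d r A n) : ∃ w : Fin k → Fin n, t = ((finFunctionFinEquiv w).val, t.2.1,
      t.2.2.1, t.2.2.2) ∧ t.2.2.2 ≤ numP k T d A n := by
  unfold testL at ht
  simp only [List.mem_flatMap, List.mem_map, List.mem_range] at ht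
  obtain ⟨W, hW, lam, _, J, _, θ, hθ, rfl⟩ := ht
  refine ⟨finFunctionFinEquiv.symm ⟨W, hW⟩, ?_, by simpa using (Nat.lt_succ_iff.1 hθ)⟩
  rw [Equiv.apply_symm_apply]

/-- the set of a test -/
noncomputable def setOf [Nonempty A] [NeZero n] (k T d r : ℕ) (i : ℕ) :
    (Fin k → Fin n) × (Fin k → Lam d T A) :=
  match (testL k T d r A n)[i]? with
  | some t => (fun j => Fin.ofNat n (t.1 / n ^ j.val % n), t.2.1)
  | none => (fun _ => 0, fun _ _ => Classical.arbitrary A)

lemma setOf_eq [Nonempty A] [NeZero n] (w : Fin k → Fin n)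
    (lam : Fin k → Lam d T A) (J : Finset (Fin r)) (θ : ℕ) {i : ℕ}
    (hi : (testL k T d r A n)[i]? = some ((finFunctionFinEquiv w).val, lam, J, θ)) :
    setOf (n := n) (A := A) k T d r i = (w, lam) := by
  unfold setOf
  rw [hi]
  simp only
  congr 1
  funext j
  have e1 : (finFunctionFinEquiv w).val / n ^ j.val % n = (w j).val := by
    have : (finFunctionFinEquiv.symm (finFunctionFinEquiv w) j).val =
        (finFunctionFinEquiv w).val / n ^ j.val % n := rfl
    rw [← this, Equiv.symm_apply_apply]
  rw [e1]
  exact Fin.ofNat_val_eq_self _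

lemma row_local (hx : Repr x G) [Nonempty A] [NeZero n] :
    Local (incB G) (setOf (n := n) (A := A) k T d r)
      (fun i y => bit (rowF x k T d r n y) i) := by
  intro i y y' h
  cases hi : (testL k T d r A n)[i]? with
  | none =>
    show bit (rowF x k T d r n y) i = bit (rowF x k T d r n y') i
    rw [bit_row_none y hi, bit_row_none y' hi]
  | some t =>
    obtain ⟨w, hw, -⟩ := testL_form (List.mem_of_getElem? hi)
    rw [hw] at hi
    show bit (rowF x k T d r n y) i = bit (rowF x k T d r n y') i
    rw [bit_row hx y _ _ _ _ hi, bit_row hx y' _ _ _ _ hi]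
    rw [setOf_eq _ _ _ _ hi] at h
    congr 1
    refine propext (exists_congr fun j => and_congr_right fun _ => ?_)
    constructor
    · rintro ⟨h1, h2⟩
      rw [← h j (Or.inl h1)]
      exact ⟨h1, h2⟩
    · rintro ⟨h1, h2⟩
      rw [h j (Or.inr h1)]
      exact ⟨h1, h2⟩

/-- every point lies in some set -/
lemma exists_inc (G : RG (Fin n) d A) (g : Fin (numP k T d A n)) :
    ∃ s : (Fin k → Fin n) × (Fin k → Lam d T A), incB G s g = true := by
  obtain ⟨b, hb⟩ : ∃ b, (pt k T d A n g).2.2.1 b = true := by
    by_contra hcon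
    push Not at hcon
    exact (pt k T d A n g).2.2.2 (funext fun b => by simpa using hcon b)
  refine ⟨((walkGame G T).RR (pt k T d A n g).2.1 (pt k T d A n g).1, fun j _ => b j), ?_⟩
  classical
  unfold incB
  rw [decide_eq_true_eq]
  refine Or.inr ⟨rfl, ?_⟩
  exact hb

lemma rowF_injective (hx : Repr x G) :
    Function.Injective (rowF x k T d r n : (Fin r → Fin (numP k T d A n)) → List Bool) := by
  -- it is enough to separate `y` and `y'` with `y j < y' j`
  have key : ∀ (y y' : Fin r → Fin (numP k T d A n)) (j : Fin r), (y j : ℕ) < y' j →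
      rowF x k T d r n y ≠ rowF x k T d r n y' := by
    intro y y' j hlt heq
    obtain ⟨⟨w, lam⟩, hs⟩ := exists_inc (T := T) G (y j)
    have hθ : (y' j : ℕ) ≤ numP k T d A n := (y' j).isLt.le
    obtain ⟨i, hi⟩ := List.mem_iff_getElem?.1 (mem_testL (r := r) w lam {j} hθ)
    have h1 := bit_row hx y w lam {j} _ hi
    have h2 := bit_row hx y' w lam {j} _ hi
    rw [heq, h2] at h1
    simp only [Finset.mem_singleton, exists_eq_left, hs, true_and, lt_irrefl, and_false,
      decide_false] at h1
    exact of_decide_eq_false h1.symm hlt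
  intro y y' heq
  funext j
  rcases lt_trichotomy (y j : ℕ) (y' j) with h | h | h
  · exact absurd heq (key y y' j h)
  · exact Fin.ext h
  · exact absurd heq.symm (key y' y j h)

lemma mem_items (hx : Repr x G) (v : List Bool) :
    v ∈ itemsN k T d r A x ↔ ∃ y : Fin r → Fin (numP k T d A n), rowF x k T d r n y = v := by
  unfold itemsN
  rw [hx.1, List.mem_map]
  constructor
  · rintro ⟨X, hX, rfl⟩
    refine ⟨finFunctionFinEquiv.symm ⟨X, List.mem_range.1 hX⟩, ?_⟩
    unfold rowF
    rw [Equiv.apply_symm_apply]
  · rintro ⟨y, rfl⟩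
    exact ⟨_, List.mem_range.2 (finFunctionFinEquiv y).isLt, rfl⟩

lemma nodup_items (hx : Repr x G) : (itemsN k T d r A x).Nodup := by
  unfold itemsN
  rw [hx.1]
  refine List.Nodup.map_on ?_ List.nodup_range
  intro X hX X' hX' heq
  have h1 : rowF x k T d r n (finFunctionFinEquiv.symm ⟨X, List.mem_range.1 hX⟩) =
      rowF x k T d r n (finFunctionFinEquiv.symm ⟨X', List.mem_range.1 hX'⟩) := by
    unfold rowF
    rw [Equiv.apply_symm_apply, Equiv.apply_symm_apply]
    exact heq
  have h2 := finFunctionFinEquiv.symm.injective (rowF_injective hx h1)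
  exact congrArg Fin.val h2

lemma length_items (hx : Repr x G) : (itemsN k T d r A x).length = numP k T d A n ^ r := by
  unfold itemsN
  rw [hx.1, List.length_map, List.length_range]

end sem

end Pool.Agent.MP_2da4e2_lc
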