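import Pool.Agent.Lib.PCP.Power
import Pool.Agent.MP_2da4e2_lc.Game

/-!
# Fortified games from expanders
-/

set_option autoImplicit false

namespace Pool.Agent.MP_2da4e2_lc

open Finset Pool.Agent.Lib.PCP

section

variable {V : Type} {d : ℕ} {A : Type} (G : RG V d A)

lemma wend_bij (l : List (Fin d)) : Function.Bijective (fun v => G.wend v l) := by
  induction l with
  | nil => exact Function.bijective_id
  | cons i l ih => exact ih.comp (G.nb_bijective i)

/-- The game: a random walk of length `T`, an edge, and a random walk of length `T`; the players at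
both ends have opinions on the two ends of the edge, and these are checked. -/
def walkGame (T : ℕ) :
    Game V ((Fin T → Fin d) × Fin d × (Fin T → Fin d)) ((Fin T → Fin d) → A) A where
  L o v := G.wend v (List.ofFn o.1)
  R o v := G.wend (G.nb o.2.1 v) (List.ofFn o.2.2)
  lft o a := a o.1
  rgt o a := a o.2.2
  check v o x y := G.con o.2.1 v x y
  bijL _ := wend_bij G _
  bijR _ := (wend_bij G _).comp (G.nb_bijective _)

lemma sum_walks (F : V → ℝ) : ∀ (T : ℕ) (v : V),
    ∑ l : Fin T → Fin d, F (G.wend v (List.ofFn l)) = (G.adj^[T]) F v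
  | 0, v => by simp
  | T + 1, v => by
    rw [Game.sum_cons, Function.iterate_succ_apply']
    show _ = ∑ i, (G.adj^[T]) F (G.nb i v)
    refine Finset.sum_congr rfl fun i _ => ?_
    rw [← sum_walks F T (G.nb i v)]
    refine Finset.sum_congr rfl fun l _ => ?_
    simp [List.ofFn_succ]

/-- the constraint as a number -/
def c01 (i : Fin d) (u : V) (x y : A) : ℝ := if G.con i u x y = true then 1 else 0

lemma c01_nonneg (i : Fin d) (u : V) (x y : A) : 0 ≤ c01 G i u x y := by
  unfold c01; split_ifs <;> norm_num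

lemma c01_le_one (i : Fin d) (u : V) (x y : A) : c01 G i u x y ≤ 1 := by
  unfold c01; split_ifs <;> norm_num

lemma c01_bk (i : Fin d) (u : V) (x y : A) :
    c01 G (G.bk i) (G.nb i u) y x = c01 G i u x y := by
  unfold c01; rw [G.con_bk]

variable [Fintype V] [Fintype A]

/-- two assignments, for the two ends of the edges, satisfy few edges -/
def TwoGap (η : ℝ) : Prop := ∀ f h : V → A,
  ∑ v, ∑ i, c01 G i v (f v) (h (G.nb i v)) ≤ (1 - η) * (Fintype.card V * d)

variable {G}

omit [Fintype V] in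
lemma exists_best [Nonempty A] (C : V → A → ℝ) : ∃ f : V → A, ∀ u x, C u x ≤ C u (f u) := by
  have : ∀ u, ∃ a, ∀ x, C u x ≤ C u a := by
    intro u
    obtain ⟨a, _, ha⟩ := Finset.exists_max_image Finset.univ (C u) Finset.univ_nonempty
    exact ⟨a, fun x => ha x (Finset.mem_univ x)⟩
  choose f hf using this
  exact ⟨f, hf⟩

omit [Fintype V] in
lemma avg_le {C : A → ℝ} {α : A → ℝ} {a : A} (h0 : ∀ x, 0 ≤ α x) (h1 : ∑ x, α x = 1)
    (hC : ∀ x, C x ≤ C a) : ∑ x, α x * C x ≤ C a := by
  calc ∑ x, α x * C x ≤ ∑ x, α x * C a :=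
        Finset.sum_le_sum fun x _ => mul_le_mul_of_nonneg_left (hC x) (h0 x)
    _ = C a := by rw [← Finset.sum_mul, h1, one_mul]

/-- random assignments are not better than assignments -/
lemma TwoGap.distr [Nonempty A] {η : ℝ} (hG : TwoGap G η) {α β : V → A → ℝ}
    (hα : ∀ v x, 0 ≤ α v x) (hα1 : ∀ v, ∑ x, α v x = 1) (hβ : ∀ v x, 0 ≤ β v x)
    (hβ1 : ∀ v, ∑ x, β v x = 1) :
    ∑ v, ∑ i, ∑ x, ∑ y, c01 G i v x y * α v x * β (G.nb i v) y ≤
      (1 - η) * (Fintype.card V * d) := by
  obtain ⟨f, hf⟩ := exists_best (fun u x => ∑ i, ∑ y, c01 G i u x y * β (G.nb i u) y)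
  obtain ⟨h, hh⟩ := exists_best (fun v y => ∑ i, c01 G i v y (f (G.nb i v)))
  calc ∑ v, ∑ i, ∑ x, ∑ y, c01 G i v x y * α v x * β (G.nb i v) y
      = ∑ v, ∑ x, α v x * ∑ i, ∑ y, c01 G i v x y * β (G.nb i v) y := by
        refine Finset.sum_congr rfl fun v _ => ?_
        rw [Finset.sum_comm]
        refine Finset.sum_congr rfl fun x _ => ?_
        rw [Finset.mul_sum]
        refine Finset.sum_congr rfl fun i _ => ?_
        rw [Finset.mul_sum]
        refine Finset.sum_congr rfl fun y _ => ?_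
        ring
    _ ≤ ∑ v, ∑ i, ∑ y, c01 G i v (f v) y * β (G.nb i v) y :=
        Finset.sum_le_sum fun v _ => avg_le (hα v) (hα1 v) (hf v)
    _ = ∑ v, ∑ i, ∑ y, c01 G i v y (f (G.nb i v)) * β v y := by
        rw [← G.sum_nb_bk (fun v i => ∑ y, c01 G i v y (f (G.nb i v)) * β v y)]
        refine Finset.sum_congr rfl fun v _ => Finset.sum_congr rfl fun i _ =>
          Finset.sum_congr rfl fun y _ => ?_
        rw [G.nb_bk, c01_bk]
    _ = ∑ v, ∑ y, β v y * ∑ i, c01 G i v y (f (G.nb i v)) := by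
        refine Finset.sum_congr rfl fun v _ => ?_
        rw [Finset.sum_comm]
        refine Finset.sum_congr rfl fun y _ => ?_
        rw [Finset.mul_sum]
        exact Finset.sum_congr rfl fun i _ => mul_comm _ _
    _ ≤ ∑ v, ∑ i, c01 G i v (h v) (f (G.nb i v)) :=
        Finset.sum_le_sum fun v _ => avg_le (hβ v) (hβ1 v) (hh v)
    _ ≤ _ := hG h f

omit [Fintype A] in
/-- mixing: the distribution of the end of a long walk from `u` hardly depends on `u` -/
lemma mixing [Nonempty V] {lam : ℝ} (h0 : 0 ≤ lam) (hs : G.Spec lam) (S : V → Prop) (T : ℕ) :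
    ∃ μ : ℝ, 0 ≤ μ ∧ μ ≤ (d : ℝ) ^ T ∧
      ∑ u, |(G.adj^[T]) (fun v => Game.ind (S v)) u - μ| ≤ Fintype.card V * (lam * d) ^ T := by
  set n : ℝ := (Fintype.card V : ℝ) with hn
  have hn0 : 0 < n := by rw [hn]; exact_mod_cast Fintype.card_pos
  set s : ℝ := (∑ v, Game.ind (S v)) / n with hs'
  have hs0 : 0 ≤ s := div_nonneg (Finset.sum_nonneg fun v _ => Game.ind_nonneg _) hn0.le
  have hs1 : s ≤ 1 := by
    rw [hs', div_le_one hn0]
    calc ∑ v, Game.ind (S v) ≤ ∑ _v : V, (1 : ℝ) := Finset.sum_le_sum fun v _ => Game.ind_le_one _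
      _ = n := by simp [hn]
  have hd0 : (0 : ℝ) ≤ (d : ℝ) ^ T := by positivity
  refine ⟨(d : ℝ) ^ T * s, mul_nonneg hd0 hs0, ?_, ?_⟩
  · nlinarith
  set f : V → ℝ := fun v => Game.ind (S v) - s with hf
  have hfs : ∑ v, f v = 0 := by
    simp only [hf, Finset.sum_sub_distrib, Finset.sum_const, Finset.card_univ, nsmul_eq_mul]
    rw [hs', ← hn]
    field_simp
    ring
  have e1 : ∀ u, (G.adj^[T]) (fun v => Game.ind (S v)) u - (d : ℝ) ^ T * s = (G.adj^[T]) f u := by
    intro u
    have : (fun v => Game.ind (S v)) = fun v => f v + (fun _ => s) v := by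
      funext v; simp [hf]
    rw [this, G.adj_iter_add f (fun _ => s), G.adj_iter_const]
    ring
  simp only [e1]
  have h2 : ∑ v, (f v) ^ 2 ≤ n := by
    calc ∑ v, (f v) ^ 2 ≤ ∑ _v : V, (1 : ℝ) := by
          refine Finset.sum_le_sum fun v _ => ?_
          have h3 := Game.ind_nonneg (S v)
          have h4 := Game.ind_le_one (S v)
          have h5 : |f v| ≤ 1 := by
            rw [abs_le]
            constructor <;> simp only [hf] <;> linarith
          rw [← sq_abs]
          have := abs_nonneg (f v)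
          nlinarith
      _ = n := by simp [hn]
  have h3 := G.adj_iter_bound hs hfs T
  have h4 : (∑ u, |(G.adj^[T]) f u|) ^ 2 ≤ (n * (lam * d) ^ T) ^ 2 := by
    have h5 := sq_sum_le_card_mul_sum_sq (s := (Finset.univ : Finset V))
      (f := fun u => |(G.adj^[T]) f u|)
    simp only [sq_abs, Finset.card_univ] at h5
    rw [← hn] at h5
    refine h5.trans ?_
    calc n * ∑ u, ((G.adj^[T]) f u) ^ 2 ≤ n * (((lam * d) ^ T) ^ 2 * n) := by
          refine mul_le_mul_of_nonneg_left (h3.trans ?_) hn0.le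
          exact mul_le_mul_of_nonneg_left h2 (sq_nonneg _)
      _ = _ := by ring
  exact abs_le_of_sq_le_sq' h4 (by positivity) |>.2

/-- **Fortification.** -/
theorem walkGame_fortified [Nonempty V] [Nonempty A] (hd : 0 < d) {lam η : ℝ} (h0 : 0 ≤ lam)
    (hs : G.Spec lam) (hη0 : 0 ≤ η) (hη1 : η ≤ 1) (hG : TwoGap G η) (T : ℕ) :
    (walkGame G T).Fortified η (4 * lam ^ T) := by
  classical
  intro S S' a b
  set n : ℝ := (Fintype.card V : ℝ) with hn
  set D : ℝ := (d : ℝ) ^ T with hD
  have hd' : (0 : ℝ) < d := by exact_mod_cast hd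
  have hD0 : 0 < D := by positivity
  -- the weights
  let P : V → A → ℝ := fun u x => ∑ l : Fin T → Fin d,
    Game.ind (S (G.wend u (List.ofFn l)) ∧ a (G.wend u (List.ofFn l)) l = x)
  let Q : V → A → ℝ := fun u x => ∑ l : Fin T → Fin d,
    Game.ind (S' (G.wend u (List.ofFn l)) ∧ b (G.wend u (List.ofFn l)) l = x)
  let p : V → ℝ := fun u => (G.adj^[T]) (fun v => Game.ind (S v)) u
  let q : V → ℝ := fun u => (G.adj^[T]) (fun v => Game.ind (S' v)) u
  have single : ∀ (X : Prop) (z : A), ∑ x, Game.ind (X ∧ z = x) = Game.ind X := by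
    intro X z
    rw [Finset.sum_eq_single z]
    · unfold Game.ind
      simp
    · intro x _ hx
      unfold Game.ind
      rw [if_neg]
      rintro ⟨_, h⟩
      exact hx h.symm
    · intro h
      exact absurd (Finset.mem_univ _) h
  have hP : ∀ u, ∑ x, P u x = p u := by
    intro u
    simp only [P, p]
    rw [Finset.sum_comm, ← sum_walks]
    exact Finset.sum_congr rfl fun l _ => single _ _
  have hQ : ∀ u, ∑ x, Q u x = q u := by
    intro u
    simp only [Q, q]
    rw [Finset.sum_comm, ← sum_walks]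
    exact Finset.sum_congr rfl fun l _ => single _ _
  have hP0 : ∀ u x, 0 ≤ P u x := fun u x => Finset.sum_nonneg fun _ _ => Game.ind_nonneg _
  have hQ0 : ∀ u x, 0 ≤ Q u x := fun u x => Finset.sum_nonneg fun _ _ => Game.ind_nonneg _
  have hp0 : ∀ u, 0 ≤ p u := fun u => by rw [← hP]; exact Finset.sum_nonneg fun x _ => hP0 u x
  have hq0 : ∀ u, 0 ≤ q u := fun u => by rw [← hQ]; exact Finset.sum_nonneg fun x _ => hQ0 u x
  have le_D : ∀ (X : V → Prop) (u : V), (G.adj^[T]) (fun v => Game.ind (X v)) u ≤ D := by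
    intro X u
    rw [← sum_walks]
    calc ∑ l : Fin T → Fin d, Game.ind (X (G.wend u (List.ofFn l))) ≤
          ∑ _l : Fin T → Fin d, (1 : ℝ) := Finset.sum_le_sum fun l _ => Game.ind_le_one _
      _ = D := by simp [hD]
  have hq1 : ∀ u, q u ≤ D := le_D S'
  obtain ⟨μ, hμ0, hμ1, hμ⟩ := mixing h0 hs S T
  obtain ⟨ν, hν0, hν1, hν⟩ := mixing h0 hs S' T
  -- the left side
  have lhs : (((#{r : V × ((Fin T → Fin d) × Fin d × (Fin T → Fin d)) |
      S ((walkGame G T).L r.2 r.1) ∧ S' ((walkGame G T).R r.2 r.1) ∧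
      (walkGame G T).check r.1 r.2 ((walkGame G T).lft r.2 (a ((walkGame G T).L r.2 r.1)))
        ((walkGame G T).rgt r.2 (b ((walkGame G T).R r.2 r.1))) = true} : ℕ) : ℝ)) =
      ∑ u, ∑ i, ∑ x, ∑ y, c01 G i u x y * P u x * Q (G.nb i u) y := by
    rw [Game.card_filter_ind, Fintype.sum_prod_type]
    refine Finset.sum_congr rfl fun u _ => ?_
    rw [Fintype.sum_prod_type]
    simp only [Fintype.sum_prod_type]
    rw [Finset.sum_comm]
    refine Finset.sum_congr rfl fun i _ => ?_
    have e1 : ∀ x y, c01 G i u x y * P u x * Q (G.nb i u) y =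
        ∑ l₁ : Fin T → Fin d, ∑ l₂ : Fin T → Fin d, c01 G i u x y *
          Game.ind (S (G.wend u (List.ofFn l₁)) ∧ a (G.wend u (List.ofFn l₁)) l₁ = x) *
          Game.ind (S' (G.wend (G.nb i u) (List.ofFn l₂)) ∧
            b (G.wend (G.nb i u) (List.ofFn l₂)) l₂ = y) := by
      intro x y
      simp only [P, Q]
      rw [mul_assoc, Finset.sum_mul_sum, Finset.mul_sum]
      refine Finset.sum_congr rfl fun l₁ _ => ?_
      rw [Finset.mul_sum]
      exact Finset.sum_congr rfl fun l₂ _ => (mul_assoc _ _ _).symm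
    simp only [e1]
    have e2 : ∀ F : A → A → (Fin T → Fin d) → (Fin T → Fin d) → ℝ,
        ∑ x, ∑ y, ∑ l₁, ∑ l₂, F x y l₁ l₂ = ∑ l₁, ∑ l₂, ∑ x, ∑ y, F x y l₁ l₂ := by
      intro F
      calc ∑ x, ∑ y, ∑ l₁, ∑ l₂, F x y l₁ l₂ = ∑ x, ∑ l₁, ∑ y, ∑ l₂, F x y l₁ l₂ :=
            Finset.sum_congr rfl fun _ _ => Finset.sum_comm
        _ = ∑ l₁, ∑ x, ∑ y, ∑ l₂, F x y l₁ l₂ := Finset.sum_comm
        _ = ∑ l₁, ∑ x, ∑ l₂, ∑ y, F x y l₁ l₂ :=
            Finset.sum_congr rfl fun _ _ => Finset.sum_congr rfl fun _ _ => Finset.sum_comm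
        _ = _ := Finset.sum_congr rfl fun _ _ => Finset.sum_comm
    rw [e2]
    refine Finset.sum_congr rfl fun l₁ _ => Finset.sum_congr rfl fun l₂ _ => ?_
    rw [Finset.sum_eq_single (a (G.wend u (List.ofFn l₁)) l₁),
      Finset.sum_eq_single (b (G.wend (G.nb i u) (List.ofFn l₂)) l₂)]
    · simp only [walkGame, Game.ind_and]
      have r1 : Game.ind True = 1 := by unfold Game.ind; rw [if_pos trivial]
      rw [r1]
      unfold c01 Game.ind
      by_cases hc : G.con i u (a (G.wend u (List.ofFn l₁)) l₁)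
        (b (G.wend (G.nb i u) (List.ofFn l₂)) l₂) = true <;> simp [hc]
    · intro y _ hy
      have : Game.ind (S' (G.wend (G.nb i u) (List.ofFn l₂)) ∧
            b (G.wend (G.nb i u) (List.ofFn l₂)) l₂ = y) = 0 := by
        unfold Game.ind
        rw [if_neg]
        rintro ⟨_, h⟩
        exact hy h.symm
      rw [this, mul_zero]
    · intro h
      exact absurd (Finset.mem_univ _) h
    · intro x _ hx
      have : Game.ind (S (G.wend u (List.ofFn l₁)) ∧ a (G.wend u (List.ofFn l₁)) l₁ = x) = 0 := by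
        unfold Game.ind
        rw [if_neg]
        rintro ⟨_, h⟩
        exact hx h.symm
      rw [this]
      simp
    · intro h
      exact absurd (Finset.mem_univ _) h
  -- the right side
  have rhs : (((#{r : V × ((Fin T → Fin d) × Fin d × (Fin T → Fin d)) |
      S ((walkGame G T).L r.2 r.1) ∧ S' ((walkGame G T).R r.2 r.1)} : ℕ) : ℝ)) =
      ∑ u, ∑ i, p u * q (G.nb i u) := by
    rw [Game.card_filter_ind, Fintype.sum_prod_type]
    refine Finset.sum_congr rfl fun u _ => ?_
    rw [Fintype.sum_prod_type]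
    simp only [Fintype.sum_prod_type]
    rw [Finset.sum_comm]
    refine Finset.sum_congr rfl fun i _ => ?_
    simp only [p, q]
    rw [← sum_walks, ← sum_walks, Finset.sum_mul_sum]
    refine Finset.sum_congr rfl fun l₁ _ => Finset.sum_congr rfl fun l₂ _ => ?_
    exact Game.ind_and _ _
  rw [lhs, rhs]
  -- the distributions
  obtain ⟨x₀⟩ := (inferInstance : Nonempty A)
  let α : V → A → ℝ := fun u x => if p u = 0 then (if x = x₀ then 1 else 0) else P u x / p u
  let β : V → A → ℝ := fun u x => if q u = 0 then (if x = x₀ then 1 else 0) else Q u x / q u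
  have hα : ∀ v x, 0 ≤ α v x := by
    intro v x
    simp only [α]
    split_ifs
    · exact zero_le_one
    · exact le_refl _
    · exact div_nonneg (hP0 v x) (hp0 v)
  have hβ : ∀ v x, 0 ≤ β v x := by
    intro v x
    simp only [β]
    split_ifs
    · exact zero_le_one
    · exact le_refl _
    · exact div_nonneg (hQ0 v x) (hq0 v)
  have hα1 : ∀ v, ∑ x, α v x = 1 := by
    intro v
    simp only [α]
    by_cases h : p v = 0
    · simp [h]
    · simp only [h, if_false]
      rw [← Finset.sum_div, hP, div_self h]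
  have hβ1 : ∀ v, ∑ x, β v x = 1 := by
    intro v
    simp only [β]
    by_cases h : q v = 0
    · simp [h]
    · simp only [h, if_false]
      rw [← Finset.sum_div, hQ, div_self h]
  have hPα : ∀ v x, P v x = p v * α v x := by
    intro v x
    simp only [α]
    by_cases h : p v = 0
    · rw [h, zero_mul]
      have h1 := hP v
      rw [h] at h1
      exact (Finset.sum_eq_zero_iff_of_nonneg (fun x _ => hP0 v x)).1 h1 x (Finset.mem_univ _)
    · rw [if_neg h]
      field_simp
  have hQβ : ∀ v x, Q v x = q v * β v x := by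
    intro v x
    simp only [β]
    by_cases h : q v = 0
    · rw [h, zero_mul]
      have h1 := hQ v
      rw [h] at h1
      exact (Finset.sum_eq_zero_iff_of_nonneg (fun x _ => hQ0 v x)).1 h1 x (Finset.mem_univ _)
    · rw [if_neg h]
      field_simp
  let W : V → Fin d → ℝ := fun u i => ∑ x, ∑ y, c01 G i u x y * α u x * β (G.nb i u) y
  have hW0 : ∀ u i, 0 ≤ W u i := fun u i => Finset.sum_nonneg fun x _ => Finset.sum_nonneg fun y _ =>
    mul_nonneg (mul_nonneg (c01_nonneg G _ _ _ _) (hα _ _)) (hβ _ _)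
  have hW1 : ∀ u i, W u i ≤ 1 := by
    intro u i
    calc W u i ≤ ∑ x, ∑ y, α u x * β (G.nb i u) y := by
          refine Finset.sum_le_sum fun x _ => Finset.sum_le_sum fun y _ => ?_
          have h1 := c01_le_one G i u x y
          have h2 := mul_nonneg (hα u x) (hβ (G.nb i u) y)
          calc c01 G i u x y * α u x * β (G.nb i u) y = c01 G i u x y * (α u x * β (G.nb i u) y) := by
                ring
            _ ≤ 1 * (α u x * β (G.nb i u) y) := mul_le_mul_of_nonneg_right h1 h2
            _ = _ := one_mul _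
      _ = 1 := by
          rw [← Finset.sum_mul_sum, hα1, hβ1, one_mul]
  have hWs : ∑ u, ∑ i, W u i ≤ (1 - η) * (n * d) := hG.distr hα hα1 hβ hβ1
  have e3 : ∑ u, ∑ i, ∑ x, ∑ y, c01 G i u x y * P u x * Q (G.nb i u) y =
      ∑ u, ∑ i, p u * q (G.nb i u) * W u i := by
    refine Finset.sum_congr rfl fun u _ => Finset.sum_congr rfl fun i _ => ?_
    simp only [W]
    rw [Finset.mul_sum]
    refine Finset.sum_congr rfl fun x _ => ?_
    rw [Finset.mul_sum]
    refine Finset.sum_congr rfl fun y _ => ?_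
    rw [hPα, hQβ]
    ring
  rw [e3]
  -- comparison with the means
  have hdiff : ∀ u i, |p u * q (G.nb i u) - μ * ν| ≤ D * |p u - μ| + D * |q (G.nb i u) - ν| := by
    intro u i
    have h1 : p u * q (G.nb i u) - μ * ν = q (G.nb i u) * (p u - μ) + μ * (q (G.nb i u) - ν) := by
      ring
    rw [h1]
    refine (abs_add_le _ _).trans ?_
    rw [abs_mul, abs_mul, abs_of_nonneg (hq0 _), abs_of_nonneg hμ0]
    exact add_le_add (mul_le_mul_of_nonneg_right (hq1 _) (abs_nonneg _))
      (mul_le_mul_of_nonneg_right hμ1 (abs_nonneg _))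
  set Err : ℝ := 2 * lam ^ T * (n * (D * (d * D))) with hErr
  have hErrsum : ∑ u, ∑ i, (D * |p u - μ| + D * |q (G.nb i u) - ν|) ≤ Err := by
    have h1 : ∑ u, ∑ i : Fin d, D * |p u - μ| = D * (d * ∑ u, |p u - μ|) := by
      rw [Finset.mul_sum, Finset.mul_sum]
      refine Finset.sum_congr rfl fun u _ => ?_
      rw [Finset.sum_const, Finset.card_univ, Fintype.card_fin, nsmul_eq_mul]
      ring
    have h2 : ∑ u, ∑ i : Fin d, D * |q (G.nb i u) - ν| = D * (d * ∑ u, |q u - ν|) := by
      rw [G.sum_nb_bk (fun v _ => D * |q v - ν|), Finset.mul_sum, Finset.mul_sum]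
      refine Finset.sum_congr rfl fun u _ => ?_
      rw [Finset.sum_const, Finset.card_univ, Fintype.card_fin, nsmul_eq_mul]
      ring
    simp only [Finset.sum_add_distrib]
    rw [h1, h2]
    have h3 : (lam * d) ^ T = lam ^ T * D := by rw [mul_pow]
    have h4 : D * (d * ∑ u, |p u - μ|) ≤ D * (d * (n * (lam * d) ^ T)) := by gcongr
    have h5 : D * (d * ∑ u, |q u - ν|) ≤ D * (d * (n * (lam * d) ^ T)) := by gcongr
    rw [h3] at h4 h5
    rw [hErr]
    refine (add_le_add h4 h5).trans (le_of_eq (by ring))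
  have hErr0 : 0 ≤ Err := by positivity
  have hA : ∑ u, ∑ i, p u * q (G.nb i u) * W u i ≤ μ * ν * ((1 - η) * (n * d)) + Err := by
    calc ∑ u, ∑ i, p u * q (G.nb i u) * W u i
        ≤ ∑ u, ∑ i, (μ * ν * W u i + (D * |p u - μ| + D * |q (G.nb i u) - ν|)) := by
          refine Finset.sum_le_sum fun u _ => Finset.sum_le_sum fun i _ => ?_
          have h1 := (abs_le.1 (hdiff u i)).2
          have h2 : 0 ≤ D * |p u - μ| + D * |q (G.nb i u) - ν| := by positivity
          have h3 := hW0 u i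
          have h4 := hW1 u i
          nlinarith
      _ = μ * ν * (∑ u, ∑ i, W u i) + ∑ u, ∑ i, (D * |p u - μ| + D * |q (G.nb i u) - ν|) := by
          simp only [Finset.sum_add_distrib, ← Finset.mul_sum]
      _ ≤ _ := add_le_add (mul_le_mul_of_nonneg_left hWs (mul_nonneg hμ0 hν0)) hErrsum
  have hB : μ * ν * (n * d) ≤ ∑ u, ∑ i, p u * q (G.nb i u) + Err := by
    calc μ * ν * (n * d) = ∑ u : V, ∑ _i : Fin d, μ * ν := by
          simp only [Finset.sum_const, Finset.card_univ, Fintype.card_fin, nsmul_eq_mul]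
          ring
      _ ≤ ∑ u, ∑ i, (p u * q (G.nb i u) + (D * |p u - μ| + D * |q (G.nb i u) - ν|)) := by
          refine Finset.sum_le_sum fun u _ => Finset.sum_le_sum fun i _ => ?_
          have h1 := (abs_le.1 (hdiff u i)).1
          linarith
      _ = ∑ u, ∑ i, p u * q (G.nb i u) +
            ∑ u, ∑ i, (D * |p u - μ| + D * |q (G.nb i u) - ν|) := by
          simp only [Finset.sum_add_distrib]
      _ ≤ _ := by linarith
  have hcard : ((Fintype.card V : ℝ) * (Fintype.card ((Fin T → Fin d) × Fin d × (Fin T → Fin d)) : ℕ))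
      = n * (D * (d * D)) := by
    simp only [Fintype.card_prod, Fintype.card_fun, Fintype.card_fin]
    push_cast
    rfl
  rw [hcard]
  have hη' : 0 ≤ 1 - η := by linarith
  have hC := mul_le_mul_of_nonneg_left hB hη'
  have e4 : 4 * lam ^ T * (n * (D * (d * D))) = 2 * Err := by rw [hErr]; ring
  rw [e4]
  have h6 : (1 - η) * Err ≤ Err := by nlinarith
  nlinarith

end

end Pool.Agent.MP_2da4e2_lc
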